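import Mathlib

/-!
# Constant field extension of function fields
-/

set_option autoImplicit false
set_option linter.unusedSectionVars false
set_option linter.style.haveILetI false

namespace Pool.Agent.Helper34.Add

open IntermediateField

section base

variable {k K k' K' : Type} [Field k] [Field K] [Field k'] [Field K'] [Algebra k K] [Algebra k k']
  [Algebra k' K'] [Algebra k K'] [Algebra K K'] [IsScalarTower k k' K'] [IsScalarTower k K K']

/-- the preimage in `K` of an intermediate field of `K'/k'` -/
def comapField (E : IntermediateField k' K') : IntermediateField k K :=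
  (E.toSubfield.comap (algebraMap K K')).toIntermediateField (by
    intro x
    rw [Subfield.mem_comap, ← IsScalarTower.algebraMap_apply k K K',
      IsScalarTower.algebraMap_apply k k' K']
    exact E.algebraMap_mem _)

theorem mem_comapField (E : IntermediateField k' K') (x : K) :
    x ∈ comapField (k := k) (K := K) E ↔ algebraMap K K' x ∈ E := Iff.rfl

theorem map_mem_adjoin (s : Set K) (x : K) (hx : x ∈ adjoin k s) :
    algebraMap K K' x ∈ adjoin k' (algebraMap K K' '' s) := by
  have h1 : adjoin k s ≤ comapField (adjoin k' (algebraMap K K' '' s)) := by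
    rw [adjoin_le_iff]
    intro y hy
    exact subset_adjoin _ _ ⟨y, hy, rfl⟩
  exact h1 hx

theorem base_fg (hfg : (⊤ : IntermediateField k K).FG)
    (hgen : adjoin k' (Set.range (algebraMap K K')) = ⊤) : (⊤ : IntermediateField k' K').FG := by
  classical
  obtain ⟨s, hs⟩ := hfg
  refine ⟨s.image (algebraMap K K'), ?_⟩
  rw [eq_top_iff, ← hgen, adjoin_le_iff]
  rintro _ ⟨x, rfl⟩
  rw [Finset.coe_image]
  refine map_mem_adjoin (k := k) (k' := k') (s : Set K) x ?_
  rw [hs]
  exact mem_top

theorem base_alg (x : K) (hx : Algebra.IsAlgebraic (adjoin k {x}) K)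
    (hgen : adjoin k' (Set.range (algebraMap K K')) = ⊤) :
    Algebra.IsAlgebraic (adjoin k' {algebraMap K K' x}) K' := by
  set E : IntermediateField k' K' := adjoin k' {algebraMap K K' x} with hE
  have hmem : ∀ c : K, c ∈ adjoin k {x} → algebraMap K K' c ∈ E := by
    intro c hc
    have := map_mem_adjoin (k := k) (k' := k') (K' := K') {x} c hc
    rwa [Set.image_singleton] at this
  let φ : (adjoin k {x} : IntermediateField k K) →+* E :=
    ((algebraMap K K').comp (algebraMap (adjoin k {x} : IntermediateField k K) K)).codRestrict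
      E.toSubfield.toSubring (fun c => hmem c c.2)
  have hφ : ∀ c, (φ c : K') = algebraMap K K' (c : K) := fun c => rfl
  have h1 : ∀ y : K, IsAlgebraic E (algebraMap K K' y) := by
    intro y
    obtain ⟨P, hP, hPy⟩ := hx.isAlgebraic y
    refine ⟨P.map φ, ?_, ?_⟩
    · rw [Ne, Polynomial.map_eq_zero_iff φ.injective]
      exact hP
    · rw [Polynomial.aeval_def, Polynomial.eval₂_map]
      have h2 : ((algebraMap E K').comp φ) =
          (algebraMap K K').comp (algebraMap (adjoin k {x} : IntermediateField k K) K) := by
        ext c; exact hφ c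
      rw [h2, ← Polynomial.hom_eval₂, ← Polynomial.aeval_def, hPy, map_zero]
  have h2 : (⊤ : IntermediateField k' K') ≤ (algebraicClosure E K').restrictScalars k' := by
    rw [← hgen, adjoin_le_iff]
    rintro _ ⟨y, rfl⟩
    rw [SetLike.mem_coe, mem_restrictScalars, mem_algebraicClosure_iff]
    exact h1 y
  refine ⟨fun z => ?_⟩
  have h3 := h2 (mem_top (x := z))
  rw [mem_restrictScalars, mem_algebraicClosure_iff] at h3
  exact h3

theorem base_finrank (x : K) [FiniteDimensional (adjoin k {x}) K]
    (hgen : adjoin k' (Set.range (algebraMap K K')) = ⊤) :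
    Module.finrank (adjoin k' {algebraMap K K' x}) K' ≤ Module.finrank (adjoin k {x}) K := by
  set E : IntermediateField k' K' := adjoin k' {algebraMap K K' x} with hE
  have hmem : ∀ c : K, c ∈ adjoin k {x} → algebraMap K K' c ∈ E := by
    intro c hc
    have := map_mem_adjoin (k := k) (k' := k') (K' := K') {x} c hc
    rwa [Set.image_singleton] at this
  let b := Module.finBasis (adjoin k {x}) K
  set n := Module.finrank (adjoin k {x}) K with hn
  let g : Fin n → K' := fun i => algebraMap K K' (b i)
  let M : Submodule E K' := Submodule.span E (Set.range g)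
  have hK : ∀ y : K, algebraMap K K' y ∈ M := by
    intro y
    rw [← b.sum_repr y, map_sum]
    refine M.sum_mem fun i _ => ?_
    have h1 : algebraMap K K' (b.repr y i • b i) =
        (⟨algebraMap K K' (b.repr y i : K), hmem _ (b.repr y i).2⟩ : E) • g i := by
      rw [Algebra.smul_def, map_mul, Algebra.smul_def]
      rfl
    rw [h1]
    exact M.smul_mem _ (Submodule.subset_span ⟨i, rfl⟩)
  have h1M : (1 : K') ∈ M := by
    have := hK 1
    rwa [map_one] at this
  have hmulM : ∀ y z : K', y ∈ M → z ∈ M → y * z ∈ M := by
    intro y z hy hz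
    have h1 : M * M ≤ M := by
      rw [Submodule.span_mul_span, Submodule.span_le]
      rintro _ ⟨_, ⟨i, rfl⟩, _, ⟨j, rfl⟩, rfl⟩
      have := hK (b i * b j)
      rwa [map_mul] at this
    exact h1 (Submodule.mul_mem_mul hy hz)
  let A : Subalgebra E K' := M.toSubalgebra h1M hmulM
  haveI : FiniteDimensional E M := FiniteDimensional.span_of_finite _ (Set.finite_range _)
  have hAM : ∀ z, z ∈ A ↔ z ∈ M := fun z => Iff.rfl
  haveI : FiniteDimensional E A := by
    change FiniteDimensional E M
    infer_instance
  have hinv : ∀ z ∈ A, z⁻¹ ∈ A := by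
    intro z hz
    have h1 : IsAlgebraic E z := by
      have h2 : IsAlgebraic E (⟨z, hz⟩ : A) := Algebra.IsAlgebraic.isAlgebraic _
      obtain ⟨P, hP, hP0⟩ := h2
      refine ⟨P, hP, ?_⟩
      have h3 := congrArg (algebraMap A K') hP0
      rw [map_zero, ← Polynomial.aeval_algebraMap_apply] at h3
      exact h3
    exact A.inv_mem_of_algebraic (x := ⟨z, hz⟩) h1
  let F : IntermediateField E K' := A.toIntermediateField hinv
  have hF : (⊤ : IntermediateField k' K') ≤ F.restrictScalars k' := by
    rw [← hgen, adjoin_le_iff]
    rintro _ ⟨y, rfl⟩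
    exact hK y
  have hMtop : M = ⊤ := by
    rw [eq_top_iff]
    intro z _
    exact hF (mem_top (x := z))
  have h1 : Module.finrank E K' = (Set.range g).finrank E := by
    unfold Set.finrank
    change _ = Module.finrank E M
    rw [hMtop, finrank_top]
  rw [h1]
  refine (finrank_range_le_card g).trans ?_
  rw [Fintype.card_fin]

end base

end Pool.Agent.Helper34.Add
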