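import Pool.Agent.Helper34.AddMason

/-!
# The core inequality
-/

set_option autoImplicit false
set_option linter.unusedSectionVars false
set_option linter.style.haveILetI false

namespace Pool.Agent.Helper34.Add

open Pool.Agent.Helper33 Finset Polynomial

section vanish

variable (p : ℕ) [hp : Fact p.Prime] {K : Type*} [Field K] [CharP K p] [Algebra (ZMod p) K]

theorem coeff_zero_of_vanish (r : ℕ) (a : ℕ → K) (U : Submodule (ZMod p) K)
    [FiniteDimensional (ZMod p) U] (hU : r < Module.finrank (ZMod p) U)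
    (h : ∀ u ∈ U, addMap p r a u = 0) (i : ℕ) (hi : i ≤ r) : a i = 0 := by
  classical
  have hp1 : 1 < p := (Fact.out : p.Prime).one_lt
  haveI : Finite U := Module.finite_of_finite (ZMod p)
  have hfin : (U : Set K).Finite := Set.toFinite _
  have hcard : hfin.toFinset.card = p ^ Module.finrank (ZMod p) U := by
    rw [← natCard_submodule p U, ← Set.ncard_eq_toFinset_card (U : Set K) hfin]
    rfl
  have hzero : addPoly p r a = 0 := by
    by_contra hne
    have hsub : hfin.toFinset ⊆ (addPoly p r a).roots.toFinset := by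
      intro x hx
      rw [Multiset.mem_toFinset, mem_roots hne, IsRoot.def, addPoly_eval]
      exact h x (by simpa using hx)
    have h4 : p ^ Module.finrank (ZMod p) U ≤ p ^ r := by
      rw [← hcard]
      exact (Finset.card_le_card hsub).trans ((Multiset.toFinset_card_le _).trans
        ((card_roots' _).trans (addPoly_natDegree_le p r a)))
    have := (Nat.pow_le_pow_iff_right hp1).1 h4
    omega
  rw [← addPoly_coeff p r a i hi, hzero, coeff_zero]

end vanish

section core

variable (p : ℕ) [hp : Fact p.Prime] {k K V : Type*} [Field k] [Field K] [Algebra k K]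
  [CharP K p] [Algebra (ZMod p) K] (S : PlaceSys p k K V)

/-- combinations of `F^i y` -/
noncomputable def comb (r : ℕ) (a : ℕ → K) (m : ℕ) (y : K) : (Fin m → ZMod p) →ₗ[ZMod p] K :=
  Fintype.linearCombination (ZMod p) (fun i : Fin m => (Fe p r a ^ (i : ℕ)) y)

theorem comb_apply (r : ℕ) (a : ℕ → K) (m : ℕ) (y : K) (c : Fin m → ZMod p) :
    comb p r a m y c = ∑ i, c i • (Fe p r a ^ (i : ℕ)) y := by
  rw [comb, Fintype.linearCombination_apply]

theorem comb_single (r : ℕ) (a : ℕ → K) (m : ℕ) (y : K) (i : Fin m) :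
    comb p r a m y (Pi.single i 1) = (Fe p r a ^ (i : ℕ)) y := by
  rw [comb, Fintype.linearCombination_apply_single, one_smul]

theorem D_addMap (r : ℕ) (a : ℕ → K) (u : K) (hu : S.D u = 0) :
    S.D (addMap p r a u) = addMap p r (fun i => S.D (a i)) u := by
  rw [addMap_apply, addMap_apply, D_sum]
  refine Finset.sum_congr rfl fun i _ => ?_
  rw [S.D_mul, D_pow_eq_zero S u hu]
  ring

theorem addMap_scale (r : ℕ) (a : ℕ → K) (y u : K) :
    addMap p r a (y * u) = y * addMap p r (fun i => a i * y ^ (p ^ i - 1)) u := by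
  rw [addMap_apply, addMap_apply, Finset.mul_sum]
  refine Finset.sum_congr rfl fun i _ => ?_
  have hpos : 0 < p ^ i := pow_pos (Fact.out : p.Prime).pos i
  have : y ^ p ^ i = y * y ^ (p ^ i - 1) := by
    rw [← pow_succ']; congr 1; omega
  rw [mul_pow, this]
  ring

/-- from primitivity to a non-`p`-th power ratio -/
theorem exists_D (r : ℕ) (hr : 1 ≤ r) (a : ℕ → K) (y : K) (hy : y ≠ 0)
    (hli : LinearIndependent (ZMod p) (fun i : Fin (2 * r + 1) => (Fe p r a ^ (i : ℕ)) y))
    (hprim : ∃ i ≤ r, S.D (a i * y ^ (p ^ i - 1)) ≠ 0) :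
    ∃ i : Fin (2 * r + 1), S.D ((Fe p r a ^ (i : ℕ)) y / y) ≠ 0 := by
  by_contra hcon
  push Not at hcon
  obtain ⟨i, hi, hDi⟩ := hprim
  apply hDi
  set a' : ℕ → K := fun i => a i * y ^ (p ^ i - 1) with ha'
  let w : Fin (2 * r) → K := fun i => (Fe p r a ^ (i : ℕ)) y / y
  have hw : LinearIndependent (ZMod p) w := by
    have h1 : LinearIndependent (ZMod p) (fun i : Fin (2 * r) => (Fe p r a ^ (i : ℕ)) y) :=
      hli.comp (fun i : Fin (2 * r) => (⟨i, by omega⟩ : Fin (2 * r + 1)))
        (fun i j h => Fin.ext (congrArg (fun x : Fin (2 * r + 1) => (x : ℕ)) h))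
    let m : K →ₗ[ZMod p] K := LinearMap.mulRight (ZMod p) y⁻¹
    have hm : LinearMap.ker m = ⊥ := by
      rw [LinearMap.ker_eq_bot']
      intro x hx
      have hx' : x * y⁻¹ = 0 := hx
      rcases mul_eq_zero.1 hx' with h | h
      · exact h
      · exact absurd (inv_eq_zero.1 h) hy
    have h2 := h1.map' m hm
    have h3 : w = m ∘ (fun i : Fin (2 * r) => (Fe p r a ^ (i : ℕ)) y) := by
      funext i
      simp only [w, m, Function.comp, LinearMap.mulRight_apply, div_eq_mul_inv]
    rw [h3]
    exact h2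
  have hvan : ∀ i : Fin (2 * r), addMap p r (fun i => S.D (a' i)) (w i) = 0 := by
    intro i
    have h1 : S.D (w i) = 0 := hcon ⟨i, by omega⟩
    rw [← D_addMap p S r a' (w i) h1]
    have h2 := hcon ⟨i + 1, by omega⟩
    simp only at h2
    rw [pow_succ', Module.End.mul_apply] at h2
    have h3 : (Fe p r a ^ (i : ℕ)) y = y * w i := by
      simp only [w]
      field_simp
    rw [h3] at h2
    rw [show Fe p r a (y * w i) = y * addMap p r a' (w i) from addMap_scale p r a y (w i),
      mul_div_cancel_left₀ _ hy] at h2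
    exact h2
  haveI : FiniteDimensional (ZMod p) (Submodule.span (ZMod p) (Set.range w)) :=
    FiniteDimensional.span_of_finite _ (Set.finite_range _)
  refine coeff_zero_of_vanish p r (fun i => S.D (a' i)) (Submodule.span (ZMod p) (Set.range w))
    ?_ ?_ i hi
  · rw [finrank_span_eq_card hw, Fintype.card_fin]
    omega
  · intro u hu
    have h1 : Submodule.span (ZMod p) (Set.range w) ≤
        LinearMap.ker (addMap p r (fun i => S.D (a' i))) := by
      rw [Submodule.span_le]
      rintro _ ⟨i, rfl⟩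
      exact hvan i
    exact h1 hu

theorem core (r : ℕ) (hr : 1 ≤ r) (a : ℕ → K) (har : a r ≠ 0)
    (W : Submodule (ZMod p) K) [FiniteDimensional (ZMod p) W] (hW : ∀ w ∈ W, addMap p r a w ∈ W)
    (T : Finset V) (hTa : Sup S T (a r)) (hTW : ∀ w ∈ W, w ≠ 0 → Sup S T w)
    (y : K) (hyW : y ∈ W) (hy : y ≠ 0)
    (hli : LinearIndependent (ZMod p) (fun i : Fin (2 * r + 1) => (Fe p r a ^ (i : ℕ)) y))
    (S₁ : Finset V)
    (hS₁ : ∀ v ∉ S₁, ∀ c : Fin (2 * r + 1) → ZMod p, c ≠ 0 →
      (S.pl v).o (comb p r a (2 * r + 1) y c) = (S.pl v).o y)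
    (hD : ∃ i : Fin (2 * r + 1), S.D ((Fe p r a ^ (i : ℕ)) y / y) ≠ 0) :
    (∑ v ∈ T, eta p r a (S.pl v)) / 2 - ∑ v ∈ T, al a (S.pl v) ≤
      (p : ℚ) ^ (2 * r + 1) * (2 * (#S₁ + Etot S)) := by
  classical
  set L := comb p r a (2 * r + 1) y with hL
  have hLinj : Function.Injective L := by
    rw [hL, comb]
    exact linearIndependent_iff_injective_fintypeLinearCombination.1 hli
  have hL0 : ∀ c, c ≠ 0 → L c ≠ 0 := by
    intro c hc h
    exact hc (hLinj (by rw [h, map_zero]))
  have hLW : ∀ c, L c ∈ W := by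
    intro c
    rw [hL, comb_apply]
    refine W.sum_mem fun i _ => W.smul_mem _ ?_
    have := aeval_mem p (Fe p r a) W hW (X ^ (i : ℕ)) y hyW
    simpa using this
  have he0 : L (Pi.single 0 1) = y := by
    rw [hL, comb_single]
    simp
  have hT0 : ∀ x : K, 0 ≤ hT S T x := fun x => Finset.sum_nonneg fun v _ => le_max_left _ _
  -- pairs
  have hpair : ∀ c c' : Fin (2 * r + 1) → ZMod p, c ≠ 0 → c' ≠ 0 → S.D (L c / L c') ≠ 0 →
      hT S T (L c / L c') ≤ #S₁ + Etot S := by
    intro c c' hc hc' hDc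
    have h0 : L c / L c' ≠ 0 := div_ne_zero (hL0 c hc) (hL0 c' hc')
    have h1 : L c / L c' ≠ 1 := by
      intro h; rw [h, D_one] at hDc; exact hDc rfl
    have hcc : c' - c ≠ 0 := by
      intro h
      apply h1
      rw [sub_eq_zero.1 h]
      exact div_self (hL0 c hc)
    refine mason S T S₁ _ h0 h1 hDc fun v hv => ⟨?_, ?_⟩
    · rw [o_div _ _ _ (hL0 c hc) (hL0 c' hc'), hS₁ v hv c hc, hS₁ v hv c' hc', sub_self]
    · have h2 : 1 - L c / L c' = L (c' - c) / L c' := by
        rw [map_sub, sub_div, div_self (hL0 c' hc')]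
      rw [h2, o_div _ _ _ (hL0 _ hcc) (hL0 c' hc'), hS₁ v hv _ hcc, hS₁ v hv c' hc', sub_self]
  have hE : (0 : ℚ) ≤ #S₁ + Etot S := by positivity
  have hbound : ∀ c : Fin (2 * r + 1) → ZMod p, c ≠ 0 →
      hT S T (y / L c) ≤ 2 * (#S₁ + Etot S) := by
    intro c hc
    have hs0 : (Pi.single 0 1 : Fin (2 * r + 1) → ZMod p) ≠ 0 := by
      intro h
      have := congrFun h 0
      simp at this
    by_cases hDc : S.D (y / L c) = 0
    · obtain ⟨i, hi⟩ := hD
      set z := (Fe p r a ^ (i : ℕ)) y with hz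
      have hzL : L (Pi.single i 1) = z := by rw [hL, comb_single]
      have hsi : (Pi.single i 1 : Fin (2 * r + 1) → ZMod p) ≠ 0 := by
        intro h
        have := congrFun h i
        simp at this
      have hz0 : z ≠ 0 := by rw [← hzL]; exact hL0 _ hsi
      have hD1 : S.D (y / z) ≠ 0 := by
        intro h
        have := D_inv_eq_zero S _ h
        rw [inv_div] at this
        exact hi this
      have hD2 : S.D (z / L c) ≠ 0 := by
        have h1 : z / L c = (z / y) * (y / L c) := by field_simp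
        rw [h1, S.D_mul, hDc, mul_zero, zero_add]
        exact mul_ne_zero (div_ne_zero hy (hL0 c hc)) hi
      have h1 : hT S T (y / z) ≤ #S₁ + Etot S := by
        have := hpair (Pi.single 0 1) (Pi.single i 1) hs0 hsi
        rw [he0, hzL] at this
        exact this hD1
      have h2 : hT S T (z / L c) ≤ #S₁ + Etot S := by
        have := hpair (Pi.single i 1) c hsi hc
        rw [hzL] at this
        exact this hD2
      have h3 : hT S T (y / L c) ≤ hT S T (y / z) + hT S T (z / L c) := by
        unfold hT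
        rw [← Finset.sum_add_distrib]
        refine Finset.sum_le_sum fun v _ => ?_
        rw [o_div _ _ _ hy (hL0 c hc), o_div _ _ _ hy hz0, o_div _ _ _ hz0 (hL0 c hc)]
        push_cast
        refine max_le (add_nonneg (le_max_left _ _) (le_max_left _ _)) ?_
        have e1 := le_max_right 0 (-(((S.pl v).o y : ℚ) - ((S.pl v).o z : ℚ)))
        have e2 := le_max_right 0 (-(((S.pl v).o z : ℚ) - ((S.pl v).o (L c) : ℚ)))
        linarith
      linarith
    · have := hpair (Pi.single 0 1) c hs0 hc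
      rw [he0] at this
      have := this hDc
      linarith
  -- small elements
  have hsmall : ∀ v : V, ∃ c : Fin (2 * r + 1) → ZMod p, c ≠ 0 ∧
      Le (S.pl v) (s0 p r a (S.pl v) + (2 * eta p r a (S.pl v) + al a (S.pl v)) / 2 ^ 2) (L c) := by
    intro v
    have h1 := jd_iter p r hr a har (S.pl v) W hW 2
    have h2 : Module.finrank (ZMod p) (LinearMap.range L) = 2 * r + 1 := by
      rw [LinearMap.finrank_range_of_inj hLinj, Module.finrank_fin_fun]
    obtain ⟨z, ⟨c, rfl⟩, hz0, hz⟩ := exists_small p (S.pl v) W _ (LinearMap.range L)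
      (by rintro _ ⟨c, rfl⟩; exact hLW c) (by rw [h2]; exact lt_of_le_of_lt h1 (by omega))
    refine ⟨c, ?_, hz⟩
    rintro rfl
    exact hz0 (map_zero _)
  choose cv hcv0 hcv using hsmall
  -- lower bound
  have hyS := hTW y hyW hy
  have hprody := prod_formula S T y hy hyS
  have hproda := prod_formula S T (a r) har hTa
  have hg : ∑ v ∈ T, gv p r a (S.pl v) = 0 := by
    unfold gv
    rw [← Finset.sum_div, hproda, zero_div]
  have hlow : (∑ v ∈ T, eta p r a (S.pl v)) / 2 - ∑ v ∈ T, al a (S.pl v) ≤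
      ∑ v ∈ T, max 0 (-((S.pl v).o (y / L (cv v)) : ℚ)) := by
    have h1 : ∀ v ∈ T, -((S.pl v).o y : ℚ) - gv p r a (S.pl v) + eta p r a (S.pl v) / 2 -
        al a (S.pl v) ≤ max 0 (-((S.pl v).o (y / L (cv v)) : ℚ)) := by
      intro v _
      refine le_trans ?_ (le_max_right _ _)
      rw [o_div _ _ _ hy (hL0 _ (hcv0 v))]
      have h2 := (hcv v).of_ne (hL0 _ (hcv0 v))
      have h3 := al_nonneg a (S.pl v)
      have h4 : s0 p r a (S.pl v) = gv p r a (S.pl v) - eta p r a (S.pl v) := by
        unfold eta; ring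
      rw [h4] at h2
      push_cast
      linarith
    have h2 := Finset.sum_le_sum h1
    refine le_trans (le_of_eq ?_) h2
    rw [Finset.sum_sub_distrib, Finset.sum_add_distrib, Finset.sum_sub_distrib, hg,
      Finset.sum_neg_distrib, hprody, ← Finset.sum_div]
    ring
  have hup : ∑ v ∈ T, max 0 (-((S.pl v).o (y / L (cv v)) : ℚ)) ≤
      ∑ c ∈ Finset.univ.filter (fun c : Fin (2 * r + 1) → ZMod p => c ≠ 0), hT S T (y / L c) := by
    unfold hT
    rw [Finset.sum_comm]
    refine Finset.sum_le_sum fun v _ => ?_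
    exact Finset.single_le_sum
      (f := fun c => max 0 (-((S.pl v).o (y / L c) : ℚ))) (fun c _ => le_max_left _ _)
      (Finset.mem_filter.2 ⟨Finset.mem_univ _, hcv0 v⟩)
  have hfin : ∑ c ∈ Finset.univ.filter (fun c : Fin (2 * r + 1) → ZMod p => c ≠ 0),
      hT S T (y / L c) ≤ (p : ℚ) ^ (2 * r + 1) * (2 * (#S₁ + Etot S)) := by
    calc _ ≤ ∑ c ∈ Finset.univ.filter (fun c : Fin (2 * r + 1) → ZMod p => c ≠ 0),
          (2 * (#S₁ + Etot S) : ℚ) :=
          Finset.sum_le_sum fun c hc => hbound c (Finset.mem_filter.1 hc).2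
      _ = #(Finset.univ.filter (fun c : Fin (2 * r + 1) → ZMod p => c ≠ 0)) *
          (2 * (#S₁ + Etot S) : ℚ) := by rw [Finset.sum_const, nsmul_eq_mul]
      _ ≤ (p : ℚ) ^ (2 * r + 1) * (2 * (#S₁ + Etot S)) := by
          refine mul_le_mul_of_nonneg_right ?_ (by positivity)
          have h1 : #(Finset.univ.filter (fun c : Fin (2 * r + 1) → ZMod p => c ≠ 0)) ≤
              p ^ (2 * r + 1) := by
            refine (Finset.card_filter_le _ _).trans ?_
            rw [Finset.card_univ, Fintype.card_fun, ZMod.card, Fintype.card_fin]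
          exact_mod_cast h1
  linarith

end core

end Pool.Agent.Helper34.Add
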