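import Pool.Agent.Helper33.PlaceSys

/-!
# Discrete valuations and additive polynomials: basic lemmas
-/

set_option autoImplicit false

namespace Pool.Agent.Helper34.Add

open Pool.Agent.Helper33 Finset

section basic

variable {K : Type*} [Field K] (v : DV K)

theorem o_one : v.o 1 = 0 := by
  have := v.mul 1 1 one_ne_zero one_ne_zero
  simp only [mul_one] at this
  omega

theorem o_neg_one : v.o (-1) = 0 := by
  have h0 : (-1 : K) ≠ 0 := neg_ne_zero.2 one_ne_zero
  have := v.mul (-1) (-1) h0 h0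
  simp only [mul_neg, mul_one, neg_neg, o_one] at this
  omega

theorem o_neg (x : K) : v.o (-x) = v.o x := by
  by_cases hx : x = 0
  · simp [hx]
  · have h0 : (-1 : K) ≠ 0 := neg_ne_zero.2 one_ne_zero
    have := v.mul (-1) x h0 hx
    rw [o_neg_one, neg_one_mul] at this
    omega

theorem o_inv (x : K) (hx : x ≠ 0) : v.o x⁻¹ = - v.o x := by
  have := v.mul x x⁻¹ hx (inv_ne_zero hx)
  rw [mul_inv_cancel₀ hx, o_one] at this
  omega

theorem o_div (x y : K) (hx : x ≠ 0) (hy : y ≠ 0) : v.o (x / y) = v.o x - v.o y := by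
  rw [div_eq_mul_inv, v.mul x y⁻¹ hx (inv_ne_zero hy), o_inv v y hy]
  ring

theorem o_pow (x : K) (hx : x ≠ 0) (n : ℕ) : v.o (x ^ n) = n * v.o x := by
  induction n with
  | zero => simp [o_one]
  | succ n ih =>
    rw [pow_succ, v.mul _ _ (pow_ne_zero n hx) hx, ih]
    push_cast
    ring

/-- `|x| ≤ e^s` -/
def Le (v : DV K) (s : ℚ) (x : K) : Prop := x = 0 ∨ -(v.o x : ℚ) ≤ s

/-- `|x| < e^s` -/
def Lt (v : DV K) (s : ℚ) (x : K) : Prop := x = 0 ∨ -(v.o x : ℚ) < s

variable {v}

theorem Le.zero (s : ℚ) : Le v s 0 := Or.inl rfl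

theorem Lt.zero (s : ℚ) : Lt v s 0 := Or.inl rfl

theorem Lt.le {s : ℚ} {x : K} (h : Lt v s x) : Le v s x := h.imp id fun h => h.le

theorem Le.mono {s t : ℚ} {x : K} (h : Le v s x) (hst : s ≤ t) : Le v t x :=
  h.imp id fun h => h.trans hst

theorem Le.lt_of_lt {s t : ℚ} {x : K} (h : Le v s x) (hst : s < t) : Lt v t x :=
  h.imp id fun h => h.trans_lt hst

theorem Lt.mono {s t : ℚ} {x : K} (h : Lt v s x) (hst : s ≤ t) : Lt v t x :=
  h.imp id fun h => h.trans_le hst

theorem Le.self (x : K) : Le v (-(v.o x : ℚ)) x := Or.inr le_rfl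

theorem Le.of_ne {s : ℚ} {x : K} (h : Le v s x) (hx : x ≠ 0) : -(v.o x : ℚ) ≤ s :=
  h.resolve_left hx

theorem Lt.of_ne {s : ℚ} {x : K} (h : Lt v s x) (hx : x ≠ 0) : -(v.o x : ℚ) < s :=
  h.resolve_left hx

theorem Le.neg {s : ℚ} {x : K} (h : Le v s x) : Le v s (-x) := by
  rcases h with h | h
  · exact Or.inl (by rw [h, neg_zero])
  · exact Or.inr (by rw [o_neg]; exact h)

theorem Lt.neg {s : ℚ} {x : K} (h : Lt v s x) : Lt v s (-x) := by
  rcases h with h | h
  · exact Or.inl (by rw [h, neg_zero])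
  · exact Or.inr (by rw [o_neg]; exact h)

theorem Le.add {s : ℚ} {x y : K} (hx : Le v s x) (hy : Le v s y) : Le v s (x + y) := by
  by_cases hx0 : x = 0
  · rwa [hx0, zero_add]
  by_cases hy0 : y = 0
  · rwa [hy0, add_zero]
  by_cases hxy : x + y = 0
  · exact Or.inl hxy
  right
  have h1 := v.add x y hx0 hy0 hxy
  have h2 := hx.of_ne hx0
  have h3 := hy.of_ne hy0
  rcases le_total (v.o x) (v.o y) with h | h
  · rw [min_eq_left h] at h1
    have : (v.o x : ℚ) ≤ v.o (x + y) := by exact_mod_cast h1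
    linarith
  · rw [min_eq_right h] at h1
    have : (v.o y : ℚ) ≤ v.o (x + y) := by exact_mod_cast h1
    linarith

theorem Lt.add {s : ℚ} {x y : K} (hx : Lt v s x) (hy : Lt v s y) : Lt v s (x + y) := by
  by_cases hx0 : x = 0
  · rwa [hx0, zero_add]
  by_cases hy0 : y = 0
  · rwa [hy0, add_zero]
  by_cases hxy : x + y = 0
  · exact Or.inl hxy
  right
  have h1 := v.add x y hx0 hy0 hxy
  have h2 := hx.of_ne hx0
  have h3 := hy.of_ne hy0
  rcases le_total (v.o x) (v.o y) with h | h
  · rw [min_eq_left h] at h1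
    have : (v.o x : ℚ) ≤ v.o (x + y) := by exact_mod_cast h1
    linarith
  · rw [min_eq_right h] at h1
    have : (v.o y : ℚ) ≤ v.o (x + y) := by exact_mod_cast h1
    linarith

theorem Le.sub {s : ℚ} {x y : K} (hx : Le v s x) (hy : Le v s y) : Le v s (x - y) := by
  rw [sub_eq_add_neg]; exact hx.add hy.neg

theorem Lt.sub {s : ℚ} {x y : K} (hx : Lt v s x) (hy : Lt v s y) : Lt v s (x - y) := by
  rw [sub_eq_add_neg]; exact hx.add hy.neg

theorem Le.mul {s t : ℚ} {x y : K} (hx : Le v s x) (hy : Le v t y) : Le v (s + t) (x * y) := by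
  by_cases hx0 : x = 0
  · exact Or.inl (by rw [hx0, zero_mul])
  by_cases hy0 : y = 0
  · exact Or.inl (by rw [hy0, mul_zero])
  right
  rw [v.mul x y hx0 hy0]
  have h2 := hx.of_ne hx0
  have h3 := hy.of_ne hy0
  push_cast
  linarith

theorem Le.mul_lt {s t : ℚ} {x y : K} (hx : Le v s x) (hy : Lt v t y) : Lt v (s + t) (x * y) := by
  by_cases hx0 : x = 0
  · exact Or.inl (by rw [hx0, zero_mul])
  by_cases hy0 : y = 0
  · exact Or.inl (by rw [hy0, mul_zero])
  right
  rw [v.mul x y hx0 hy0]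
  have h2 := hx.of_ne hx0
  have h3 := hy.of_ne hy0
  push_cast
  linarith

theorem Le.pow {s : ℚ} {x : K} (hx : Le v s x) (n : ℕ) : Le v (n * s) (x ^ n) := by
  by_cases hx0 : x = 0
  · rcases Nat.eq_zero_or_pos n with hn | hn
    · right
      rw [hn]
      simp [o_one]
    · left
      rw [hx0, zero_pow hn.ne']
  · right
    rw [o_pow v x hx0]
    have := hx.of_ne hx0
    have hn : (0 : ℚ) ≤ n := Nat.cast_nonneg n
    push_cast
    nlinarith

theorem Le.sum {ι : Type*} (T : Finset ι) (g : ι → K) {s : ℚ} (h : ∀ i ∈ T, Le v s (g i)) :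
    Le v s (∑ i ∈ T, g i) := by
  classical
  induction T using Finset.induction_on with
  | empty => simpa using Le.zero s
  | insert a T ha ih =>
    rw [Finset.sum_insert ha]
    exact (h a (Finset.mem_insert_self _ _)).add (ih fun i hi => h i (Finset.mem_insert_of_mem hi))

theorem Lt.sum {ι : Type*} (T : Finset ι) (g : ι → K) {s : ℚ} (h : ∀ i ∈ T, Lt v s (g i)) :
    Lt v s (∑ i ∈ T, g i) := by
  classical
  induction T using Finset.induction_on with
  | empty => simpa using Lt.zero s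
  | insert a T ha ih =>
    rw [Finset.sum_insert ha]
    exact (h a (Finset.mem_insert_self _ _)).add (ih fun i hi => h i (Finset.mem_insert_of_mem hi))

/-- dominance -/
theorem add_dom {x y : K} (hx : x ≠ 0) (hy : Lt v (-(v.o x : ℚ)) y) :
    x + y ≠ 0 ∧ v.o (x + y) = v.o x := by
  have h0 : x + y ≠ 0 := by
    intro h
    have hyx : y = -x := by linear_combination h
    have : Lt v (-(v.o x : ℚ)) (-x) := hyx ▸ hy
    have := this.of_ne (neg_ne_zero.2 hx)
    rw [o_neg] at this
    exact lt_irrefl _ this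
  refine ⟨h0, le_antisymm ?_ ?_⟩
  · by_contra hlt
    push Not at hlt
    have h1 : Lt v (-(v.o x : ℚ)) (x + y) := by
      right
      have : (v.o x : ℚ) < v.o (x + y) := by exact_mod_cast hlt
      linarith
    have h2 := h1.sub hy
    rw [add_sub_cancel_right] at h2
    exact lt_irrefl _ (h2.of_ne hx)
  · have h1 : Le v (-(v.o x : ℚ)) (x + y) := (Le.self x).add hy.le
    have h2 := h1.of_ne h0
    have : (v.o x : ℚ) ≤ v.o (x + y) := by linarith
    exact_mod_cast this

/-- the disc as a subgroup -/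
def Dsub (v : DV K) (s : ℚ) : AddSubgroup K where
  carrier := {x | Le v s x}
  zero_mem' := Le.zero s
  add_mem' := fun hx hy => Le.add hx hy
  neg_mem' := fun hx => Le.neg hx

end basic

section additive

variable (p : ℕ) [Fact p.Prime] {K : Type*} [Field K] [CharP K p] [Algebra (ZMod p) K]

/-- the disc as an `F_p`-subspace -/
def DS (v : DV K) (s : ℚ) : Submodule (ZMod p) K := AddSubgroup.toZModSubmodule p (Dsub v s)

theorem mem_DS (v : DV K) (s : ℚ) (x : K) : x ∈ DS p v s ↔ Le v s x := Iff.rfl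

/-- the additive polynomial as an `F_p`-linear map -/
def addMap (r : ℕ) (a : ℕ → K) : K →ₗ[ZMod p] K :=
  AddMonoidHom.toZModLinearMap p
    { toFun := fun x => ∑ i ∈ range (r + 1), a i * x ^ p ^ i
      map_zero' := by
        refine Finset.sum_eq_zero fun i _ => ?_
        rw [zero_pow (pow_pos (Fact.out : p.Prime).pos i).ne', mul_zero]
      map_add' := fun x y => by
        rw [← Finset.sum_add_distrib]
        refine Finset.sum_congr rfl fun i _ => ?_
        rw [add_pow_char_pow, mul_add] }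

theorem addMap_apply (r : ℕ) (a : ℕ → K) (x : K) :
    addMap p r a x = ∑ i ∈ range (r + 1), a i * x ^ p ^ i := rfl

end additive

end Pool.Agent.Helper34.Add
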