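import Mathlib

/-!
# Definitions used in the statement on affine-additive polynomials
-/

set_option autoImplicit false

namespace Pool.Agent.Helper34.Add

open Polynomial

/-- The affine-additive polynomial `b + a_0 z + a_1 z^p + ... + a_r z^(p^r)`. -/
noncomputable def affPoly (p r : ℕ) {K : Type} [Field K] (a : ℕ → K) (b : K) : K[X] :=
  C b + ∑ i ∈ Finset.range (r + 1), C (a i) * X ^ p ^ i

/-- `f` is isotrivial: conjugate by an affine map `z ↦ u z + v` over the algebraic closure of `K` to
a polynomial whose coefficients are all algebraic over `k`. -/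
def IsotrivialPoly (k : Type) {K : Type} [Field k] [Field K] [Algebra k K] (f : K[X]) : Prop :=
  ∃ u v : AlgebraicClosure K, u ≠ 0 ∧ ∀ n : ℕ, IsAlgebraic k
    ((C u⁻¹ * ((f.map (algebraMap K (AlgebraicClosure K))).comp (C u * X + C v) - C v)).coeff n)

/-- The preperiodic points in `K` of the polynomial map `f`. -/
def PrePer {K : Type} [Field K] (f : K[X]) : Set K :=
  {x | ∃ m n : ℕ, m < n ∧ (fun z => f.eval z)^[m] x = (fun z => f.eval z)^[n] x}

end Pool.Agent.Helper34.Add
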