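import Pool.Agent.Helper45.FFPlaces

/-!
# Place systems with the degree bound
-/

set_option autoImplicit false
set_option linter.style.haveILetI false

namespace Pool.Agent.Helper34.Add

open Polynomial IntermediateField Pool.Agent.Helper16 Pool.Agent.Helper45.FF

variable {k K : Type} [Field k] [Field K] [Algebra k K]

/-- The place system of a one-variable function field over an algebraically closed field, together
with the bound of the number of poles of a nonconstant element by its degree. -/
theorem exists_placeSys_deg (p : ℕ) [Fact p.Prime] (k K : Type) [Field k] [IsAlgClosed k]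
    [CharP k p] [Field K] [Algebra k K]
    (hfg : (⊤ : IntermediateField k K).FG)
    (htr : ∃ x : K, Transcendental k x ∧ Algebra.IsAlgebraic (IntermediateField.adjoin k {x}) K) :
    ∃ (V : Type) (S : Pool.Agent.Helper33.PlaceSys p k K V),
      (∀ x : K, Transcendental k x → ∀ T : Finset V,
        ∑ v ∈ T, max 0 (-((S.pl v).o x : ℚ)) ≤ Module.finrank k⟮x⟯ K) ∧
      (∀ x : K, IsAlgebraic k x → ∀ v, x ≠ 0 → (S.pl v).o x = 0) := by
  classical
  have hN : IsFunctionField k K := isFunctionField_of hfg htr
  haveI := hN.1
  haveI : CharP K p := charP_of_injective_algebraMap (algebraMap k K).injective p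
  obtain ⟨S, hS1, hS2⟩ := exists_isTranscendenceBasis_and_isSeparable_of_perfectField k K
  have hcard : S.card = 1 := by
    have h3 := hS1.lift_cardinalMk_eq_trdeg
    rw [hN.2] at h3
    simpa using h3
  obtain ⟨t, rfl⟩ := Finset.card_eq_one.1 hcard
  have ht : Transcendental k t := by
    have := hS1.1
    have h2 := this.transcendental ⟨t, by simp⟩
    exact h2
  haveI : Algebra.IsSeparable k⟮t⟯ K := by
    rw [Finset.coe_singleton] at hS2
    exact hS2
  haveI := hN.finiteDimensional t ht
  obtain ⟨D, hD⟩ := exists_deriv t ht
  obtain ⟨g1, hg10, -, hg1⟩ := exists_denominator t ht D 1 (by rw [hD]; simp)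
  haveI := finiteDimensional_inv (K := k) t
  obtain ⟨g2, hg20, -, hg2⟩ := exists_denominator t⁻¹ (transcendental_inv ht) D (-X ^ 2) (by
    rw [Derivation.leibniz_inv, hD]; simp)
  let e : Place k K → ℕ := fun v => (v.ord g1).toNat + (v.ord g2).toNat
  have hfin : ∀ x : K, {v : Place k K | v.ord x ≠ 0}.Finite := by
    intro x
    obtain ⟨S, h1, -⟩ := hN.product_formula x
    refine S.finite_toSet.subset ?_
    intro v hv
    exact (h1 v).2 hv
  have hval : ∀ (v : Place k K) (x : K), v.val x ≤ 1 → D x ≠ 0 → -(e v : ℤ) ≤ v.ord (D x) := by
    intro v x hx hDx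
    rcases le_total (v.val t) 1 with h | h
    · refine ord_D_ge v D g1 hg10 (e v) ?_ x (val_D_le t ht D g1 hg1 v h x hx) hDx
      have := Int.self_le_toNat (v.ord g1)
      simp only [e]
      push_cast
      omega
    · have h' : v.val t⁻¹ ≤ 1 := by
        rw [map_inv₀]
        exact inv_le_one_of_one_le₀ h
      refine ord_D_ge v D g2 hg20 (e v) ?_ x
        (val_D_le t⁻¹ (transcendental_inv ht) D g2 hg2 v h' x hx) hDx
      have := Int.self_le_toNat (v.ord g2)
      simp only [e]
      push_cast
      omega
  let P : Pool.Agent.Helper33.PlaceSys p k K (Place k K) :=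
    { pl := fun v => ⟨v.ord, fun x y hx hy => v.ord_mul hx hy, fun x y hx hy hxy => by
        have h1 := v.val.map_add x y
        have hx0 : v.val x ≠ 0 := by simpa using hx
        have hy0 : v.val y ≠ 0 := by simpa using hy
        have hxy0 : v.val (x + y) ≠ 0 := by simpa using hxy
        simp only [Place.ord]
        rcases le_max_iff.1 h1 with h2 | h2
        · rw [← WithZero.log_le_log hxy0 hx0] at h2
          exact (min_le_left _ _).trans (by omega)
        · rw [← WithZero.log_le_log hxy0 hy0] at h2
          exact (min_le_right _ _).trans (by omega)⟩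
      ord_finite := fun x _ => hfin x
      sum_ord := by
        intro x hx
        obtain ⟨S, h1, h2⟩ := hN.product_formula x
        simp only [deg_eq_one hN, Nat.cast_one, mul_one] at h2
        rw [finsum_eq_sum_of_support_subset _ (s := S), h2]
        intro v hv
        exact (h1 v).2 hv
      D := D
      D_add := fun x y => map_add D x y
      D_mul := fun x y => by rw [Derivation.leibniz]; rfl
      D_eq_zero := fun x hx => exists_pow_of_deriv_eq_zero p t D hD x hx
      e := e
      e_finite := by
        refine ((hfin g1).union (hfin g2)).subset ?_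
        intro v hv
        by_contra hcon
        simp only [Set.mem_union, Set.mem_ofPred_eq, not_or, not_not] at hcon
        apply hv
        simp only [e]
        rw [hcon.1, hcon.2]
        simp
      ord_D := by
        intro v x hx hDx
        refine ord_D_ge_gen v D (e v) ?_ x hx hDx
        intro y hy
        by_cases hDy : D y = 0
        · rw [hDy, map_zero]; exact zero_le
        · rw [val_le_exp_iff v _ hDy]
          exact hval v y hy hDy
      ord_D' := by
        intro v x hx hDx h0
        refine hval v x ?_ hDx
        exact (v.ord_nonneg_iff hx).1 h0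
      const := fun x hx h => exists_const hN x hx h }
  have hPo : ∀ (v : Place k K) (x : K), (P.pl v).o x = v.ord x := fun _ _ => rfl
  refine ⟨Place k K, P, ?_, ?_⟩
  · intro x hx T
    have hx0 : x ≠ 0 := transcendental_ne_zero hx
    obtain ⟨Z, h1, h2, -⟩ := hN.zeros x⁻¹ (transcendental_inv hx)
    rw [finrank_inv] at h2
    simp only [deg_eq_one hN, Nat.cast_one, mul_one] at h2
    have hnn : ∀ v ∈ Z, 0 < -(v.ord x) := by
      intro v hv
      rw [h1, ← v.ord_pos_iff (inv_ne_zero hx0), v.ord_inv] at hv
      exact hv
    have h3 : (∑ v ∈ Z, (-(v.ord x : ℚ))) = (Module.finrank k⟮x⟯ K : ℚ) := by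
      have h4 : ∑ v ∈ Z, -(v.ord x) = (Module.finrank k⟮x⟯ K : ℤ) := by
        rw [← h2]
        refine Finset.sum_congr rfl fun v _ => ?_
        rw [v.ord_inv]
      exact_mod_cast h4
    rw [← h3]
    calc ∑ v ∈ T, max 0 (-((P.pl v).o x : ℚ))
        = ∑ v ∈ T, (if v ∈ Z then -(v.ord x : ℚ) else 0) := by
          refine Finset.sum_congr rfl fun v _ => ?_
          rw [hPo]
          split_ifs with h
          · have := hnn v h
            rw [max_eq_right]
            have h5 : (0 : ℚ) < ((-(v.ord x) : ℤ) : ℚ) := by exact_mod_cast this
            push_cast at h5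
            exact h5.le
          · rw [h1, ← v.ord_pos_iff (inv_ne_zero hx0), v.ord_inv, not_lt] at h
            rw [max_eq_left]
            have h5 : ((-(v.ord x) : ℤ) : ℚ) ≤ 0 := by exact_mod_cast h
            push_cast at h5
            exact h5
      _ = ∑ v ∈ T.filter (fun v => v ∈ Z), -(v.ord x : ℚ) := by rw [Finset.sum_filter]
      _ ≤ ∑ v ∈ Z, -(v.ord x : ℚ) := by
          refine Finset.sum_le_sum_of_subset_of_nonneg ?_ ?_
          · intro v hv
            exact (Finset.mem_filter.1 hv).2
          · intro v hv _
            have := hnn v hv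
            have h5 : (0 : ℚ) < ((-(v.ord x) : ℤ) : ℚ) := by exact_mod_cast this
            push_cast at h5
            exact h5.le
  · intro x hx v hx0
    rw [hPo, v.ord_eq_zero_iff hx0]
    exact v.val_eq_one_of_algebraic hx hx0

end Pool.Agent.Helper34.Add
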