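import Pool.Agent.Helper34.AddDV

/-!
# The index lemma
-/

set_option autoImplicit false
set_option linter.unusedSectionVars false
set_option linter.style.haveILetI false

namespace Pool.Agent.Helper34.Add

open Pool.Agent.Helper33 Finset Polynomial

section gauss

variable {K : Type*} [Field K] {v : DV K}

/-- Gauss norm bound: all coefficients satisfy `|c_n| e^{ns} ≤ e^t`. -/
def GLe (v : DV K) (s t : ℚ) (P : K[X]) : Prop := ∀ n : ℕ, Le v (t - n * s) (P.coeff n)

theorem GLe.mul {s t t' : ℚ} {P Q : K[X]} (hP : GLe v s t P) (hQ : GLe v s t' Q) :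
    GLe v s (t + t') (P * Q) := by
  intro n
  rw [coeff_mul]
  refine Le.sum _ _ fun ij hij => ?_
  have h := (hP ij.1).mul (hQ ij.2)
  refine h.mono (le_of_eq ?_)
  have : (ij.1 : ℚ) + ij.2 = n := by exact_mod_cast mem_antidiagonal.1 hij
  rw [← this]
  ring

theorem GLe.C {s t : ℚ} {c : K} (hc : Le v t c) : GLe v s t (C c) := by
  intro n
  rw [coeff_C]
  split_ifs with h
  · refine hc.mono ?_
    rw [h]; simp
  · exact Le.zero _

theorem GLe.X_sub_C {s m : ℚ} {y : K} (hs : s ≤ m) (hy : Le v m y) :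
    GLe v s m (X - Polynomial.C y) := by
  intro n
  rcases n with _ | _ | n
  · simp only [coeff_sub, coeff_X_zero, coeff_C_zero, zero_sub, Nat.cast_zero, zero_mul, sub_zero]
    exact hy.neg
  · simp only [zero_add, coeff_sub, coeff_X_one, coeff_C_succ, sub_zero, Nat.cast_one, one_mul]
    right
    rw [o_one]
    simp only [Int.cast_zero, neg_zero]
    linarith
  · rw [coeff_sub, coeff_X_of_ne_one (by omega), coeff_C_succ, sub_zero]
    exact Le.zero _

theorem GLe.prod {ι : Type*} [DecidableEq ι] (T : Finset ι) (P : ι → K[X]) {s : ℚ} (t : ι → ℚ)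
    (h : ∀ i ∈ T, GLe v s (t i) (P i)) : GLe v s (∑ i ∈ T, t i) (∏ i ∈ T, P i) := by
  induction T using Finset.induction_on with
  | empty =>
    simp only [Finset.sum_empty, Finset.prod_empty]
    rw [← Polynomial.C_1]
    apply GLe.C
    right
    simp [o_one]
  | insert a T ha ih =>
    rw [Finset.sum_insert ha, Finset.prod_insert ha]
    exact (h a (Finset.mem_insert_self _ _)).mul (ih fun i hi => h i (Finset.mem_insert_of_mem hi))

end gauss

section interp

variable (p : ℕ) [Fact p.Prime] {K : Type*} [Field K] [CharP K p] [Algebra (ZMod p) K]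

/-- The additive polynomial as a polynomial. -/
noncomputable def addPoly (r : ℕ) (a : ℕ → K) : K[X] := ∑ i ∈ range (r + 1), C (a i) * X ^ p ^ i

theorem addPoly_eval (r : ℕ) (a : ℕ → K) (x : K) : (addPoly p r a).eval x = addMap p r a x := by
  simp [addPoly, addMap_apply, eval_finsetSum]

theorem addPoly_natDegree_le (r : ℕ) (a : ℕ → K) : (addPoly p r a).natDegree ≤ p ^ r := by
  refine natDegree_sum_le_of_forall_le _ _ fun i hi => ?_
  refine (natDegree_C_mul_X_pow_le _ _).trans ?_
  exact Nat.pow_le_pow_right (Fact.out : p.Prime).pos (by rw [mem_range] at hi; omega)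

theorem addPoly_coeff (r : ℕ) (a : ℕ → K) (i : ℕ) (hi : i ≤ r) :
    (addPoly p r a).coeff (p ^ i) = a i := by
  rw [addPoly, finsetSum_coeff, Finset.sum_eq_single i]
  · simp
  · intro j _ hji
    rw [coeff_C_mul_X_pow, if_neg]
    intro h
    exact hji (Nat.pow_right_injective (Fact.out : p.Prime).two_le h).symm
  · intro h
    exact absurd (mem_range.2 (by omega)) h

theorem natCard_submodule (Z : Submodule (ZMod p) K) [FiniteDimensional (ZMod p) Z] :
    Nat.card Z = p ^ Module.finrank (ZMod p) Z := by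
  rw [Module.natCard_eq_pow_finrank (K := ZMod p), Nat.card_zmod]

theorem interp (v : DV K) (r : ℕ) (a : ℕ → K) (i : ℕ) (hi : i ≤ r) (hai : a i ≠ 0) (s t : ℚ)
    (ht : t ≤ -(v.o (a i) : ℚ) + p ^ i * s) (Z : Submodule (ZMod p) K)
    [FiniteDimensional (ZMod p) Z] (hZ : Module.finrank (ZMod p) Z = r + 1)
    (hs : ∀ z ∈ Z, z ≠ 0 → s < -(v.o z : ℚ))
    (hf : ∀ z ∈ Z, Le v t (addMap p r a z)) : False := by
  classical
  haveI : Finite Z := Module.finite_of_finite (ZMod p)
  have hfin : (Z : Set K).Finite := Set.toFinite _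
  set T : Finset K := hfin.toFinset with hT
  have memT : ∀ x, x ∈ T ↔ x ∈ Z := fun x => by simp [hT]
  have hcard : #T = p ^ (r + 1) := by
    rw [← hZ, ← natCard_submodule p Z, ← Set.ncard_eq_toFinset_card (Z : Set K) hfin]
    rfl
  have hp1 : 1 < p := (Fact.out : p.Prime).one_lt
  have hdeg : (addPoly p r a).degree < #T := by
    refine lt_of_le_of_lt degree_le_natDegree ?_
    rw [hcard]
    have h1 : p ^ r < p ^ (r + 1) := Nat.pow_lt_pow_right hp1 (by omega)
    exact_mod_cast (addPoly_natDegree_le p r a).trans_lt h1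
  have hinj : Set.InjOn (id : K → K) T := Set.injOn_id _
  have hint := Lagrange.eq_interpolate hinj hdeg
  -- the size function
  let m : K → ℚ := fun y => if y = 0 then s else -(v.o y : ℚ)
  have hm : ∀ y ∈ T, s ≤ m y ∧ Le v (m y) y := by
    intro y hy
    by_cases h : y = 0
    · simp only [m, h, if_true]
      exact ⟨le_rfl, Le.zero _⟩
    · simp only [m, h, if_false]
      exact ⟨(hs y ((memT y).1 hy) h).le, Le.self y⟩
  -- bound for the basis
  have hbasis : ∀ z ∈ T, z ≠ 0 → GLe v s (s + v.o z) (Lagrange.basis T id z) := by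
    intro z hz hz0
    rw [Lagrange.basis]
    have h1 : GLe v s (∑ y ∈ T.erase z, ((v.o (z - y) : ℚ) + m y))
        (∏ y ∈ T.erase z, Lagrange.basisDivisor (id z) (id y)) := by
      refine GLe.prod _ _ (fun y => ((v.o (z - y) : ℚ) + m y)) ?_
      intro y hy
      rw [Finset.mem_erase] at hy
      have hzy : z - y ≠ 0 := sub_ne_zero.2 (Ne.symm hy.1)
      rw [Lagrange.basisDivisor]
      refine GLe.mul (GLe.C ?_) (GLe.X_sub_C (hm y hy.2).1 (hm y hy.2).2)
      right
      simp only [id_eq]
      rw [o_inv v _ hzy]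
      push_cast
      linarith
    have h2 : ∑ y ∈ T.erase z, ((v.o (z - y) : ℚ) + m y) = s + v.o z := by
      rw [Finset.sum_add_distrib]
      have h3 : ∑ y ∈ T.erase z, (v.o (z - y) : ℚ) = ∑ w ∈ T.erase 0, (v.o w : ℚ) := by
        refine Finset.sum_nbij' (fun y => z - y) (fun y => z - y) ?_ ?_ ?_ ?_ ?_
        · intro y hy
          rw [Finset.mem_erase] at hy ⊢
          refine ⟨sub_ne_zero.2 (Ne.symm hy.1), (memT _).2 (Z.sub_mem ((memT _).1 hz) ((memT _).1 hy.2))⟩
        · intro y hy
          rw [Finset.mem_erase] at hy ⊢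
          refine ⟨?_, (memT _).2 (Z.sub_mem ((memT _).1 hz) ((memT _).1 hy.2))⟩
          intro h
          apply hy.1
          linear_combination -h
        · intro y _; simp
        · intro y _; simp
        · intro y _; rfl
      have h0T : (0 : K) ∈ T := (memT 0).2 Z.zero_mem
      have h4 : ∑ y ∈ T, m y = m 0 + ∑ y ∈ T.erase 0, m y := (Finset.add_sum_erase T m h0T).symm
      have h5 : ∑ y ∈ T, m y = m z + ∑ y ∈ T.erase z, m y := (Finset.add_sum_erase T m hz).symm
      have h6 : ∑ y ∈ T.erase 0, m y = ∑ w ∈ T.erase 0, -(v.o w : ℚ) := by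
        refine Finset.sum_congr rfl fun y hy => ?_
        rw [Finset.mem_erase] at hy
        simp only [m, hy.1, if_false]
      rw [Finset.sum_neg_distrib] at h6
      have h7 : m 0 = s := by simp [m]
      have h8 : m z = -(v.o z : ℚ) := by simp [m, hz0]
      rw [h3]
      linarith
    rw [← h2]
    exact h1
  -- coefficient comparison
  have hcoef : Lt v (t - p ^ i * s) ((addPoly p r a).coeff (p ^ i)) := by
    rw [hint, Lagrange.interpolate_apply, finsetSum_coeff]
    refine Lt.sum _ _ fun z hz => ?_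
    by_cases hz0 : z = 0
    · left
      rw [coeff_C_mul]
      simp [hz0, addPoly_eval]
    · rw [coeff_C_mul]
      have h1 := hbasis z hz hz0 (p ^ i)
      have h2 : Le v t (eval (id z) (addPoly p r a)) := by
        simp only [id_eq]
        rw [addPoly_eval]
        exact hf z ((memT z).1 hz)
      have h3 := h2.mul h1
      refine h3.lt_of_lt ?_
      have h4 := hs z ((memT z).1 hz) hz0
      push_cast
      linarith
  rw [addPoly_coeff p r a i hi] at hcoef
  have := hcoef.of_ne hai
  linarith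

end interp

section index

variable (p : ℕ) [Fact p.Prime] {K : Type*} [Field K] [CharP K p] [Algebra (ZMod p) K]

/-- codimension of the disc in `W` -/
noncomputable def jd (v : DV K) (W : Submodule (ZMod p) K) (s : ℚ) : ℕ :=
  Module.finrank (ZMod p) (W.map (DS p v s).mkQ)

theorem exists_sub_finrank {V : Type*} [AddCommGroup V] [Module (ZMod p) V]
    (U : Submodule (ZMod p) V) [FiniteDimensional (ZMod p) U] (n : ℕ)
    (hn : n ≤ Module.finrank (ZMod p) U) :
    ∃ Z : Submodule (ZMod p) V, Z ≤ U ∧ FiniteDimensional (ZMod p) Z ∧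
      Module.finrank (ZMod p) Z = n := by
  obtain ⟨f, hf⟩ := exists_linearIndependent_of_le_finrank (R := ZMod p) (M := U) hn
  have hf' : LinearIndependent (ZMod p) (fun i => (f i : V)) :=
    hf.map' U.subtype (Submodule.ker_subtype U)
  refine ⟨Submodule.span (ZMod p) (Set.range fun i => (f i : V)), ?_, ?_, ?_⟩
  · rw [Submodule.span_le]
    rintro _ ⟨i, rfl⟩
    exact (f i).2
  · exact FiniteDimensional.span_of_finite _ (Set.finite_range _)
  · rw [finrank_span_eq_card hf', Fintype.card_fin]

theorem jd_step (v : DV K) (r : ℕ) (a : ℕ → K) (i : ℕ) (hi : i ≤ r) (hai : a i ≠ 0) (s t : ℚ)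
    (ht : t ≤ -(v.o (a i) : ℚ) + p ^ i * s) (W : Submodule (ZMod p) K)
    [FiniteDimensional (ZMod p) W] (hW : ∀ w ∈ W, addMap p r a w ∈ W) :
    jd p v W s ≤ jd p v W t + r := by
  classical
  let q : W →ₗ[ZMod p] (K ⧸ DS p v s) := (DS p v s).mkQ.domRestrict W
  have hqr : LinearMap.range q = W.map (DS p v s).mkQ := by
    ext x; constructor
    · rintro ⟨y, rfl⟩; exact ⟨y, y.2, rfl⟩
    · rintro ⟨y, hy, rfl⟩; exact ⟨⟨y, hy⟩, rfl⟩
  obtain ⟨C, hC⟩ := Submodule.exists_isCompl (LinearMap.ker q)
  have hdimC : Module.finrank (ZMod p) C = jd p v W s := by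
    have h1 := LinearMap.finrank_range_add_finrank_ker q
    have h2 := Submodule.finrank_add_eq_of_isCompl hC
    rw [hqr] at h1
    unfold jd
    omega
  let φ : C →ₗ[ZMod p] (K ⧸ DS p v t) :=
    (DS p v t).mkQ ∘ₗ (addMap p r a) ∘ₗ W.subtype ∘ₗ C.subtype
  have h1 := LinearMap.finrank_range_add_finrank_ker φ
  have hrange : Module.finrank (ZMod p) (LinearMap.range φ) ≤ jd p v W t := by
    unfold jd
    refine Submodule.finrank_mono ?_
    rintro _ ⟨y, rfl⟩
    exact ⟨addMap p r a ((y : W) : K), hW _ (y : W).2, rfl⟩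
  have hker : Module.finrank (ZMod p) (LinearMap.ker φ) ≤ r := by
    by_contra hcon
    push Not at hcon
    obtain ⟨Z₀, hZ₀, hfin, hdim⟩ := exists_sub_finrank p (LinearMap.ker φ) (r + 1) hcon
    haveI := hfin
    let ι : C →ₗ[ZMod p] K := W.subtype ∘ₗ C.subtype
    have hι : Function.Injective ι := by
      intro x y hxy
      exact Subtype.ext (Subtype.ext hxy)
    let Z : Submodule (ZMod p) K := Z₀.map ι
    have hZdim : Module.finrank (ZMod p) Z = r + 1 := by
      rw [← hdim]
      exact (Submodule.equivMapOfInjective ι hι Z₀).finrank_eq.symm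
    refine interp p v r a i hi hai s t ht Z hZdim ?_ ?_
    · rintro _ ⟨y, hy, rfl⟩ hy0
      by_contra hle
      push Not at hle
      have hmem : (y : W) ∈ LinearMap.ker q := by
        rw [LinearMap.mem_ker]
        change (DS p v s).mkQ ((y : W) : K) = 0
        rw [Submodule.mkQ_apply, Submodule.Quotient.mk_eq_zero, mem_DS]
        exact Or.inr hle
      have h0 : (y : W) = 0 := by
        have := hC.disjoint
        rw [Submodule.disjoint_def] at this
        exact this _ hmem y.2
      apply hy0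
      change ((y : W) : K) = 0
      rw [h0]; rfl
    · rintro _ ⟨y, hy, rfl⟩
      have h2 : φ y = 0 := hZ₀ hy
      change (DS p v t).mkQ (addMap p r a ((y : W) : K)) = 0 at h2
      rw [Submodule.mkQ_apply, Submodule.Quotient.mk_eq_zero, mem_DS] at h2
      exact h2
  rw [← hdimC]
  omega

/-- if `W` is contained in the disc then the codimension vanishes -/
theorem jd_eq_zero (v : DV K) (W : Submodule (ZMod p) K) (s : ℚ) (h : ∀ w ∈ W, Le v s w) :
    jd p v W s = 0 := by
  unfold jd
  have : W.map (DS p v s).mkQ = ⊥ := by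
    rw [Submodule.eq_bot_iff]
    rintro _ ⟨y, hy, rfl⟩
    rw [Submodule.mkQ_apply, Submodule.Quotient.mk_eq_zero]
    exact h y hy
  rw [this, finrank_bot]

/-- a large subspace contains a nonzero small element -/
theorem exists_small (v : DV K) (W : Submodule (ZMod p) K) [FiniteDimensional (ZMod p) W] (s : ℚ)
    (Z : Submodule (ZMod p) K) (hZ : Z ≤ W) (h : jd p v W s < Module.finrank (ZMod p) Z) :
    ∃ z ∈ Z, z ≠ 0 ∧ Le v s z := by
  haveI : FiniteDimensional (ZMod p) Z := Submodule.finiteDimensional_of_le hZ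
  let φ : Z →ₗ[ZMod p] (W.map (DS p v s).mkQ) :=
    ((DS p v s).mkQ.domRestrict Z).codRestrict _ (fun z => ⟨z, hZ z.2, rfl⟩)
  have h1 : LinearMap.ker φ ≠ ⊥ := LinearMap.ker_ne_bot_of_finrank_lt h
  obtain ⟨z, hz, hz0⟩ := Submodule.exists_mem_ne_zero_of_ne_bot h1
  refine ⟨z, z.2, fun h => hz0 (Subtype.ext h), ?_⟩
  rw [LinearMap.mem_ker] at hz
  have h2 : (DS p v s).mkQ (z : K) = 0 := congrArg Subtype.val hz
  rw [Submodule.mkQ_apply, Submodule.Quotient.mk_eq_zero, mem_DS] at h2
  exact h2

theorem finrank_inf_DS (v : DV K) (W : Submodule (ZMod p) K) [FiniteDimensional (ZMod p) W] (s : ℚ)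
    (Z : Submodule (ZMod p) K) (hZ : Z ≤ W) :
    Module.finrank (ZMod p) Z ≤
      Module.finrank (ZMod p) (Z ⊓ DS p v s : Submodule (ZMod p) K) + jd p v W s := by
  haveI : FiniteDimensional (ZMod p) Z := Submodule.finiteDimensional_of_le hZ
  let q : Z →ₗ[ZMod p] (K ⧸ DS p v s) := (DS p v s).mkQ.domRestrict Z
  have h1 := LinearMap.finrank_range_add_finrank_ker q
  have hrange : Module.finrank (ZMod p) (LinearMap.range q) ≤ jd p v W s := by
    unfold jd
    refine Submodule.finrank_mono ?_
    rintro _ ⟨y, rfl⟩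
    exact ⟨y, hZ y.2, rfl⟩
  have hker : Module.finrank (ZMod p) (LinearMap.ker q) ≤
      Module.finrank (ZMod p) (Z ⊓ DS p v s : Submodule (ZMod p) K) := by
    have h2 : (LinearMap.ker q).map Z.subtype ≤ Z ⊓ DS p v s := by
      rintro _ ⟨y, hy, rfl⟩
      refine ⟨y.2, ?_⟩
      change q y = 0 at hy
      change (DS p v s).mkQ (y : K) = 0 at hy
      rw [Submodule.mkQ_apply, Submodule.Quotient.mk_eq_zero] at hy
      exact hy
    have h3 := (Submodule.equivMapOfInjective Z.subtype Z.injective_subtype (LinearMap.ker q)).finrank_eq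
    rw [h3]
    haveI : FiniteDimensional (ZMod p) (Z ⊓ DS p v s : Submodule (ZMod p) K) :=
      Submodule.finiteDimensional_of_le inf_le_left
    exact Submodule.finrank_mono h2
  omega

/-- simultaneous version -/
theorem exists_small_all {V : Type*} (pl : V → DV K) (W : Submodule (ZMod p) K)
    [FiniteDimensional (ZMod p) W] (T : Finset V) (s : V → ℚ)
    (h : ∑ v ∈ T, jd p (pl v) W (s v) < Module.finrank (ZMod p) W) :
    ∃ z ∈ W, z ≠ 0 ∧ ∀ v ∈ T, Le (pl v) (s v) z := by
  classical
  have key : ∀ T : Finset V, ∃ Z : Submodule (ZMod p) K, Z ≤ W ∧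
      (∀ z ∈ Z, ∀ v ∈ T, Le (pl v) (s v) z) ∧
      Module.finrank (ZMod p) W ≤ Module.finrank (ZMod p) Z + ∑ v ∈ T, jd p (pl v) W (s v) := by
    intro T
    induction T using Finset.induction_on with
    | empty => exact ⟨W, le_rfl, by simp, by simp⟩
    | insert v T hv ih =>
      obtain ⟨Z, hZ, h1, h2⟩ := ih
      refine ⟨Z ⊓ DS p (pl v) (s v), inf_le_left.trans hZ, ?_, ?_⟩
      · intro z hz u hu
        rw [Finset.mem_insert] at hu
        rcases hu with rfl | hu
        · exact hz.2
        · exact h1 z hz.1 u hu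
      · rw [Finset.sum_insert hv]
        have := finrank_inf_DS p (pl v) W (s v) Z hZ
        omega
  obtain ⟨Z, hZ, h1, h2⟩ := key T
  have h3 : Z ≠ ⊥ := by
    rintro rfl
    rw [finrank_bot] at h2
    omega
  obtain ⟨z, hz, hz0⟩ := Submodule.exists_mem_ne_zero_of_ne_bot h3
  exact ⟨z, hZ hz, hz0, h1 z hz⟩

end index

end Pool.Agent.Helper34.Add
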