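import Pool.Agent.Helper34.AddIdx

/-!
# Local analysis of additive polynomials
-/

set_option autoImplicit false
set_option linter.unusedSectionVars false
set_option linter.style.haveILetI false

namespace Pool.Agent.Helper34.Add

open Pool.Agent.Helper33 Finset Polynomial

section invariants

variable (p : ℕ) [hp : Fact p.Prime] {K : Type*} [Field K]

/-- `log γ` -/
noncomputable def gv (r : ℕ) (a : ℕ → K) (v : DV K) : ℚ := (v.o (a r) : ℚ) / (p ^ r - 1)

open Classical in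
/-- the indices of nonzero nonlinear coefficients -/
noncomputable def idx (r : ℕ) (a : ℕ → K) : Finset ℕ := (Finset.Icc 1 r).filter fun i => a i ≠ 0

open Classical in
/-- the radius `s_0` -/
noncomputable def s0 (r : ℕ) (a : ℕ → K) (v : DV K) : ℚ :=
  if h : (idx r a).Nonempty then (idx r a).inf' h (fun i => (v.o (a i) : ℚ) / (p ^ i - 1)) else 0

open Classical in
/-- the size of the linear coefficient -/
noncomputable def al (a : ℕ → K) (v : DV K) : ℚ := if a 0 = 0 then 0 else max 0 (-(v.o (a 0) : ℚ))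

/-- the local complexity -/
noncomputable def eta (r : ℕ) (a : ℕ → K) (v : DV K) : ℚ := gv p r a v - s0 p r a v

theorem mem_idx (r : ℕ) (a : ℕ → K) (i : ℕ) : i ∈ idx r a ↔ (1 ≤ i ∧ i ≤ r) ∧ a i ≠ 0 := by
  simp [idx]

include hp in
theorem one_lt_p : (1 : ℚ) < p := by exact_mod_cast (Fact.out : p.Prime).one_lt

include hp in
theorem two_le_p : (2 : ℚ) ≤ p := by exact_mod_cast (Fact.out : p.Prime).two_le

include hp in
theorem one_le_pow_sub (i : ℕ) (hi : 1 ≤ i) : (1 : ℚ) ≤ (p : ℚ) ^ i - 1 := by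
  have h1 : (2 : ℚ) ≤ (p : ℚ) ^ i := by
    calc (2 : ℚ) ≤ p := two_le_p p
      _ = (p : ℚ) ^ 1 := (pow_one _).symm
      _ ≤ (p : ℚ) ^ i := pow_le_pow_right₀ (one_lt_p p).le hi
  linarith

theorem idx_nonempty (r : ℕ) (hr : 1 ≤ r) (a : ℕ → K) (har : a r ≠ 0) : (idx r a).Nonempty :=
  ⟨r, (mem_idx r a r).2 ⟨⟨hr, le_rfl⟩, har⟩⟩

theorem s0_le (r : ℕ) (a : ℕ → K) (v : DV K) (i : ℕ) (hi1 : 1 ≤ i) (hi : i ≤ r) (hai : a i ≠ 0) :
    (p ^ i - 1) * s0 p r a v ≤ v.o (a i) := by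
  have hmem : i ∈ idx r a := (mem_idx r a i).2 ⟨⟨hi1, hi⟩, hai⟩
  have h1 : s0 p r a v ≤ (v.o (a i) : ℚ) / (p ^ i - 1) := by
    unfold s0
    rw [dif_pos ⟨i, hmem⟩]
    exact Finset.inf'_le (fun i => (v.o (a i) : ℚ) / (p ^ i - 1)) hmem
  have h2 := one_le_pow_sub p i hi1
  rw [le_div_iff₀ (by linarith)] at h1
  linarith

theorem exists_s0_eq (r : ℕ) (hr : 1 ≤ r) (a : ℕ → K) (har : a r ≠ 0) (v : DV K) :
    ∃ i, 1 ≤ i ∧ i ≤ r ∧ a i ≠ 0 ∧ (p ^ i - 1) * s0 p r a v = v.o (a i) := by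
  have hne := idx_nonempty r hr a har
  obtain ⟨i, hi, h⟩ := Finset.exists_mem_eq_inf' hne (fun i => (v.o (a i) : ℚ) / (p ^ i - 1))
  rw [mem_idx] at hi
  refine ⟨i, hi.1.1, hi.1.2, hi.2, ?_⟩
  have h2 := one_le_pow_sub p i hi.1.1
  have h3 : s0 p r a v = (v.o (a i) : ℚ) / (p ^ i - 1) := by
    unfold s0
    rw [dif_pos hne, h]
  rw [h3, mul_div_cancel₀]
  linarith

theorem gv_mul (r : ℕ) (hr : 1 ≤ r) (a : ℕ → K) (v : DV K) :
    (p ^ r - 1) * gv p r a v = v.o (a r) := by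
  have h2 := one_le_pow_sub p r hr
  unfold gv
  rw [mul_div_cancel₀]
  linarith

theorem eta_nonneg (r : ℕ) (hr : 1 ≤ r) (a : ℕ → K) (har : a r ≠ 0) (v : DV K) :
    0 ≤ eta p r a v := by
  have h1 := s0_le p r a v r hr le_rfl har
  rw [← gv_mul p r hr a v] at h1
  have h2 := one_le_pow_sub p r hr
  have h3 := le_of_mul_le_mul_left h1 (by linarith)
  unfold eta
  linarith

theorem al_nonneg (a : ℕ → K) (v : DV K) : 0 ≤ al a v := by
  unfold al
  split_ifs
  · exact le_rfl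
  · exact le_max_left _ _

theorem le_al (a : ℕ → K) (v : DV K) (h : a 0 ≠ 0) : -(v.o (a 0) : ℚ) ≤ al a v := by
  unfold al
  rw [if_neg h]
  exact le_max_right _ _

/-- positive complexity is bounded below -/
theorem eta_lower (r : ℕ) (hr : 1 ≤ r) (a : ℕ → K) (har : a r ≠ 0) (v : DV K)
    (h : 0 < eta p r a v) : 1 ≤ (p : ℚ) ^ (2 * r) * eta p r a v := by
  obtain ⟨i, hi1, hir, hai, hi⟩ := exists_s0_eq p r hr a har v
  have hg := gv_mul p r hr a v
  have h1 : ((p : ℚ) ^ r - 1) * (p ^ i - 1) * eta p r a v =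
      (p ^ i - 1) * v.o (a r) - (p ^ r - 1) * v.o (a i) := by
    rw [← hi, ← hg]
    unfold eta
    ring
  have hi2 := one_le_pow_sub p i hi1
  have hr2 := one_le_pow_sub p r hr
  have hpos : 0 < ((p : ℚ) ^ i - 1) * v.o (a r) - (p ^ r - 1) * v.o (a i) := by
    rw [← h1]
    have : 0 < ((p : ℚ) ^ r - 1) * (p ^ i - 1) := by nlinarith
    exact mul_pos this h
  have hint : (1 : ℚ) ≤ ((p : ℚ) ^ i - 1) * v.o (a r) - (p ^ r - 1) * v.o (a i) := by
    have h2 : (0 : ℤ) < ((p : ℤ) ^ i - 1) * v.o (a r) - (p ^ r - 1) * v.o (a i) := by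
      exact_mod_cast hpos
    have h3 : (1 : ℤ) ≤ ((p : ℤ) ^ i - 1) * v.o (a r) - (p ^ r - 1) * v.o (a i) := h2
    exact_mod_cast h3
  rw [← h1] at hint
  refine hint.trans ?_
  refine mul_le_mul_of_nonneg_right ?_ h.le
  have h4 : (p : ℚ) ^ i ≤ (p : ℚ) ^ r := pow_le_pow_right₀ (one_lt_p p).le hir
  have h5 : (p : ℚ) ^ (2 * r) = (p : ℚ) ^ r * (p : ℚ) ^ r := by rw [two_mul, pow_add]
  rw [h5]
  have h6 : (1 : ℚ) ≤ (p : ℚ) ^ r := by linarith
  nlinarith

end invariants

section dynamics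

variable (p : ℕ) [hp : Fact p.Prime] {K : Type*} [Field K] [CharP K p] [Algebra (ZMod p) K]

/-- growth outside the disc of radius `g + η + α` -/
theorem growth (r : ℕ) (hr : 1 ≤ r) (a : ℕ → K) (har : a r ≠ 0) (v : DV K) (x : K) (hx : x ≠ 0)
    (hbig : gv p r a v + eta p r a v + al a v < -(v.o x : ℚ)) :
    addMap p r a x ≠ 0 ∧ -(v.o x : ℚ) < -(v.o (addMap p r a x) : ℚ) := by
  set s : ℚ := -(v.o x : ℚ) with hs
  have hη := eta_nonneg p r hr a har v
  have hα := al_nonneg a v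
  have hg := gv_mul p r hr a v
  have hr2 := one_le_pow_sub p r hr
  have hlead : a r * x ^ p ^ r ≠ 0 := mul_ne_zero har (pow_ne_zero _ hx)
  have holead : -(v.o (a r * x ^ p ^ r) : ℚ) = -(p ^ r - 1) * gv p r a v + p ^ r * s := by
    rw [v.mul _ _ har (pow_ne_zero _ hx), o_pow v x hx, hs]
    push_cast
    rw [← hg]
    ring
  have hrest : Lt v (-(v.o (a r * x ^ p ^ r) : ℚ)) (∑ i ∈ range r, a i * x ^ p ^ i) := by
    refine Lt.sum _ _ fun i hi => ?_
    rw [mem_range] at hi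
    by_cases hai : a i = 0
    · left; rw [hai, zero_mul]
    right
    rw [holead, v.mul _ _ hai (pow_ne_zero _ hx), o_pow v x hx]
    push_cast
    rcases Nat.eq_zero_or_pos i with h0 | h1
    · subst h0
      have := le_al a v hai
      rw [pow_zero, one_mul]
      have h3 : 0 ≤ ((p : ℚ) ^ r - 2) * (s - gv p r a v) := by
        apply mul_nonneg <;> linarith
      linarith
    · have h4 := s0_le p r a v i h1 hi.le hai
      have h5 : (p : ℚ) * p ^ i ≤ p ^ r := by
        rw [← pow_succ']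
        exact pow_le_pow_right₀ (one_lt_p p).le hi
      have h6 := one_le_pow_sub p i h1
      have h7 : (2 : ℚ) * p ^ i ≤ p ^ r := by
        refine le_trans ?_ h5
        exact mul_le_mul_of_nonneg_right (two_le_p p) (by linarith)
      have h8 : s0 p r a v = gv p r a v - eta p r a v := by unfold eta; ring
      rw [h8] at h4
      have h9 : 0 < ((p : ℚ) ^ r - p ^ i) * (s - gv p r a v - eta p r a v) := by
        apply mul_pos <;> linarith
      have h10 : 0 ≤ ((p : ℚ) ^ r - 2 * p ^ i + 1) * eta p r a v := by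
        apply mul_nonneg <;> linarith
      linarith
  have h := add_dom hlead hrest
  have heq : addMap p r a x = a r * x ^ p ^ r + ∑ i ∈ range r, a i * x ^ p ^ i := by
    rw [addMap_apply, Finset.sum_range_succ, add_comm]
  rw [heq]
  refine ⟨h.1, ?_⟩
  rw [h.2, holead]
  have h3 : 0 < ((p : ℚ) ^ r - 1) * (s - gv p r a v) := by
    apply mul_pos <;> linarith
  linarith

/-- elements of a finite stable subspace are bounded -/
theorem W_bound (r : ℕ) (hr : 1 ≤ r) (a : ℕ → K) (har : a r ≠ 0) (v : DV K)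
    (W : Submodule (ZMod p) K) [FiniteDimensional (ZMod p) W] (hW : ∀ w ∈ W, addMap p r a w ∈ W)
    (x : K) (hx : x ∈ W) : Le v (gv p r a v + eta p r a v + al a v) x := by
  classical
  by_contra hcon
  have hx0 : x ≠ 0 := by
    rintro rfl
    exact hcon (Le.zero _)
  haveI : Finite W := Module.finite_of_finite (ZMod p)
  have hfin : (W : Set K).Finite := Set.toFinite _
  have hne : (hfin.toFinset.filter fun y => y ≠ 0).Nonempty :=
    ⟨x, by simp [hx, hx0]⟩
  obtain ⟨y, hy, hmax⟩ := Finset.exists_max_image _ (fun y => -(v.o y : ℚ)) hne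
  have hyW : y ∈ W ∧ y ≠ 0 := by simpa using hy
  have hbig : gv p r a v + eta p r a v + al a v < -(v.o y : ℚ) := by
    have h1 := hmax x (by simp [hx, hx0])
    have h2 : ¬ (-(v.o x : ℚ) ≤ gv p r a v + eta p r a v + al a v) := fun h => hcon (Or.inr h)
    push Not at h2
    exact h2.trans_le h1
  have h3 := growth p r hr a har v y hyW.2 hbig
  have h4 := hmax (addMap p r a y) (by simp [hW y hyW.1, h3.1])
  exact absurd h3.2 (not_lt.2 h4)

/-- stability of small discs -/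
theorem addMap_le (r : ℕ) (a : ℕ → K) (v : DV K) (hα : al a v = 0) (s : ℚ)
    (hs : s ≤ s0 p r a v) (x : K) (hx : Le v s x) : Le v s (addMap p r a x) := by
  rw [addMap_apply]
  refine Le.sum _ _ fun i hi => ?_
  by_cases hai : a i = 0
  · left; rw [hai, zero_mul]
  rw [mem_range] at hi
  have h1 : Le v (-(v.o (a i) : ℚ) + (p ^ i : ℕ) * s) (a i * x ^ p ^ i) := (Le.self _).mul (hx.pow _)
  refine h1.mono ?_
  rcases Nat.eq_zero_or_pos i with h0 | hi1
  · subst h0
    have := le_al a v hai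
    rw [hα] at this
    simp only [pow_zero, Nat.cast_one, one_mul]
    linarith
  · have h4 := s0_le p r a v i hi1 (by omega) hai
    have h6 := one_le_pow_sub p i hi1
    have h7 : 0 ≤ ((p : ℚ) ^ i - 1) * (s0 p r a v - s) := by
      apply mul_nonneg <;> linarith
    push_cast
    linarith

/-- linear approximation on small discs -/
theorem addMap_approx (r : ℕ) (a : ℕ → K) (v : DV K) (s : ℚ)
    (hs : s < s0 p r a v) (x : K) (hx : Le v s x) : Lt v s (addMap p r a x - a 0 * x) := by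
  have heq : addMap p r a x - a 0 * x = ∑ i ∈ range r, a (i + 1) * x ^ p ^ (i + 1) := by
    rw [addMap_apply, Finset.sum_range_succ', pow_zero, pow_one]
    ring
  rw [heq]
  refine Lt.sum _ _ fun i hi => ?_
  by_cases hai : a (i + 1) = 0
  · left; rw [hai, zero_mul]
  rw [mem_range] at hi
  have h1 : Le v (-(v.o (a (i + 1)) : ℚ) + (p ^ (i + 1) : ℕ) * s) (a (i + 1) * x ^ p ^ (i + 1)) :=
    (Le.self _).mul (hx.pow _)
  refine h1.lt_of_lt ?_
  have h4 := s0_le p r a v (i + 1) (by omega) (by omega) hai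
  have h6 := one_le_pow_sub p (i + 1) (by omega)
  have h7 : 0 < ((p : ℚ) ^ (i + 1) - 1) * (s0 p r a v - s) := by
    apply mul_pos <;> linarith
  push_cast at h4 ⊢
  linarith

/-- the codimension bound: doubling -/
theorem jd_double (r : ℕ) (hr : 1 ≤ r) (a : ℕ → K) (har : a r ≠ 0) (v : DV K)
    (W : Submodule (ZMod p) K) [FiniteDimensional (ZMod p) W] (hW : ∀ w ∈ W, addMap p r a w ∈ W)
    (u : ℚ) (hu : 0 ≤ u) : jd p v W (s0 p r a v + u) ≤ jd p v W (s0 p r a v + 2 * u) + r := by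
  obtain ⟨i, hi1, hir, hai, hi⟩ := exists_s0_eq p r hr a har v
  refine jd_step p v r a i hir hai _ _ ?_ W hW
  have h6 := one_le_pow_sub p i hi1
  have h7 : 0 ≤ ((p : ℚ) ^ i - 2) * u := by
    apply mul_nonneg <;> linarith
  rw [← hi]
  linarith

theorem jd_iter (r : ℕ) (hr : 1 ≤ r) (a : ℕ → K) (har : a r ≠ 0) (v : DV K)
    (W : Submodule (ZMod p) K) [FiniteDimensional (ZMod p) W] (hW : ∀ w ∈ W, addMap p r a w ∈ W)
    (n : ℕ) : jd p v W (s0 p r a v + (2 * eta p r a v + al a v) / 2 ^ n) ≤ r * n := by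
  induction n with
  | zero =>
    rw [jd_eq_zero]
    · simp
    · intro w hw
      refine (W_bound p r hr a har v W hW w hw).mono ?_
      unfold eta
      rw [pow_zero, div_one]
      linarith
  | succ n ih =>
    have hη := eta_nonneg p r hr a har v
    have hα := al_nonneg a v
    have h1 := jd_double p r hr a har v W hW ((2 * eta p r a v + al a v) / 2 ^ (n + 1))
      (by positivity)
    have h2 : 2 * ((2 * eta p r a v + al a v) / 2 ^ (n + 1)) = (2 * eta p r a v + al a v) / 2 ^ n := by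
      rw [pow_succ]
      field_simp
    rw [h2] at h1
    calc _ ≤ _ := h1
      _ ≤ r * n + r := by omega
      _ = r * (n + 1) := by ring

/-- at a pole of `a_0` one can go below `s_0` -/
theorem jd_pole (r : ℕ) (a : ℕ → K) (ha0 : a 0 ≠ 0) (v : DV K)
    (W : Submodule (ZMod p) K) [FiniteDimensional (ZMod p) W] (hW : ∀ w ∈ W, addMap p r a w ∈ W)
    (s : ℚ) : jd p v W (s + (v.o (a 0) : ℚ)) ≤ jd p v W s + r := by
  refine jd_step p v r a 0 (Nat.zero_le _) ha0 _ _ ?_ W hW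
  rw [pow_zero]
  linarith

/-- discreteness: slightly above `s_0` is the same as `s_0` -/
theorem Le_s0_of_lt (r : ℕ) (hr : 1 ≤ r) (a : ℕ → K) (har : a r ≠ 0) (v : DV K) (u : ℚ)
    (hu : (p : ℚ) ^ r * u < 1) (x : K) (hx : Le v (s0 p r a v + u) x) : Le v (s0 p r a v) x := by
  rcases hx with hx | hx
  · exact Or.inl hx
  right
  by_contra hcon
  push Not at hcon
  obtain ⟨i, hi1, hir, hai, hi⟩ := exists_s0_eq p r hr a har v
  have h6 := one_le_pow_sub p i hi1
  have h1 : 0 < -(v.o (a i) : ℚ) - (p ^ i - 1) * v.o x := by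
    rw [← hi]
    nlinarith
  have h2 : (1 : ℚ) ≤ -(v.o (a i) : ℚ) - (p ^ i - 1) * v.o x := by
    have h3 : (0 : ℤ) < -(v.o (a i)) - (p ^ i - 1) * v.o x := by exact_mod_cast h1
    have h4 : (1 : ℤ) ≤ -(v.o (a i)) - (p ^ i - 1) * v.o x := h3
    exact_mod_cast h4
  rw [← hi] at h2
  have h5 : (p : ℚ) ^ i ≤ (p : ℚ) ^ r := pow_le_pow_right₀ (one_lt_p p).le hir
  have h7 : (1 : ℚ) ≤ (p ^ i - 1) * (-(v.o x : ℚ) - s0 p r a v) := by linarith
  have h8 : (p ^ i - 1) * (-(v.o x : ℚ) - s0 p r a v) ≤ p ^ r * u := by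
    have hu0 : 0 < u := by linarith
    calc ((p : ℚ) ^ i - 1) * (-(v.o x : ℚ) - s0 p r a v) ≤ (p ^ i - 1) * u := by
          apply mul_le_mul_of_nonneg_left <;> linarith
      _ ≤ p ^ r * u := by apply mul_le_mul_of_nonneg_right <;> linarith
  linarith

end dynamics

end Pool.Agent.Helper34.Add
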