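import Pool.Agent.Helper34.AddPrim

/-!
# Frobenius descent and the main theorem over a place system
-/

set_option autoImplicit false
set_option linter.unusedSectionVars false
set_option linter.style.haveILetI false

namespace Pool.Agent.Helper34.Add

open Pool.Agent.Helper33 Finset Polynomial

section descent

variable (p : ℕ) [hp : Fact p.Prime] {k K V : Type*} [Field k] [Field K] [Algebra k K]
  [CharP K p] [Algebra (ZMod p) K] (S : PlaceSys p k K V)

/-- `x ↦ y x^p` -/
def twist (y : K) : K →ₗ[ZMod p] K :=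
  AddMonoidHom.toZModLinearMap p
    { toFun := fun x => y * x ^ p
      map_zero' := by rw [zero_pow (Fact.out : p.Prime).ne_zero, mul_zero]
      map_add' := fun x z => by rw [add_pow_char, mul_add] }

theorem twist_apply (y x : K) : twist p y x = y * x ^ p := rfl

theorem twist_injective (y : K) (hy : y ≠ 0) : Function.Injective (twist p y) := by
  rw [injective_iff_map_eq_zero]
  intro x hx
  rw [twist_apply] at hx
  rcases mul_eq_zero.1 hx with h | h
  · exact absurd h hy
  · exact pow_eq_zero_iff (Fact.out : p.Prime).ne_zero |>.1 h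

/-- the untwisted coefficients -/
theorem exists_untwist (r : ℕ) (a : ℕ → K) (y : K)
    (h : ∀ i ≤ r, S.D (a i * y ^ (p ^ i - 1)) = 0) :
    ∃ b : ℕ → K, ∀ i ≤ r, b i ^ p = a i * y ^ (p ^ i - 1) := by
  classical
  have : ∀ i, ∃ b : K, i ≤ r → b ^ p = a i * y ^ (p ^ i - 1) := by
    intro i
    by_cases hi : i ≤ r
    · obtain ⟨b, hb⟩ := S.D_eq_zero _ (h i hi)
      exact ⟨b, fun _ => hb⟩
    · exact ⟨0, fun h => absurd h hi⟩
  choose b hb using this
  exact ⟨b, hb⟩

theorem addMap_untwist (r : ℕ) (a b : ℕ → K) (y : K)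
    (hb : ∀ i ≤ r, b i ^ p = a i * y ^ (p ^ i - 1)) (x : K) :
    addMap p r a (twist p y x) = twist p y (addMap p r b x) := by
  rw [twist_apply, twist_apply, addMap_scale]
  congr 1
  rw [addMap_apply, addMap_apply, sum_pow_char]
  refine Finset.sum_congr rfl fun i hi => ?_
  rw [mem_range] at hi
  rw [mul_pow, hb i (by omega), ← pow_mul, ← pow_mul, mul_comm p]

/-- the linear functional `x ↦ D(x/y)` -/
def Ey (y : K) : K →ₗ[ZMod p] K :=
  AddMonoidHom.toZModLinearMap p
    { toFun := fun x => S.D (x / y)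
      map_zero' := by rw [zero_div, D_zero]
      map_add' := fun x z => by rw [add_div, S.D_add] }

theorem Ey_apply (y x : K) : Ey p S y x = S.D (x / y) := rfl

theorem Ey_addMap (r : ℕ) (a : ℕ → K) (y : K) (hy : y ≠ 0)
    (h : ∀ i ≤ r, S.D (a i * y ^ (p ^ i - 1)) = 0) (x : K) :
    Ey p S y (addMap p r a x) = a 0 * Ey p S y x := by
  rw [Ey_apply, Ey_apply]
  set u := x / y with hu
  have hx : x = y * u := by rw [hu]; field_simp
  rw [hx, addMap_scale, mul_div_cancel_left₀ _ hy, addMap_apply, D_sum, Finset.sum_range_succ']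
  have h1 : ∑ i ∈ range r, S.D (a (i + 1) * y ^ (p ^ (i + 1) - 1) * u ^ p ^ (i + 1)) = 0 := by
    refine Finset.sum_eq_zero fun i hi => ?_
    rw [mem_range] at hi
    rw [S.D_mul, h (i + 1) (by omega), D_pow_p S u (i + 1) (by omega)]
    ring
  rw [h1, zero_add, S.D_mul, h 0 (Nat.zero_le _)]
  simp

theorem Ey_pow (r : ℕ) (a : ℕ → K) (y : K) (hy : y ≠ 0)
    (h : ∀ i ≤ r, S.D (a i * y ^ (p ^ i - 1)) = 0) (x : K) (n : ℕ) :
    Ey p S y ((Fe p r a ^ n) x) = a 0 ^ n * Ey p S y x := by
  induction n with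
  | zero => simp
  | succ n ih =>
    rw [pow_succ', Module.End.mul_apply, Ey_addMap p S r a y hy h, ih]
    ring

theorem Ey_aeval (r : ℕ) (a : ℕ → K) (y : K) (hy : y ≠ 0)
    (h : ∀ i ≤ r, S.D (a i * y ^ (p ^ i - 1)) = 0) (x : K) (P : (ZMod p)[X]) :
    Ey p S y (aeval (Fe p r a) P x) = aeval (a 0) P * Ey p S y x := by
  rw [aeval_eq_sum_range, aeval_eq_sum_range, LinearMap.sum_apply, map_sum, Finset.sum_mul]
  refine Finset.sum_congr rfl fun i _ => ?_
  rw [LinearMap.smul_apply, map_smul, Ey_pow p S r a y hy h, smul_mul_assoc]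

theorem mem_range_of_Ey (y : K) (hy : y ≠ 0) (w : K) (h : Ey p S y w = 0) :
    w ∈ LinearMap.range (twist p y) := by
  rw [Ey_apply] at h
  obtain ⟨u, hu⟩ := S.D_eq_zero _ h
  refine ⟨u, ?_⟩
  rw [twist_apply, hu]
  field_simp

/-- if `W` has torsion prime to the multiplier then all of `W` is in `y K^p` -/
theorem W_le_range (r : ℕ) (a : ℕ → K) (y : K) (hy : y ≠ 0)
    (h : ∀ i ≤ r, S.D (a i * y ^ (p ^ i - 1)) = 0)
    (W : Submodule (ZMod p) K)
    (hH1 : ∀ w ∈ W, ∃ P : (ZMod p)[X], aeval (Fe p r a) P w = 0 ∧ aeval (a 0) P ≠ 0) :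
    W ≤ LinearMap.range (twist p y) := by
  intro w hw
  obtain ⟨P, hP, hP0⟩ := hH1 w hw
  have h1 := Ey_aeval p S r a y hy h w P
  rw [hP, map_zero] at h1
  rcases mul_eq_zero.1 h1.symm with h3 | h3
  · exact absurd h3 hP0
  · exact mem_range_of_Ey p S y hy w h3

theorem finrank_untwist (y : K) (hy : y ≠ 0) (W : Submodule (ZMod p) K)
    (h : W ≤ LinearMap.range (twist p y)) :
    Module.finrank (ZMod p) (W.comap (twist p y)) = Module.finrank (ZMod p) W := by
  have h1 := (Submodule.equivMapOfInjective (twist p y) (twist_injective p y hy)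
    (W.comap (twist p y))).finrank_eq
  rw [h1, Submodule.map_comap_eq_of_le h]

theorem finiteDimensional_untwist (y : K) (hy : y ≠ 0) (W : Submodule (ZMod p) K)
    [FiniteDimensional (ZMod p) W] : FiniteDimensional (ZMod p) (W.comap (twist p y)) := by
  have h1 := Submodule.equivMapOfInjective (twist p y) (twist_injective p y hy)
    (W.comap (twist p y))
  have h2 : (W.comap (twist p y)).map (twist p y) ≤ W := Submodule.map_comap_le _ _
  haveI := Submodule.finiteDimensional_of_le h2
  exact h1.symm.finiteDimensional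

/-- the isotriviality invariant at a place -/
def mu (r : ℕ) (a : ℕ → K) (i : ℕ) (v : DV K) : ℤ :=
  ((p : ℤ) ^ r - 1) * v.o (a i) - ((p : ℤ) ^ i - 1) * v.o (a r)

theorem mu_untwist (r : ℕ) (a b : ℕ → K) (y : K) (hy : y ≠ 0)
    (hb : ∀ i ≤ r, b i ^ p = a i * y ^ (p ^ i - 1)) (i : ℕ) (hi : i ≤ r) (hai : a i ≠ 0)
    (har : a r ≠ 0) (v : DV K) : mu p r a i v = p * mu p r b i v := by
  have hp0 : p ≠ 0 := (Fact.out : p.Prime).ne_zero
  have hne : ∀ j ≤ r, a j ≠ 0 → b j ≠ 0 := by
    intro j hj haj h0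
    have := hb j hj
    rw [h0, zero_pow hp0] at this
    exact mul_ne_zero haj (pow_ne_zero _ hy) this.symm
  have hval : ∀ j ≤ r, a j ≠ 0 → (p : ℤ) * v.o (b j) = v.o (a j) + ((p : ℤ) ^ j - 1) * v.o y := by
    intro j hj haj
    have h1 := congrArg v.o (hb j hj)
    rw [o_pow v _ (hne j hj haj), v.mul _ _ haj (pow_ne_zero _ hy), o_pow v _ hy] at h1
    rw [h1]
    have : 1 ≤ p ^ j := Nat.one_le_pow _ _ (Fact.out : p.Prime).pos
    push_cast [Nat.cast_sub this]
    ring
  have h1 := hval i hi hai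
  have h2 := hval r le_rfl har
  unfold mu
  linear_combination (-(p : ℤ) ^ r + 1) * h1 + ((p : ℤ) ^ i - 1) * h2

theorem al_untwist (r : ℕ) (a b : ℕ → K) (y : K)
    (hb : ∀ i ≤ r, b i ^ p = a i * y ^ (p ^ i - 1)) (v : DV K) : al b v ≤ al a v := by
  have hp0 : p ≠ 0 := (Fact.out : p.Prime).ne_zero
  have h0 := hb 0 (Nat.zero_le _)
  rw [pow_zero, Nat.sub_self, pow_zero, mul_one] at h0
  by_cases hb0 : b 0 = 0
  · have : al b v = 0 := by unfold al; rw [if_pos hb0]
    rw [this]; exact al_nonneg a v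
  · have ha0 : a 0 ≠ 0 := by rw [← h0]; exact pow_ne_zero _ hb0
    have h1 : v.o (a 0) = p * v.o (b 0) := by rw [← h0, o_pow v _ hb0]
    unfold al
    rw [if_neg hb0, if_neg ha0, h1]
    refine max_le (le_max_left _ _) ?_
    rcases le_total (-(v.o (b 0) : ℚ)) 0 with h | h
    · exact h.trans (le_max_left _ _)
    · refine le_trans ?_ (le_max_right _ _)
      have := two_le_p p
      push_cast
      nlinarith

end descent

section main

variable (p : ℕ) [hp : Fact p.Prime] {k K V : Type*} [Field k] [Field K] [Algebra k K]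
  [CharP K p] [Algebra (ZMod p) K] (S : PlaceSys p k K V)

/-- non-isotriviality gives a bad place or a pole of the multiplier -/
theorem exists_bad (r : ℕ) (hr : 1 ≤ r) (a : ℕ → K) (har : a r ≠ 0) (T : Finset V)
    (hT : ∀ i ≤ r, a i ≠ 0 → Sup S T (a i)) (i : ℕ) (hi : i ≤ r) (hai : a i ≠ 0) (v : V)
    (hv : mu p r a i (S.pl v) ≠ 0) :
    ∃ v ∈ T, 0 < eta p r a (S.pl v) ∨ 0 < al a (S.pl v) := by
  by_contra hcon
  push Not at hcon
  have hr2 := one_le_pow_sub p r hr
  have hnn : ∀ u ∈ T, (0 : ℚ) ≤ mu p r a i (S.pl u) := by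
    intro u hu
    have h1 : eta p r a (S.pl u) = 0 := le_antisymm (hcon u hu).1 (eta_nonneg p r hr a har _)
    have h2 : al a (S.pl u) = 0 := le_antisymm (hcon u hu).2 (al_nonneg a _)
    unfold mu
    push_cast
    rcases Nat.eq_zero_or_pos i with h0 | h0
    · subst h0
      have h3 := le_al a (S.pl u) hai
      rw [h2] at h3
      have h4 : 0 ≤ ((p : ℚ) ^ r - 1) * (S.pl u).o (a 0) := by
        apply mul_nonneg <;> linarith
      simp only [pow_zero, sub_self, zero_mul, sub_zero]
      exact h4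
    · have h3 := s0_le p r a (S.pl u) i h0 hi hai
      have h4 := gv_mul p r hr a (S.pl u)
      have h5 : s0 p r a (S.pl u) = gv p r a (S.pl u) := by
        unfold eta at h1; linarith
      rw [h5] at h3
      rw [← h4]
      have h6 := mul_le_mul_of_nonneg_left h3 (by linarith : (0 : ℚ) ≤ (p : ℚ) ^ r - 1)
      linarith
  have hsum : ∑ u ∈ T, (mu p r a i (S.pl u) : ℚ) = 0 := by
    unfold mu
    push_cast
    rw [Finset.sum_sub_distrib, ← Finset.mul_sum, ← Finset.mul_sum,
      prod_formula S T _ hai (hT i hi hai), prod_formula S T _ har (hT r le_rfl har)]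
    ring
  have hz := (Finset.sum_eq_zero_iff_of_nonneg hnn).1 hsum
  by_cases hvT : v ∈ T
  · exact hv (by exact_mod_cast hz v hvT)
  · apply hv
    unfold mu
    rw [hT i hi hai v hvT, hT r le_rfl har v hvT]
    ring

theorem finset_of_W (W : Submodule (ZMod p) K) [FiniteDimensional (ZMod p) W] :
    ∃ X : Finset K, ∀ x, x ∈ X ↔ x ∈ W := by
  haveI : Finite W := Module.finite_of_finite (ZMod p)
  have hfin : (W : Set K).Finite := Set.toFinite _
  exact ⟨hfin.toFinset, fun x => by simp⟩

theorem aeval_untwist (r : ℕ) (a b : ℕ → K) (y : K)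
    (hb : ∀ i ≤ r, b i ^ p = a i * y ^ (p ^ i - 1)) (x : K) (P : (ZMod p)[X]) :
    aeval (Fe p r a) P (twist p y x) = twist p y (aeval (Fe p r b) P x) := by
  have hpow : ∀ n : ℕ, (Fe p r a ^ n) (twist p y x) = twist p y ((Fe p r b ^ n) x) := by
    intro n
    induction n with
    | zero => simp
    | succ n ih =>
      rw [pow_succ', Module.End.mul_apply, ih, addMap_untwist p r a b y hb, pow_succ',
        Module.End.mul_apply]
  rw [aeval_eq_sum_range, aeval_eq_sum_range, LinearMap.sum_apply, LinearMap.sum_apply, map_sum]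
  refine Finset.sum_congr rfl fun i _ => ?_
  rw [LinearMap.smul_apply, LinearMap.smul_apply, map_smul, hpow]

theorem aeval_pow_p (b : K) (P : (ZMod p)[X]) : aeval (b ^ p) P = (aeval b P) ^ p := by
  have h3 : ∀ c : ZMod p, (algebraMap (ZMod p) K c) ^ p = algebraMap (ZMod p) K c := by
    intro c
    rw [← map_pow, ZMod.pow_card]
  rw [aeval_eq_sum_range, aeval_eq_sum_range, sum_pow_char]
  refine Finset.sum_congr rfl fun j _ => ?_
  rw [Algebra.smul_def, Algebra.smul_def, mul_pow, h3, ← pow_mul, ← pow_mul, mul_comm p]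

/-- splitting off the part of a polynomial vanishing at `α` -/
theorem exists_split (α : K) (Q : (ZMod p)[X]) (hQ : Q ≠ 0) :
    ∃ L Q' : (ZMod p)[X], Q = L * Q' ∧ aeval α Q' ≠ 0 ∧
      ∀ P : (ZMod p)[X], aeval α P ≠ 0 → IsCoprime L P := by
  by_cases halg : IsAlgebraic (ZMod p) α
  · have hint := halg.isIntegral
    have hirr := minpoly.irreducible hint
    obtain ⟨Q', h1, h2⟩ := (FiniteMultiplicity.of_not_isUnit hirr.not_isUnit hQ).exists_eq_pow_mul_and_not_dvd
    refine ⟨_, Q', h1, ?_, ?_⟩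
    · intro h
      exact h2 (minpoly.dvd _ _ h)
    · intro P hP
      refine IsCoprime.pow_left ?_
      rw [hirr.coprime_iff_not_dvd]
      intro h
      obtain ⟨R, hR⟩ := h
      apply hP
      rw [hR, map_mul, minpoly.aeval, zero_mul]
  · refine ⟨1, Q, (one_mul _).symm, ?_, fun P _ => isCoprime_one_left⟩
    intro h
    exact halg ⟨Q, hQ, h⟩

/-- **Main theorem over a place system: torsion prime to the characteristic of the multiplier.** -/
theorem main1 (r : ℕ) (hr : 1 ≤ r) (N : ℚ) :
    ∃ B : ℕ, ∀ (a : ℕ → K), a r ≠ 0 →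
      (∃ i ≤ r, a i ≠ 0 ∧ ∃ v : V, mu p r a i (S.pl v) ≠ 0) →
      (∀ T : Finset V, ∑ v ∈ T, al a (S.pl v) ≤ N) →
      ∀ (W : Submodule (ZMod p) K), FiniteDimensional (ZMod p) W →
        (∀ w ∈ W, addMap p r a w ∈ W) →
        (∀ w ∈ W, ∃ P : (ZMod p)[X], aeval (Fe p r a) P w = 0 ∧ aeval (a 0) P ≠ 0) →
        Module.finrank (ZMod p) W ≤ B := by
  classical
  set bound : ℚ := (2 * r * Jc p r + r * (Q0 p r).natDegree : ℕ) +
      3 * r * ((p : ℚ) ^ (2 * r) * Hc p r N (Etot S) + N) with hbound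
  refine ⟨⌊bound⌋₊, ?_⟩
  intro a har hNI hN W hfin hW hH1
  obtain ⟨i, hi, hai, v, hv⟩ := hNI
  have hp0 : p ≠ 0 := (Fact.out : p.Prime).ne_zero
  -- strong induction
  induction hn : (mu p r a i (S.pl v)).natAbs using Nat.strong_induction_on generalizing a W with
  | _ n ih =>
    by_cases hprim : ∀ y ∈ W, y ≠ 0 → ∃ i ≤ r, S.D (a i * y ^ (p ^ i - 1)) ≠ 0
    · obtain ⟨L, Q', hLQ, hQ', hcop⟩ := exists_split p (a 0) (Q0 p r) (Q0_ne_zero p r)
      obtain ⟨X, hX⟩ := finset_of_W p W
      obtain ⟨T, hT⟩ := exists_Sup_finset S (X ∪ ((range (r + 1)).image a ∪ {aeval (a 0) Q'}))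
      have hTW : ∀ w ∈ W, w ≠ 0 → Sup S T w := fun w hw hw0 =>
        hT w (by simp [hX, hw]) hw0
      have hTa : ∀ i ≤ r, a i ≠ 0 → Sup S T (a i) := fun i hi hai =>
        hT _ (Finset.mem_union_right _ (Finset.mem_union_left _
          (Finset.mem_image_of_mem a (mem_range.2 (by omega))))) hai
      have hTc : Sup S T (aeval (a 0) Q') := hT _ (by simp) hQ'
      have hL0 : L ≠ 0 := by
        rintro rfl
        rw [zero_mul] at hLQ
        exact Q0_ne_zero p r hLQ
      have hQ'0 : Q' ≠ 0 := by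
        rintro rfl
        exact hQ' (map_zero _)
      have h1 := prim_bound p S r hr a har W hW T (hTa r le_rfl har) hTW Q'
        (by rw [hLQ, natDegree_mul hL0 hQ'0]; omega) hTc hQ' (by
          intro x hx n hn0
          obtain ⟨P, hP, hP0⟩ := hH1 x hx
          refine ⟨n, ?_⟩
          obtain ⟨u, w, huw⟩ := (hcop P hP0).pow_left (m := n)
          have h2 : Q' ^ n = u * Q0 p r ^ n + w * Q' ^ n * P := by
            calc Q' ^ n = Q' ^ n * (u * L ^ n + w * P) := by rw [huw, mul_one]
              _ = u * (L * Q') ^ n + w * Q' ^ n * P := by rw [mul_pow]; ring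
              _ = u * Q0 p r ^ n + w * Q' ^ n * P := by rw [← hLQ]
          rw [h2, map_add, map_mul, map_mul (aeval (Fe p r a)) (w * Q' ^ n) P, LinearMap.add_apply,
            Module.End.mul_apply, Module.End.mul_apply, hP, hn0, map_zero, map_zero, add_zero])
        hprim
        (exists_bad p S r hr a har T hTa i hi hai v hv) N (hN T)
      exact Nat.le_floor h1
    · push Not at hprim
      obtain ⟨y, hyW, hy, hDy⟩ := hprim
      obtain ⟨b, hb⟩ := exists_untwist p S r a y hDy
      have hb0 : b 0 ^ p = a 0 := by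
        have := hb 0 (Nat.zero_le _)
        rwa [pow_zero, Nat.sub_self, pow_zero, mul_one] at this
      have hWr : W ≤ LinearMap.range (twist p y) := W_le_range p S r a y hy hDy W hH1
      haveI := finiteDimensional_untwist p y hy W
      rw [← finrank_untwist p y hy W hWr]
      have hbne : ∀ j ≤ r, a j ≠ 0 → b j ≠ 0 := by
        intro j hj haj h0
        have := hb j hj
        rw [h0, zero_pow hp0] at this
        exact mul_ne_zero haj (pow_ne_zero _ hy) this.symm
      have hmu := mu_untwist p r a b y hy hb i hi hai har (S.pl v)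
      have hmub : mu p r b i (S.pl v) ≠ 0 := by
        intro h
        rw [h, mul_zero] at hmu
        exact hv hmu
      refine ih (mu p r b i (S.pl v)).natAbs ?_ b (hbne r le_rfl har) ?_ _ this ?_ ?_
        (hbne i hi hai) hmub rfl
      · rw [← hn, hmu, Int.natAbs_mul, Int.natAbs_natCast]
        have h1 : 0 < (mu p r b i (S.pl v)).natAbs := Int.natAbs_pos.2 hmub
        have h2 := (Fact.out : p.Prime).two_le
        nlinarith
      · intro T
        exact (Finset.sum_le_sum fun v _ => al_untwist p r a b y hb (S.pl v)).trans (hN T)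
      · intro x hx
        rw [Submodule.mem_comap] at hx ⊢
        rw [← addMap_untwist p r a b y hb x]
        exact hW _ hx
      · intro x hx
        rw [Submodule.mem_comap] at hx
        obtain ⟨P, hP, hP0⟩ := hH1 _ hx
        refine ⟨P, ?_, ?_⟩
        · apply twist_injective p y hy
          rw [← aeval_untwist p r a b y hb, hP, map_zero]
        · intro h
          apply hP0
          rw [← hb0, aeval_pow_p, h, zero_pow hp0]

end main

end Pool.Agent.Helper34.Add
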