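import Pool.Agent.Helper34.AddPol

/-!
# Mason's inequality in a place system
-/

set_option autoImplicit false
set_option linter.unusedSectionVars false
set_option linter.style.haveILetI false

namespace Pool.Agent.Helper34.Add

open Pool.Agent.Helper33 Finset Polynomial

section mason

variable {p : ℕ} {k K V : Type*} [Field k] [Field K] [Algebra k K] (S : PlaceSys p k K V)

theorem D_zero : S.D 0 = 0 := by
  have := S.D_add 0 0
  simp only [add_zero] at this
  exact left_eq_add.1 this

theorem D_one : S.D 1 = 0 := by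
  have := S.D_mul 1 1
  simp only [one_mul] at this
  exact left_eq_add.1 this

theorem D_neg (x : K) : S.D (-x) = - S.D x := by
  have := S.D_add x (-x)
  rw [add_neg_cancel, D_zero] at this
  linear_combination -this

theorem D_sub (x y : K) : S.D (x - y) = S.D x - S.D y := by
  rw [sub_eq_add_neg, S.D_add, D_neg]; ring

theorem D_sum {ι : Type*} (T : Finset ι) (g : ι → K) : S.D (∑ i ∈ T, g i) = ∑ i ∈ T, S.D (g i) := by
  classical
  induction T using Finset.induction_on with
  | empty => simpa using D_zero S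
  | insert a T ha ih => rw [Finset.sum_insert ha, Finset.sum_insert ha, S.D_add, ih]

theorem D_pow (x : K) (n : ℕ) : S.D (x ^ n) = n * x ^ (n - 1) * S.D x := by
  induction n with
  | zero => simp [D_one]
  | succ n ih =>
    rw [pow_succ, S.D_mul, ih]
    rcases Nat.eq_zero_or_pos n with h | h
    · subst h; simp
    · have : x ^ n = x ^ (n - 1) * x := by rw [← pow_succ]; congr 1; omega
      simp only [Nat.add_sub_cancel]
      push_cast
      rw [this]
      ring

theorem D_inv_eq_zero (x : K) (h : S.D x = 0) : S.D x⁻¹ = 0 := by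
  by_cases hx : x = 0
  · rw [hx, inv_zero, D_zero]
  have := S.D_mul x x⁻¹
  rw [mul_inv_cancel₀ hx, D_one, h, mul_zero, add_zero] at this
  rcases mul_eq_zero.1 this.symm with h | h
  · exact absurd h hx
  · exact h

theorem D_pow_eq_zero (x : K) (h : S.D x = 0) (n : ℕ) : S.D (x ^ n) = 0 := by
  rw [D_pow, h, mul_zero]

theorem D_pow_p [CharP K p] (x : K) (i : ℕ) (hi : 1 ≤ i) : S.D (x ^ p ^ i) = 0 := by
  rw [D_pow]
  have : ((p ^ i : ℕ) : K) = 0 := by
    rw [CharP.cast_eq_zero_iff K p]
    exact dvd_pow_self p (by omega)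
  rw [this]
  ring

/-- support in `T` -/
def Sup (T : Finset V) (x : K) : Prop := ∀ v ∉ T, (S.pl v).o x = 0

theorem exists_Sup (x : K) (hx : x ≠ 0) : ∃ T : Finset V, Sup S T x := by
  refine ⟨(S.ord_finite x hx).toFinset, fun v hv => ?_⟩
  by_contra h
  exact hv ((Set.Finite.mem_toFinset _).2 h)

theorem Sup.mono {T T' : Finset V} {x : K} (h : Sup S T x) (hT : T ⊆ T') : Sup S T' x :=
  fun v hv => h v fun hv' => hv (hT hv')

theorem exists_Sup_finset (X : Finset K) : ∃ T : Finset V, ∀ x ∈ X, x ≠ 0 → Sup S T x := by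
  classical
  induction X using Finset.induction_on with
  | empty => exact ⟨∅, by simp⟩
  | insert a X ha ih =>
    obtain ⟨T, hT⟩ := ih
    by_cases ha0 : a = 0
    · refine ⟨T, fun x hx hx0 => ?_⟩
      rw [Finset.mem_insert] at hx
      rcases hx with rfl | hx
      · exact absurd ha0 hx0
      · exact hT x hx hx0
    · obtain ⟨T', hT'⟩ := exists_Sup S a ha0
      refine ⟨T ∪ T', fun x hx hx0 => ?_⟩
      rw [Finset.mem_insert] at hx
      rcases hx with rfl | hx
      · exact hT'.mono S Finset.subset_union_right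
      · exact (hT x hx hx0).mono S Finset.subset_union_left

theorem prod_formula (T : Finset V) (x : K) (hx : x ≠ 0) (h : Sup S T x) :
    ∑ v ∈ T, ((S.pl v).o x : ℚ) = 0 := by
  have h1 := S.sum_ord x hx
  rw [finsum_eq_sum_of_support_subset (s := T)] at h1
  · exact_mod_cast h1
  · intro v hv
    by_contra hcon
    exact hv (h v hcon)

/-- the height on `T` -/
def hT (T : Finset V) (x : K) : ℚ := ∑ v ∈ T, max 0 (-((S.pl v).o x : ℚ))

/-- total error -/
noncomputable def Etot : ℕ := ∑ v ∈ S.e_finite.toFinset, S.e v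

theorem sum_e_le (T : Finset V) : ∑ v ∈ T, (S.e v : ℚ) ≤ Etot S := by
  classical
  have h1 : ∑ v ∈ T, S.e v ≤ Etot S := by
    unfold Etot
    have h2 : ∑ v ∈ T, S.e v ≤ ∑ v ∈ T ∪ S.e_finite.toFinset, S.e v :=
      Finset.sum_le_sum_of_subset Finset.subset_union_left
    refine h2.trans (le_of_eq ?_)
    symm
    refine Finset.sum_subset Finset.subset_union_right ?_
    intro v _ hv
    by_contra h
    exact hv ((Set.Finite.mem_toFinset _).2 h)
  exact_mod_cast h1

/-- the local estimate -/
theorem mason_local (v : V) (x : K) (hx : x ≠ 0) (hx1 : 1 - x ≠ 0) (hD : S.D x ≠ 0) :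
    (max 0 (-((S.pl v).o x : ℚ)) - (S.e v : ℚ) -
      (if (S.pl v).o x = 0 ∧ (S.pl v).o (1 - x) = 0 then 0 else 1)) ≤
      ((S.pl v).o (S.D x / (x * (1 - x))) : ℚ) := by
  have hden : x * (1 - x) ≠ 0 := mul_ne_zero hx hx1
  rw [o_div _ _ _ hD hden, (S.pl v).mul _ _ hx hx1]
  have hn : (-x : K) ≠ 0 := neg_ne_zero.2 hx
  have hD1 : S.D (1 - x) = - S.D x := by rw [D_sub, D_one]; ring
  have hD1' : S.D (1 - x) ≠ 0 := by rw [hD1]; exact neg_ne_zero.2 hD
  have hoD : (S.pl v).o (S.D (1 - x)) = (S.pl v).o (S.D x) := by rw [hD1, o_neg]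
  have e1 := S.ord_D v x hx hD
  have e2 := S.ord_D' v x hx hD
  have e3 := S.ord_D v (1 - x) hx1 hD1'
  rw [hoD] at e3
  set A := (S.pl v).o x with hA
  set B := (S.pl v).o (1 - x) with hB
  set C := (S.pl v).o (S.D x) with hC
  set e := S.e v with he
  rcases lt_trichotomy A 0 with h | h | h
  · -- pole
    have hdom : (S.pl v).o (-x + 1) = (S.pl v).o (-x) := by
      refine (add_dom hn ?_).2
      right
      rw [o_one, o_neg, ← hA]
      have : (A : ℚ) < 0 := by exact_mod_cast h
      simp only [Int.cast_zero, neg_zero]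
      linarith
    have hB' : B = A := by
      rw [hB, sub_eq_neg_add, hdom, o_neg]
    rw [hB', if_neg (by omega)]
    have h0 : (A : ℚ) < 0 := by exact_mod_cast h
    rw [max_eq_right (by linarith)]
    have : (A : ℚ) - 1 - e ≤ C := by exact_mod_cast e1
    push_cast
    linarith
  · rw [h] at e1 e2 ⊢
    have hBnn : 0 ≤ B := by
      have h1 : Le (S.pl v) 0 (1 - x) := by
        refine Le.sub (Or.inr ?_) (Or.inr ?_)
        · rw [o_one]; simp
        · rw [← hA, h]; simp
      have := h1.of_ne hx1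
      rw [← hB] at this
      have h2 : (0 : ℚ) ≤ B := by linarith
      exact_mod_cast h2
    rcases Nat.eq_zero_or_pos B.toNat with h0 | h0
    · have hB0 : B = 0 := by omega
      rw [hB0, if_pos ⟨rfl, rfl⟩]
      have := e2 le_rfl
      have : (-(e : ℤ) : ℚ) ≤ C := by exact_mod_cast this
      simp only [Int.cast_zero, neg_zero, max_self, add_zero, sub_zero, zero_sub]
      push_cast at this
      linarith
    · rw [if_neg (by omega)]
      have : (B : ℚ) - 1 - e ≤ C := by exact_mod_cast e3
      simp only [Int.cast_zero, neg_zero, max_self, zero_add, zero_sub, Int.cast_sub]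
      push_cast
      linarith
  · -- zero
    have hdom : (S.pl v).o (1 + -x) = (S.pl v).o 1 := by
      refine (add_dom one_ne_zero ?_).2
      right
      rw [o_one, o_neg, ← hA]
      have : (0 : ℚ) < A := by exact_mod_cast h
      simp only [Int.cast_zero, neg_zero]
      linarith
    have hB' : B = 0 := by
      rw [hB, sub_eq_add_neg, hdom, o_one]
    rw [hB', if_neg (by omega)]
    have h0 : (0 : ℚ) < A := by exact_mod_cast h
    rw [max_eq_left (by linarith)]
    have : (A : ℚ) - 1 - e ≤ C := by exact_mod_cast e1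
    push_cast
    linarith

/-- **Mason's inequality** -/
theorem mason (T S₁ : Finset V) (x : K) (hx : x ≠ 0) (hx1 : x ≠ 1) (hD : S.D x ≠ 0)
    (h : ∀ v ∉ S₁, (S.pl v).o x = 0 ∧ (S.pl v).o (1 - x) = 0) :
    hT S T x ≤ #S₁ + Etot S := by
  classical
  have hx1' : 1 - x ≠ 0 := sub_ne_zero.2 (Ne.symm hx1)
  have hθ : S.D x / (x * (1 - x)) ≠ 0 := div_ne_zero hD (mul_ne_zero hx hx1')
  obtain ⟨T₁, hT₁⟩ := exists_Sup S _ hθ
  set T₂ := T ∪ T₁ ∪ S₁ with hT₂
  have hprod := prod_formula S T₂ _ hθ (hT₁.mono S (by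
    intro v hv; simp [hT₂, hv]))
  have hsum : ∑ v ∈ T₂, (max 0 (-((S.pl v).o x : ℚ)) - (S.e v : ℚ) -
      (if (S.pl v).o x = 0 ∧ (S.pl v).o (1 - x) = 0 then 0 else 1)) ≤ 0 := by
    refine le_trans ?_ hprod.le
    exact Finset.sum_le_sum fun v _ => mason_local S v x hx hx1' hD
  rw [Finset.sum_sub_distrib, Finset.sum_sub_distrib] at hsum
  have h1 := sum_e_le S T₂
  have h2 : ∑ v ∈ T₂, (if (S.pl v).o x = 0 ∧ (S.pl v).o (1 - x) = 0 then (0 : ℚ) else 1) ≤ #S₁ := by
    calc ∑ v ∈ T₂, (if (S.pl v).o x = 0 ∧ (S.pl v).o (1 - x) = 0 then (0 : ℚ) else 1)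
        ≤ ∑ v ∈ T₂, (if v ∈ S₁ then (1 : ℚ) else 0) := by
          refine Finset.sum_le_sum fun v _ => ?_
          by_cases hv : v ∈ S₁
          · rw [if_pos hv]
            split_ifs <;> norm_num
          · rw [if_neg hv, if_pos (h v hv)]
      _ = #S₁ := by
          rw [← Finset.sum_filter]
          simp only [Finset.sum_const, nsmul_eq_mul, mul_one]
          congr 2
          ext v
          simp only [Finset.mem_filter, hT₂, Finset.mem_union]
          tauto
  have h3 : hT S T x ≤ ∑ v ∈ T₂, max 0 (-((S.pl v).o x : ℚ)) := by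
    unfold hT
    refine Finset.sum_le_sum_of_subset_of_nonneg ?_ fun v _ _ => le_max_left _ _
    intro v hv; simp [hT₂, hv]
  linarith

end mason

end Pool.Agent.Helper34.Add
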