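import Pool.Agent.Helper34.AddLoc

/-!
# The action of `F_p[X]`
-/

set_option autoImplicit false
set_option linter.unusedSectionVars false
set_option linter.style.haveILetI false

namespace Pool.Agent.Helper34.Add

open Pool.Agent.Helper33 Finset Polynomial

section pol

variable (p : ℕ) [hp : Fact p.Prime] {K : Type*} [Field K] [CharP K p] [Algebra (ZMod p) K]

/-- the endomorphism -/
noncomputable abbrev Fe (r : ℕ) (a : ℕ → K) : Module.End (ZMod p) K := addMap p r a

theorem aeval_mem (F : Module.End (ZMod p) K) (N : Submodule (ZMod p) K) (hN : ∀ x ∈ N, F x ∈ N)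
    (P : (ZMod p)[X]) (x : K) (hx : x ∈ N) : aeval F P x ∈ N := by
  have hpow : ∀ n : ℕ, (F ^ n) x ∈ N := by
    intro n
    induction n with
    | zero => simpa using hx
    | succ n ih =>
      rw [pow_succ', Module.End.mul_apply]
      exact hN _ ih
  rw [aeval_eq_sum_range, LinearMap.sum_apply]
  refine N.sum_mem fun i _ => ?_
  rw [LinearMap.smul_apply]
  exact N.smul_mem _ (hpow i)

/-- the open disc as an `F_p`-subspace -/
def DLt (v : DV K) (s : ℚ) : Submodule (ZMod p) K :=
  AddSubgroup.toZModSubmodule p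
    { carrier := {x | Lt v s x}
      zero_mem' := Lt.zero s
      add_mem' := fun hx hy => Lt.add hx hy
      neg_mem' := fun hx => Lt.neg hx }

theorem mem_DLt (v : DV K) (s : ℚ) (x : K) : x ∈ DLt p v s ↔ Lt v s x := Iff.rfl

theorem addMap_lt (r : ℕ) (a : ℕ → K) (v : DV K) (hα : al a v = 0) (s : ℚ)
    (hs : s ≤ s0 p r a v) (x : K) (hx : Lt v s x) : Lt v s (addMap p r a x) := by
  rcases hx with hx | hx
  · left; rw [hx, map_zero]
  · exact (addMap_le p r a v hα _ (hx.le.trans hs) x (Le.self x)).lt_of_lt hx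

theorem mul_const_le (a : ℕ → K) (v : DV K) (hα : al a v = 0) (s : ℚ) (x : K) (hx : Le v s x)
    (n : ℕ) : Le v s (a 0 ^ n * x) := by
  have h0 : Le v 0 (a 0) := by
    by_cases h : a 0 = 0
    · exact Or.inl h
    · exact Or.inr (by have := le_al a v h; rwa [hα] at this)
  have := (h0.pow n).mul hx
  refine this.mono (by simp)

theorem pow_approx (r : ℕ) (a : ℕ → K) (v : DV K) (hα : al a v = 0) (s : ℚ)
    (hs : s < s0 p r a v) (x : K) (hx : Le v s x) (n : ℕ) :
    Lt v s ((Fe p r a ^ n) x - a 0 ^ n * x) := by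
  induction n with
  | zero =>
    left
    simp
  | succ n ih =>
    have h1 : (Fe p r a ^ (n + 1)) x - a 0 ^ (n + 1) * x =
        addMap p r a ((Fe p r a ^ n) x - a 0 ^ n * x) +
        (addMap p r a (a 0 ^ n * x) - a 0 * (a 0 ^ n * x)) := by
      rw [pow_succ', Module.End.mul_apply, map_sub]
      ring
    rw [h1]
    refine (addMap_lt p r a v hα s hs.le _ ih).add ?_
    exact addMap_approx p r a v s hs _ (mul_const_le a v hα s x hx n)

theorem aeval_approx (r : ℕ) (a : ℕ → K) (v : DV K) (hα : al a v = 0) (s : ℚ)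
    (hs : s < s0 p r a v) (x : K) (hx : Le v s x) (P : (ZMod p)[X]) :
    Lt v s (aeval (Fe p r a) P x - aeval (a 0) P * x) := by
  have h1 : aeval (Fe p r a) P x - aeval (a 0) P * x =
      ∑ i ∈ range (P.natDegree + 1), P.coeff i • ((Fe p r a ^ i) x - a 0 ^ i * x) := by
    rw [aeval_eq_sum_range, aeval_eq_sum_range, LinearMap.sum_apply, Finset.sum_mul,
      ← Finset.sum_sub_distrib]
    refine Finset.sum_congr rfl fun i _ => ?_
    rw [LinearMap.smul_apply, smul_sub, smul_mul_assoc]
  rw [h1, ← mem_DLt p]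
  refine (DLt p v s).sum_mem fun i _ => (DLt p v s).smul_mem _ ?_
  exact pow_approx p r a v hα s hs x hx i

/-- iterated composition -/
noncomputable def itPoly (r : ℕ) (a : ℕ → K) (n : ℕ) : K[X] :=
  (fun Q => (addPoly p r a).comp Q)^[n] X

theorem itPoly_eval (r : ℕ) (a : ℕ → K) (n : ℕ) (x : K) :
    (itPoly p r a n).eval x = (Fe p r a ^ n) x := by
  induction n with
  | zero => simp [itPoly]
  | succ n ih =>
    have h1 : itPoly p r a (n + 1) = (addPoly p r a).comp (itPoly p r a n) := by
      unfold itPoly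
      rw [Function.iterate_succ_apply']
    rw [h1, eval_comp, ih, addPoly_eval, pow_succ', Module.End.mul_apply]

theorem addPoly_natDegree (r : ℕ) (a : ℕ → K) (har : a r ≠ 0) :
    (addPoly p r a).natDegree = p ^ r := by
  refine le_antisymm (addPoly_natDegree_le p r a) ?_
  refine le_natDegree_of_ne_zero ?_
  rw [addPoly_coeff p r a r le_rfl]
  exact har

theorem itPoly_natDegree (r : ℕ) (a : ℕ → K) (har : a r ≠ 0) (n : ℕ) :
    (itPoly p r a n).natDegree = p ^ (r * n) := by
  induction n with
  | zero => simp [itPoly]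
  | succ n ih =>
    have h1 : itPoly p r a (n + 1) = (addPoly p r a).comp (itPoly p r a n) := by
      unfold itPoly
      rw [Function.iterate_succ_apply']
    rw [h1, natDegree_comp, addPoly_natDegree p r a har, ih, ← pow_add]
    congr 1
    ring

/-- kernel bound -/
theorem finrank_le_of_aeval_eq_zero (r : ℕ) (hr : 1 ≤ r) (a : ℕ → K) (har : a r ≠ 0)
    (P : (ZMod p)[X]) (hP : P ≠ 0) (W : Submodule (ZMod p) K) [FiniteDimensional (ZMod p) W]
    (h : ∀ w ∈ W, aeval (Fe p r a) P w = 0) :
    Module.finrank (ZMod p) W ≤ r * P.natDegree := by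
  classical
  have hp1 : 1 < p := (Fact.out : p.Prime).one_lt
  set d := P.natDegree with hd
  let G : K[X] := ∑ n ∈ range (d + 1), C (algebraMap (ZMod p) K (P.coeff n)) * itPoly p r a n
  have hGe : ∀ x, G.eval x = aeval (Fe p r a) P x := by
    intro x
    simp only [G]
    rw [eval_finsetSum, aeval_eq_sum_range, LinearMap.sum_apply]
    refine Finset.sum_congr rfl fun i _ => ?_
    rw [eval_mul, eval_C, itPoly_eval, LinearMap.smul_apply, Algebra.smul_def]
  have hlead : algebraMap (ZMod p) K (P.coeff d) ≠ 0 := by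
    rw [Ne, map_eq_zero_iff _ (algebraMap (ZMod p) K).injective]
    exact leadingCoeff_ne_zero.2 hP
  have hGd : G.natDegree = p ^ (r * d) := by
    have h1 : G = C (algebraMap (ZMod p) K (P.coeff d)) * itPoly p r a d +
        ∑ n ∈ range d, C (algebraMap (ZMod p) K (P.coeff n)) * itPoly p r a n := by
      simp only [G]
      rw [Finset.sum_range_succ, add_comm]
    have h2 : (C (algebraMap (ZMod p) K (P.coeff d)) * itPoly p r a d).natDegree = p ^ (r * d) := by
      rw [natDegree_C_mul hlead, itPoly_natDegree p r a har]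
    have h3 : (∑ n ∈ range d, C (algebraMap (ZMod p) K (P.coeff n)) * itPoly p r a n).natDegree <
        p ^ (r * d) := by
      rcases Nat.eq_zero_or_pos d with h0 | h0
      · rw [h0]; simp
      · refine lt_of_le_of_lt (natDegree_sum_le_of_forall_le (n := p ^ (r * (d - 1))) _ _ ?_) ?_
        · intro i hi
          rw [mem_range] at hi
          refine (natDegree_C_mul_le _ _).trans ?_
          rw [itPoly_natDegree p r a har]
          exact Nat.pow_le_pow_right hp1.le (Nat.mul_le_mul_left r (by omega))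
        · refine Nat.pow_lt_pow_right hp1 ?_
          exact Nat.mul_lt_mul_of_pos_left (by omega) (by omega)
    rw [h1, natDegree_add_eq_left_of_natDegree_lt (by rw [h2]; exact h3), h2]
  have hG0 : G ≠ 0 := by
    intro h0
    rw [h0, natDegree_zero] at hGd
    have : 0 < p ^ (r * d) := pow_pos (by omega) _
    omega
  haveI : Finite W := Module.finite_of_finite (ZMod p)
  have hfin : (W : Set K).Finite := Set.toFinite _
  have hcard : hfin.toFinset.card = p ^ Module.finrank (ZMod p) W := by
    rw [← natCard_submodule p W, ← Set.ncard_eq_toFinset_card (W : Set K) hfin]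
    rfl
  have hsub : hfin.toFinset ⊆ G.roots.toFinset := by
    intro x hx
    rw [Multiset.mem_toFinset, mem_roots hG0, IsRoot.def, hGe]
    exact h x (by simpa using hx)
  have h4 : p ^ Module.finrank (ZMod p) W ≤ p ^ (r * d) := by
    rw [← hcard, ← hGd]
    exact (Finset.card_le_card hsub).trans ((Multiset.toFinset_card_le _).trans (card_roots' _))
  exact (Nat.pow_le_pow_iff_right hp1).1 h4

theorem finrank_map_aeval (r : ℕ) (hr : 1 ≤ r) (a : ℕ → K) (har : a r ≠ 0)
    (P : (ZMod p)[X]) (hP : P ≠ 0) (W : Submodule (ZMod p) K) [FiniteDimensional (ZMod p) W] :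
    Module.finrank (ZMod p) W ≤
      Module.finrank (ZMod p) (W.map (aeval (Fe p r a) P)) + r * P.natDegree := by
  let q : W →ₗ[ZMod p] K := (aeval (Fe p r a) P).domRestrict W
  have h1 := LinearMap.finrank_range_add_finrank_ker q
  have hrange : Module.finrank (ZMod p) (LinearMap.range q) ≤
      Module.finrank (ZMod p) (W.map (aeval (Fe p r a) P)) := by
    refine Submodule.finrank_mono ?_
    rintro _ ⟨y, rfl⟩
    exact ⟨y, y.2, rfl⟩
  have hker : Module.finrank (ZMod p) (LinearMap.ker q) ≤ r * P.natDegree := by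
    rw [(Submodule.equivMapOfInjective W.subtype W.injective_subtype (LinearMap.ker q)).finrank_eq]
    refine finrank_le_of_aeval_eq_zero p r hr a har P hP _ ?_
    rintro _ ⟨y, hy, rfl⟩
    exact hy
  omega

/-- the polynomial of the J-trick -/
noncomputable def PJ (J : ℕ) : (ZMod p)[X] := X ^ J - X ^ (2 * J)

theorem PJ_ne_zero (J : ℕ) (hJ : 1 ≤ J) : PJ p J ≠ 0 := by
  intro h
  have := congrArg (fun Q => coeff Q J) h
  simp only [PJ, coeff_sub, coeff_X_pow, if_true, coeff_zero] at this
  rw [if_neg (by omega)] at this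
  simp at this

theorem PJ_natDegree_le (J : ℕ) : (PJ p J).natDegree ≤ 2 * J := by
  unfold PJ
  refine (natDegree_sub_le _ _).trans ?_
  rw [natDegree_X_pow, natDegree_X_pow]
  omega

theorem aeval_PJ (J : ℕ) (F : Module.End (ZMod p) K) (x : K) :
    aeval F (PJ p J) x = (F ^ J) x - (F ^ (2 * J)) x := by
  simp [PJ]

/-- **J-trick** -/
theorem Jtrick (r : ℕ) (hr : 1 ≤ r) (a : ℕ → K) (har : a r ≠ 0) (v : DV K) (hα : al a v = 0)
    (W : Submodule (ZMod p) K) [FiniteDimensional (ZMod p) W] (hW : ∀ w ∈ W, addMap p r a w ∈ W)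
    (n : ℕ) (hn : (p : ℚ) ^ r * (2 * eta p r a v) < 2 ^ n) (x : K) (hx : x ∈ W) :
    Le v (s0 p r a v) (aeval (Fe p r a) (PJ p (p ^ (r * n)).factorial) x) := by
  classical
  have hp1 : 1 < p := (Fact.out : p.Prime).one_lt
  set F := Fe p r a with hF
  set N := DS p v (s0 p r a v) with hN
  have hNstab : ∀ y ∈ N, F y ∈ N := fun y hy => addMap_le p r a v hα _ le_rfl y hy
  have hDS : DS p v (s0 p r a v + (2 * eta p r a v + al a v) / 2 ^ n) = N := by
    ext y
    rw [mem_DS, hN, mem_DS]
    constructor
    · intro h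
      refine Le_s0_of_lt p r hr a har v _ ?_ y h
      rw [hα, add_zero, mul_div_assoc', div_lt_one (by positivity)]
      exact hn
    · intro h
      refine h.mono ?_
      have := eta_nonneg p r hr a har v
      rw [hα, add_zero]
      have : 0 ≤ 2 * eta p r a v / 2 ^ n := by positivity
      linarith
  have hjd : Module.finrank (ZMod p) (W.map N.mkQ) ≤ r * n := by
    have h0 : ∀ N₁ N₂ : Submodule (ZMod p) K, N₁ = N₂ →
        Module.finrank (ZMod p) (W.map N₁.mkQ) = Module.finrank (ZMod p) (W.map N₂.mkQ) := by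
      rintro _ _ rfl; rfl
    have := jd_iter p r hr a har v W hW n
    unfold jd at this
    rw [← h0 _ _ hDS]
    exact this
  set C := p ^ (r * n) with hC
  have hC1 : 1 ≤ C := Nat.one_le_pow _ _ (by omega)
  have hWpow : ∀ i : ℕ, (F ^ i) x ∈ W := by
    intro i
    induction i with
    | zero => simpa using hx
    | succ i ih =>
      rw [pow_succ', Module.End.mul_apply]
      exact hW _ ih
  haveI : Finite (W.map N.mkQ) := Module.finite_of_finite (ZMod p)
  have hcardW : Nat.card (W.map N.mkQ) ≤ C := by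
    rw [Module.natCard_eq_pow_finrank (K := ZMod p), Nat.card_zmod]
    exact Nat.pow_le_pow_right hp1.le hjd
  haveI : Fintype (W.map N.mkQ) := Fintype.ofFinite _
  obtain ⟨i, hi, j, hj, hij, heq⟩ : ∃ i ∈ range (C + 1), ∃ j ∈ range (C + 1), i ≠ j ∧
      (⟨N.mkQ ((F ^ i) x), ⟨_, hWpow i, rfl⟩⟩ : W.map N.mkQ) = ⟨N.mkQ ((F ^ j) x), ⟨_, hWpow j, rfl⟩⟩ := by
    refine Finset.exists_ne_map_eq_of_card_lt_of_maps_to (t := Finset.univ) ?_ ?_
    · rw [Finset.card_univ, ← Nat.card_eq_fintype_card, card_range]
      omega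
    · intro _ _; exact Finset.mem_coe.2 (Finset.mem_univ _)
  replace heq : N.mkQ ((F ^ i) x) = N.mkQ ((F ^ j) x) := congrArg Subtype.val heq
  rw [mem_range] at hi hj
  -- wlog i < j
  obtain ⟨i, d, hd, hid, hiC, heq⟩ : ∃ i d : ℕ, 1 ≤ d ∧ d ≤ C ∧ i ≤ C ∧
      N.mkQ ((F ^ i) x) = N.mkQ ((F ^ (i + d)) x) := by
    rcases lt_or_gt_of_ne hij with h | h
    · exact ⟨i, j - i, by omega, by omega, by omega, by rw [heq]; congr 3; omega⟩
    · exact ⟨j, i - j, by omega, by omega, by omega, by rw [← heq]; congr 3; omega⟩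
  have hmem : (F ^ i) x - (F ^ (i + d)) x ∈ N := by
    rw [← sub_eq_zero, ← map_sub, Submodule.mkQ_apply, Submodule.Quotient.mk_eq_zero] at heq
    exact heq
  have hshift : ∀ m, (F ^ (i + m)) x - (F ^ (i + m + d)) x ∈ N := by
    intro m
    induction m with
    | zero => simpa using hmem
    | succ m ih =>
      have := hNstab _ ih
      rw [map_sub, ← Module.End.mul_apply, ← pow_succ', ← Module.End.mul_apply, ← pow_succ'] at this
      have e1 : i + m + 1 = i + (m + 1) := by ring
      have e2 : i + m + d + 1 = i + (m + 1) + d := by ring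
      rw [e1, e2] at this
      exact this
  have hmult : ∀ (m e : ℕ), (F ^ (i + m)) x - (F ^ (i + m + e * d)) x ∈ N := by
    intro m e
    induction e with
    | zero => simp
    | succ e ih =>
      have h1 := hshift (m + e * d)
      have h2 := N.add_mem ih h1
      have e1 : i + (m + e * d) = i + m + e * d := by ring
      have e2 : i + m + (e + 1) * d = i + m + e * d + d := by ring
      rw [e2]
      rw [e1, sub_add_sub_cancel] at h2
      exact h2
  rw [aeval_PJ, ← mem_DS p]
  have hdvd : d ∣ C.factorial := Nat.dvd_factorial (by omega) hid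
  obtain ⟨e, he⟩ := hdvd
  have hJ : C ≤ C.factorial := Nat.self_le_factorial C
  have h3 := hmult (C.factorial - i) e
  have e1 : i + (C.factorial - i) = C.factorial := by omega
  have e2 : C.factorial + e * d = 2 * C.factorial := by
    have : e * d = C.factorial := by rw [he]; ring
    omega
  rw [e1, e2] at h3
  exact h3

end pol

end Pool.Agent.Helper34.Add
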