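import Pool.Agent.Helper34.AddSpec2

/-!
# From stable subspaces to preperiodic points
-/

set_option autoImplicit false
set_option linter.unusedSectionVars false
set_option linter.style.haveILetI false

namespace Pool.Agent.Helper34.Add

open Pool.Agent.Helper33 Finset Polynomial

section orbit

theorem orbit_finite {α : Type*} (φ : α → α) (x : α) (m n : ℕ) (hmn : m < n)
    (h : φ^[m] x = φ^[n] x) : (Set.range fun i => φ^[i] x).Finite := by
  have key : ∀ i, ∃ j < n, φ^[i] x = φ^[j] x := by
    intro i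
    induction i using Nat.strong_induction_on with
    | _ i ih =>
      by_cases hi : i < n
      · exact ⟨i, hi, rfl⟩
      · push Not at hi
        obtain ⟨j, hj, hj'⟩ := ih (i - n + m) (by omega)
        refine ⟨j, hj, ?_⟩
        rw [← hj']
        have e1 : i = (i - n) + n := by omega
        conv_lhs => rw [e1]
        rw [Function.iterate_add_apply, ← h, ← Function.iterate_add_apply]
  refine (Set.finite_range fun j : Fin n => φ^[j] x).subset ?_
  rintro _ ⟨i, rfl⟩
  obtain ⟨j, hj, hj'⟩ := key i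
  exact ⟨⟨j, hj⟩, hj'.symm⟩

end orbit

section pre

variable (p : ℕ) [hp : Fact p.Prime] {K : Type*} [Field K] [CharP K p] [Algebra (ZMod p) K]

/-- the affine map -/
noncomputable def affMap (r : ℕ) (a : ℕ → K) (b : K) : K → K := fun x => b + addMap p r a x

theorem aff_iter_sub (r : ℕ) (a : ℕ → K) (b x y : K) (n : ℕ) :
    (affMap p r a b)^[n] x - (affMap p r a b)^[n] y = (addMap p r a)^[n] (x - y) := by
  induction n with
  | zero => rfl
  | succ n ih =>
    rw [Function.iterate_succ_apply', Function.iterate_succ_apply', Function.iterate_succ_apply',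
      ← ih, map_sub]
    simp only [affMap]
    ring

/-- the stable subspace generated by finitely many preperiodic points -/
theorem exists_W (r : ℕ) (a : ℕ → K) (Y : Finset K)
    (hY : ∀ y ∈ Y, (Set.range fun i => (addMap p r a)^[i] y).Finite) :
    ∃ W : Submodule (ZMod p) K, FiniteDimensional (ZMod p) W ∧
      (∀ w ∈ W, addMap p r a w ∈ W) ∧ ∀ y ∈ Y, y ∈ W := by
  classical
  set A : Set K := ⋃ y ∈ Y, Set.range fun i => (addMap p r a)^[i] y with hA
  have hfin : A.Finite := Set.Finite.biUnion Y.finite_toSet fun y hy => hY y hy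
  refine ⟨Submodule.span (ZMod p) A, FiniteDimensional.span_of_finite _ hfin, ?_, ?_⟩
  · have h1 : Submodule.span (ZMod p) A ≤ (Submodule.span (ZMod p) A).comap (addMap p r a) := by
      rw [Submodule.span_le]
      intro z hz
      rw [hA, Set.mem_iUnion₂] at hz
      obtain ⟨y, hy, i, rfl⟩ := hz
      refine Submodule.subset_span ?_
      rw [hA, Set.mem_iUnion₂]
      refine ⟨y, hy, i + 1, ?_⟩
      simp only
      rw [Function.iterate_succ_apply']
    intro w hw
    exact h1 hw
  · intro y hy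
    refine Submodule.subset_span ?_
    rw [hA, Set.mem_iUnion₂]
    exact ⟨y, hy, 0, rfl⟩

/-- transfer of the bound to preperiodic points -/
theorem preper_of_dim (r : ℕ) (a : ℕ → K) (b : K) (B : ℕ)
    (hB : ∀ (W : Submodule (ZMod p) K), FiniteDimensional (ZMod p) W →
        (∀ w ∈ W, addMap p r a w ∈ W) → Module.finrank (ZMod p) W ≤ B) :
    {x : K | ∃ m n : ℕ, m < n ∧
      (affMap p r a b)^[m] x = (affMap p r a b)^[n] x}.encard ≤ (p ^ B : ℕ) := by
  classical
  by_contra hcon
  push Not at hcon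
  obtain ⟨s, hs, hcard⟩ := Set.exists_subset_encard_eq (Order.add_one_le_of_lt hcon)
  have hsfin : s.Finite := by
    apply Set.finite_of_encard_eq_coe (k := p ^ B + 1)
    rw [hcard]; norm_cast
  set Y := hsfin.toFinset with hY
  have hYcard : #Y = p ^ B + 1 := by
    have h1 := hsfin.encard_eq_coe_toFinset_card
    rw [hcard] at h1
    exact_mod_cast h1.symm
  have hne : Y.Nonempty := Finset.card_pos.1 (by omega)
  obtain ⟨x₀, hx₀⟩ := hne
  have hpre : ∀ x ∈ Y, (Set.range fun i => (affMap p r a b)^[i] x).Finite := by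
    intro x hx
    obtain ⟨m, n, hmn, h⟩ := hs ((Set.Finite.mem_toFinset _).1 hx)
    exact orbit_finite _ x m n hmn h
  obtain ⟨W, hWf, hWs, hWY⟩ := exists_W p r a (Y.image fun x => x - x₀) (by
    intro y hy
    rw [Finset.mem_image] at hy
    obtain ⟨x, hx, rfl⟩ := hy
    refine ((hpre x hx).image2 (fun u v => u - v) (hpre x₀ hx₀)).subset ?_
    rintro _ ⟨i, rfl⟩
    refine ⟨_, ⟨i, rfl⟩, _, ⟨i, rfl⟩, ?_⟩
    exact aff_iter_sub p r a b x x₀ i)
  have hdim := hB W hWf hWs
  haveI : Finite W := Module.finite_of_finite (ZMod p)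
  have hfin : (W : Set K).Finite := Set.toFinite _
  have hcardW : hfin.toFinset.card = p ^ Module.finrank (ZMod p) W := by
    rw [← natCard_submodule p W, ← Set.ncard_eq_toFinset_card (W : Set K) hfin]
    rfl
  have h1 : #(Y.image fun x => x - x₀) ≤ hfin.toFinset.card := by
    refine Finset.card_le_card fun y hy => ?_
    rw [Set.Finite.mem_toFinset]
    exact hWY y hy
  rw [Finset.card_image_of_injective _ (sub_left_injective), hYcard, hcardW] at h1
  have h2 : p ^ Module.finrank (ZMod p) W ≤ p ^ B :=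
    Nat.pow_le_pow_right (Fact.out : p.Prime).pos hdim
  omega

end pre

section place

variable (p : ℕ) [hp : Fact p.Prime] {k K V : Type*} [Field k] [Field K] [Algebra k K]
  [CharP K p] [Algebra (ZMod p) K] (S : PlaceSys p k K V)

theorem preper_bound (r : ℕ) (hr : 1 ≤ r) (N : ℚ) :
    ∃ B : ℕ, ∀ (a : ℕ → K) (b : K), a r ≠ 0 →
      (∃ i ≤ r, a i ≠ 0 ∧ ∃ v : V, mu p r a i (S.pl v) ≠ 0) →
      (∀ T : Finset V, ∑ v ∈ T, al a (S.pl v) ≤ N) →
      {x : K | ∃ m n : ℕ, m < n ∧
        (affMap p r a b)^[m] x = (affMap p r a b)^[n] x}.encard ≤ B := by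
  obtain ⟨B, hB⟩ := main2 p S r hr N
  exact ⟨p ^ B, fun a b har hNI hN => preper_of_dim p r a b B (hB a har hNI hN)⟩

/-- if all invariants vanish then the `j`-invariants are constants -/
theorem const_of_mu (r : ℕ) (a : ℕ → K) (i : ℕ) (har : a r ≠ 0) (hai : a i ≠ 0)
    (h : ∀ v : V, mu p r a i (S.pl v) = 0) :
    ∃ c : k, algebraMap k K c = a i ^ (p ^ r - 1) / a r ^ (p ^ i - 1) := by
  refine S.const _ (div_ne_zero (pow_ne_zero _ hai) (pow_ne_zero _ har)) fun v => ?_
  rw [o_div _ _ _ (pow_ne_zero _ hai) (pow_ne_zero _ har), o_pow _ _ hai, o_pow _ _ har]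
  have h1 := h v
  unfold mu at h1
  have h2 : 1 ≤ p ^ r := Nat.one_le_pow _ _ (Fact.out : p.Prime).pos
  have h3 : 1 ≤ p ^ i := Nat.one_le_pow _ _ (Fact.out : p.Prime).pos
  push_cast [Nat.cast_sub h2, Nat.cast_sub h3]
  exact h1

end place

end Pool.Agent.Helper34.Add
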