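import Pool.Agent.Helper34.AddCore

/-!
# The primitive case
-/

set_option autoImplicit false
set_option linter.unusedSectionVars false
set_option linter.style.haveILetI false

namespace Pool.Agent.Helper34.Add

open Pool.Agent.Helper33 Finset Polynomial

section final

variable (p : ℕ) [hp : Fact p.Prime] {k K V : Type*} [Field k] [Field K] [Algebra k K]
  [CharP K p] [Algebra (ZMod p) K] (S : PlaceSys p k K V)

theorem al_pos (a : ℕ → K) (v : DV K) (h : 0 < al a v) :
    1 ≤ al a v ∧ a 0 ≠ 0 ∧ al a v = -(v.o (a 0) : ℚ) := by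
  unfold al at h ⊢
  by_cases h0 : a 0 = 0
  · rw [if_pos h0] at h; exact absurd h (lt_irrefl _)
  · rw [if_neg h0] at h ⊢
    have h1 : 0 < -(v.o (a 0) : ℚ) := by
      by_contra hcon
      push Not at hcon
      rw [max_eq_left hcon] at h
      exact lt_irrefl _ h
    rw [max_eq_right h1.le]
    refine ⟨?_, h0, rfl⟩
    have h2 : (0 : ℤ) < -(v.o (a 0)) := by exact_mod_cast h1
    have h3 : (1 : ℤ) ≤ -(v.o (a 0)) := h2
    exact_mod_cast h3

theorem final_bound (r : ℕ) (hr : 1 ≤ r) (a : ℕ → K) (har : a r ≠ 0)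
    (W : Submodule (ZMod p) K) [FiniteDimensional (ZMod p) W] (hW : ∀ w ∈ W, addMap p r a w ∈ W)
    (T : Finset V) (hTa : Sup S T (a r)) (hTW : ∀ w ∈ W, w ≠ 0 → Sup S T w)
    (hne : ∃ v ∈ T, 0 < eta p r a (S.pl v) ∨ 0 < al a (S.pl v)) :
    (Module.finrank (ZMod p) W : ℚ) ≤
      3 * r * ((p : ℚ) ^ (2 * r) * ∑ v ∈ T, eta p r a (S.pl v) + ∑ v ∈ T, al a (S.pl v)) := by
  classical
  by_contra hcon
  push Not at hcon
  set Vb := T.filter (fun v => 0 < eta p r a (S.pl v) ∨ 0 < al a (S.pl v)) with hVb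
  have hcard : (#Vb : ℚ) ≤
      (p : ℚ) ^ (2 * r) * ∑ v ∈ T, eta p r a (S.pl v) + ∑ v ∈ T, al a (S.pl v) := by
    rw [Finset.mul_sum, ← Finset.sum_add_distrib]
    calc (#Vb : ℚ) = ∑ v ∈ Vb, (1 : ℚ) := by simp
      _ ≤ ∑ v ∈ Vb, ((p : ℚ) ^ (2 * r) * eta p r a (S.pl v) + al a (S.pl v)) := by
          refine Finset.sum_le_sum fun v hv => ?_
          have h1 := (Finset.mem_filter.1 hv).2
          have h2 := eta_nonneg p r hr a har (S.pl v)
          have h3 := al_nonneg a (S.pl v)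
          rcases h1 with h1 | h1
          · have := eta_lower p r hr a har (S.pl v) h1
            linarith
          · have := (al_pos a (S.pl v) h1).1
            have : 0 ≤ (p : ℚ) ^ (2 * r) * eta p r a (S.pl v) := by positivity
            linarith
      _ ≤ ∑ v ∈ T, ((p : ℚ) ^ (2 * r) * eta p r a (S.pl v) + al a (S.pl v)) := by
          refine Finset.sum_le_sum_of_subset_of_nonneg (Finset.filter_subset _ _) ?_
          intro v _ _
          have h2 := eta_nonneg p r hr a har (S.pl v)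
          have h3 := al_nonneg a (S.pl v)
          positivity
  let s : V → ℚ := fun v => s0 p r a (S.pl v) +
    (2 * eta p r a (S.pl v) + al a (S.pl v)) / 2 ^ 2 - al a (S.pl v)
  have hjd : ∀ v, jd p (S.pl v) W (s v) ≤ 3 * r := by
    intro v
    have h1 := jd_iter p r hr a har (S.pl v) W hW 2
    rcases (al_nonneg a (S.pl v)).eq_or_lt with h | h
    · have : s v = s0 p r a (S.pl v) + (2 * eta p r a (S.pl v) + al a (S.pl v)) / 2 ^ 2 := by
        simp only [s]; rw [← h, sub_zero]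
      rw [this]
      omega
    · obtain ⟨-, h0, h2⟩ := al_pos a (S.pl v) h
      have h3 := jd_pole p r a h0 (S.pl v) W hW
        (s0 p r a (S.pl v) + (2 * eta p r a (S.pl v) + al a (S.pl v)) / 2 ^ 2)
      have : s v = s0 p r a (S.pl v) + (2 * eta p r a (S.pl v) + al a (S.pl v)) / 2 ^ 2 +
          ((S.pl v).o (a 0) : ℚ) := by
        simp only [s]
        rw [sub_eq_add_neg]
        congr 1
        rw [h2]; ring
      rw [this]
      omega
  have hsum : ∑ v ∈ Vb, jd p (S.pl v) W (s v) < Module.finrank (ZMod p) W := by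
    have h1 : ∑ v ∈ Vb, jd p (S.pl v) W (s v) ≤ 3 * r * #Vb := by
      calc _ ≤ ∑ v ∈ Vb, 3 * r := Finset.sum_le_sum fun v _ => hjd v
        _ = 3 * r * #Vb := by rw [Finset.sum_const, smul_eq_mul, mul_comm]
    have h2 : ((3 * r * #Vb : ℕ) : ℚ) < Module.finrank (ZMod p) W := by
      push_cast
      refine lt_of_le_of_lt ?_ hcon
      exact mul_le_mul_of_nonneg_left hcard (by positivity)
    have h3 : 3 * r * #Vb < Module.finrank (ZMod p) W := by exact_mod_cast h2
    omega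
  obtain ⟨w, hwW, hw0, hw⟩ := exists_small_all p S.pl W Vb s hsum
  have hprodw := prod_formula S T w hw0 (hTW w hwW hw0)
  have hproda := prod_formula S T (a r) har hTa
  have hg : ∑ v ∈ T, gv p r a (S.pl v) = 0 := by
    unfold gv
    rw [← Finset.sum_div, hproda, zero_div]
  have hterm : ∀ v ∈ T, -((S.pl v).o w : ℚ) - gv p r a (S.pl v) ≤ 0 ∧
      ((0 < eta p r a (S.pl v) ∨ 0 < al a (S.pl v)) →
        -((S.pl v).o w : ℚ) - gv p r a (S.pl v) < 0) := by
    intro v hv
    have h2 := eta_nonneg p r hr a har (S.pl v)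
    have h3 := al_nonneg a (S.pl v)
    have h4 : s0 p r a (S.pl v) = gv p r a (S.pl v) - eta p r a (S.pl v) := by
      unfold eta; ring
    by_cases hvb : v ∈ Vb
    · have h5 := (hw v hvb).of_ne hw0
      simp only [s] at h5
      rw [h4] at h5
      refine ⟨by linarith, fun h => ?_⟩
      rcases h with h | h <;> linarith
    · have h6 : ¬ (0 < eta p r a (S.pl v) ∨ 0 < al a (S.pl v)) := fun h =>
        hvb (Finset.mem_filter.2 ⟨hv, h⟩)
      refine ⟨?_, fun h => absurd h h6⟩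
      push Not at h6
      have h7 := (W_bound p r hr a har (S.pl v) W hW w hwW).of_ne hw0
      linarith
  have hlt : ∑ v ∈ T, (-((S.pl v).o w : ℚ) - gv p r a (S.pl v)) < 0 := by
    refine Finset.sum_neg' (fun v hv => (hterm v hv).1) ?_
    obtain ⟨v, hv, h⟩ := hne
    exact ⟨v, hv, (hterm v hv).2 h⟩
  rw [Finset.sum_sub_distrib, hg, Finset.sum_neg_distrib, hprodw] at hlt
  linarith

end final

section coll

variable (p : ℕ) [hp : Fact p.Prime] {K : Type*} [Field K] [CharP K p] [Algebra (ZMod p) K]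

theorem nocoll_i (r : ℕ) (a : ℕ → K) (v : DV K) (hα : al a v = 0) (y : K) (hy : y ≠ 0)
    (hys : Le v (s0 p r a v) y) (Q A : (ZMod p)[X])
    (hA : aeval (Fe p r a) A (aeval (Fe p r a) Q y) = y) :
    v.o (aeval (Fe p r a) Q y) = v.o y := by
  have h0 : aeval (Fe p r a) Q y ≠ 0 := by
    intro h
    rw [h, map_zero] at hA
    exact hy hA.symm
  have hst : ∀ s : ℚ, s ≤ s0 p r a v → ∀ (P : (ZMod p)[X]) (x : K), Le v s x →
      Le v s (aeval (Fe p r a) P x) := by
    intro s hs P x hx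
    exact aeval_mem p (Fe p r a) (DS p v s) (fun z hz => addMap_le p r a v hα s hs z hz) P x hx
  have h1 := (hst _ (hys.of_ne hy) Q y (Le.self y)).of_ne h0
  have h2 := (hst _ (h1.trans (hys.of_ne hy)) A _ (Le.self _)).of_ne (by rw [hA]; exact hy)
  rw [hA] at h2
  have h3 : (v.o (aeval (Fe p r a) Q y) : ℚ) = v.o y := by linarith
  exact_mod_cast h3

theorem nocoll_ii (r : ℕ) (a : ℕ → K) (v : DV K) (hα : al a v = 0) (Q : (ZMod p)[X])
    (hQ0 : aeval (a 0) Q ≠ 0) (hQ : v.o (aeval (a 0) Q) = 0) (x : K) (hx : x ≠ 0)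
    (hxs : -(v.o x : ℚ) < s0 p r a v) :
    aeval (Fe p r a) Q x ≠ 0 ∧ v.o (aeval (Fe p r a) Q x) = v.o x := by
  have h1 := aeval_approx p r a v hα _ hxs x (Le.self x) Q
  have h2 : aeval (a 0) Q * x ≠ 0 := mul_ne_zero hQ0 hx
  have h3 : v.o (aeval (a 0) Q * x) = v.o x := by rw [v.mul _ _ hQ0 hx, hQ, zero_add]
  have h4 : Lt v (-(v.o (aeval (a 0) Q * x) : ℚ)) (aeval (Fe p r a) Q x - aeval (a 0) Q * x) := by
    rw [h3]; exact h1
  have h5 := add_dom h2 h4
  rw [add_sub_cancel] at h5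
  rw [h3] at h5
  exact h5

theorem nocoll_ii_iter (r : ℕ) (a : ℕ → K) (v : DV K) (hα : al a v = 0) (Q : (ZMod p)[X])
    (hQ0 : aeval (a 0) Q ≠ 0) (hQ : v.o (aeval (a 0) Q) = 0) (x : K) (hx : x ≠ 0)
    (hxs : -(v.o x : ℚ) < s0 p r a v) (n : ℕ) :
    ((aeval (Fe p r a) Q) ^ n) x ≠ 0 ∧ v.o (((aeval (Fe p r a) Q) ^ n) x) = v.o x := by
  induction n with
  | zero => simpa using hx
  | succ n ih =>
    rw [pow_succ', Module.End.mul_apply]
    have h1 := nocoll_ii p r a v hα Q hQ0 hQ _ ih.1 (by rw [ih.2]; exact hxs)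
    exact ⟨h1.1, h1.2.trans ih.2⟩

/-- the polynomial with coefficients `c` -/
noncomputable def Qc (m : ℕ) (c : Fin m → ZMod p) : (ZMod p)[X] := ∑ i, C (c i) * X ^ (i : ℕ)

theorem Qc_coeff (m : ℕ) (c : Fin m → ZMod p) (i : Fin m) : (Qc p m c).coeff i = c i := by
  unfold Qc
  rw [finsetSum_coeff, Finset.sum_eq_single i]
  · simp
  · intro j _ hj
    rw [coeff_C_mul_X_pow, if_neg]
    intro h
    exact hj (Fin.ext h).symm
  · intro h; exact absurd (Finset.mem_univ _) h

theorem Qc_ne_zero (m : ℕ) (c : Fin m → ZMod p) (hc : c ≠ 0) : Qc p m c ≠ 0 := by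
  intro h
  apply hc
  funext i
  rw [← Qc_coeff p m c i, h, coeff_zero]
  rfl

theorem aeval_Qc (r : ℕ) (a : ℕ → K) (m : ℕ) (y : K) (c : Fin m → ZMod p) :
    aeval (Fe p r a) (Qc p m c) y = comb p r a m y c := by
  rw [comb_apply, Qc, map_sum, LinearMap.sum_apply]
  refine Finset.sum_congr rfl fun i _ => ?_
  rw [map_mul, aeval_C, map_pow, aeval_X, Module.End.mul_apply, Module.algebraMap_end_apply]

open Classical in
/-- product of all nonzero polynomials of degree `≤ 2r` -/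
noncomputable def Q0 (r : ℕ) : (ZMod p)[X] :=
  ∏ c ∈ Finset.univ.filter (fun c : Fin (2 * r + 1) → ZMod p => c ≠ 0), Qc p (2 * r + 1) c

theorem Q0_ne_zero (r : ℕ) : Q0 p r ≠ 0 := by
  unfold Q0
  rw [Finset.prod_ne_zero_iff]
  intro c hc
  exact Qc_ne_zero p _ c (Finset.mem_filter.1 hc).2

theorem Qc_dvd_Q0 (r : ℕ) (c : Fin (2 * r + 1) → ZMod p) (hc : c ≠ 0) :
    Qc p (2 * r + 1) c ∣ Q0 p r := by
  unfold Q0
  exact Finset.dvd_prod_of_mem _ (Finset.mem_filter.2 ⟨Finset.mem_univ _, hc⟩)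

theorem hli_of (r : ℕ) (a : ℕ → K) (y : K)
    (h : ∀ c : Fin (2 * r + 1) → ZMod p, c ≠ 0 → comb p r a (2 * r + 1) y c ≠ 0) :
    LinearIndependent (ZMod p) (fun i : Fin (2 * r + 1) => (Fe p r a ^ (i : ℕ)) y) := by
  rw [linearIndependent_iff_injective_fintypeLinearCombination]
  change Function.Injective (comb p r a (2 * r + 1) y)
  rw [injective_iff_map_eq_zero]
  intro c hc
  by_contra h0
  exact h c h0 hc

/-- size of a polynomial in `a_0` -/
theorem aeval_a0_le (a : ℕ → K) (v : DV K) (Q : (ZMod p)[X]) :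
    Le v (Q.natDegree * al a v) (aeval (a 0) Q) := by
  have hα := al_nonneg a v
  rw [aeval_eq_sum_range, ← mem_DS p]
  refine (DS p v _).sum_mem fun i hi => (DS p v _).smul_mem _ ?_
  rw [mem_DS]
  have h0 : Le v (al a v) (a 0) := by
    by_cases h : a 0 = 0
    · exact Or.inl h
    · exact Or.inr (le_al a v h)
  refine (h0.pow i).mono ?_
  rw [mem_range] at hi
  refine mul_le_mul_of_nonneg_right ?_ hα
  exact_mod_cast (by omega : i ≤ Q.natDegree)

end coll

section count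

variable (p : ℕ) [hp : Fact p.Prime] {k K V : Type*} [Field k] [Field K] [Algebra k K]
  [CharP K p] [Algebra (ZMod p) K] (S : PlaceSys p k K V)

theorem card_zeros (a : ℕ → K) (T : Finset V) (Q : (ZMod p)[X]) (hQ0 : aeval (a 0) Q ≠ 0)
    (hT : Sup S T (aeval (a 0) Q)) :
    (#(T.filter fun v => 0 < (S.pl v).o (aeval (a 0) Q)) : ℚ) ≤
      Q.natDegree * ∑ v ∈ T, al a (S.pl v) := by
  classical
  have h1 := prod_formula S T _ hQ0 hT
  set c := aeval (a 0) Q with hc
  have h2 : ∀ v ∈ T, (if 0 < (S.pl v).o c then (1 : ℚ) else 0) - Q.natDegree * al a (S.pl v) ≤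
      (S.pl v).o c := by
    intro v _
    have h3 := (aeval_a0_le p a (S.pl v) Q).of_ne hQ0
    rw [← hc] at h3
    have h4 : (0 : ℚ) ≤ Q.natDegree * al a (S.pl v) := mul_nonneg (Nat.cast_nonneg _) (al_nonneg _ _)
    split_ifs with h
    · have : (1 : ℚ) ≤ (S.pl v).o c := by exact_mod_cast h
      linarith
    · linarith
  have h3 := Finset.sum_le_sum h2
  rw [h1, Finset.sum_sub_distrib, ← Finset.mul_sum] at h3
  have h4 : ∑ v ∈ T, (if 0 < (S.pl v).o c then (1 : ℚ) else 0) =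
      #(T.filter fun v => 0 < (S.pl v).o c) := by
    rw [← Finset.sum_filter]; simp
  rw [h4] at h3
  linarith

theorem card_eta (r : ℕ) (hr : 1 ≤ r) (a : ℕ → K) (har : a r ≠ 0) (T : Finset V) (M : ℚ)
    (hM : 0 < M) : (#(T.filter fun v => M < eta p r a (S.pl v)) : ℚ) ≤
      (∑ v ∈ T, eta p r a (S.pl v)) / M := by
  classical
  rw [le_div_iff₀ hM]
  calc (#(T.filter fun v => M < eta p r a (S.pl v)) : ℚ) * M
      = ∑ v ∈ T.filter (fun v => M < eta p r a (S.pl v)), M := by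
        rw [Finset.sum_const, nsmul_eq_mul]
    _ ≤ ∑ v ∈ T.filter (fun v => M < eta p r a (S.pl v)), eta p r a (S.pl v) :=
        Finset.sum_le_sum fun v hv => (Finset.mem_filter.1 hv).2.le
    _ ≤ _ := Finset.sum_le_sum_of_subset_of_nonneg (Finset.filter_subset _ _)
        fun v _ _ => eta_nonneg p r hr a har (S.pl v)

theorem card_al (a : ℕ → K) (T : Finset V) : (#(T.filter fun v => 0 < al a (S.pl v)) : ℚ) ≤
      ∑ v ∈ T, al a (S.pl v) := by
  classical
  calc (#(T.filter fun v => 0 < al a (S.pl v)) : ℚ)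
      = ∑ v ∈ T.filter (fun v => 0 < al a (S.pl v)), (1 : ℚ) := by simp
    _ ≤ ∑ v ∈ T.filter (fun v => 0 < al a (S.pl v)), al a (S.pl v) :=
        Finset.sum_le_sum fun v hv => (al_pos a _ (Finset.mem_filter.1 hv).2).1
    _ ≤ _ := Finset.sum_le_sum_of_subset_of_nonneg (Finset.filter_subset _ _)
        fun v _ _ => al_nonneg a (S.pl v)

end count

section prim

variable (p : ℕ) [hp : Fact p.Prime] {k K V : Type*} [Field k] [Field K] [Algebra k K]
  [CharP K p] [Algebra (ZMod p) K] (S : PlaceSys p k K V)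

/-- the threshold `M` -/
def Mc (r : ℕ) : ℕ := 8 * p ^ (2 * r + 1)

/-- the exponent -/
def nc (r : ℕ) : ℕ := 2 * p ^ r * Mc p r

/-- `J` -/
def Jc (r : ℕ) : ℕ := (p ^ (r * nc p r)).factorial

theorem Jc_pos (r : ℕ) : 1 ≤ Jc p r := Nat.factorial_pos _

/-- The key: a good element exists in a large stable subspace. -/
theorem exists_good (r : ℕ) (hr : 1 ≤ r) (a : ℕ → K) (har : a r ≠ 0)
    (W : Submodule (ZMod p) K) [FiniteDimensional (ZMod p) W] (hW : ∀ w ∈ W, addMap p r a w ∈ W)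
    (hbig : 2 * r * Jc p r + r * (Q0 p r).natDegree < Module.finrank (ZMod p) W)
    (Q' : (ZMod p)[X]) (htr : aeval (a 0) Q' ≠ 0)
    (hnil : ∀ x ∈ W, ∀ n : ℕ, aeval (Fe p r a) (Q0 p r ^ n) x = 0 →
      ∃ m : ℕ, aeval (Fe p r a) (Q' ^ m) x = 0) :
    ∃ y ∈ W, y ≠ 0 ∧ (∀ c : Fin (2 * r + 1) → ZMod p, c ≠ 0 → comb p r a (2 * r + 1) y c ≠ 0) ∧
      ∀ v : DV K, al a v = 0 → eta p r a v ≤ Mc p r → v.o (aeval (a 0) Q') = 0 →
        ∀ c : Fin (2 * r + 1) → ZMod p, c ≠ 0 → v.o (comb p r a (2 * r + 1) y c) = v.o y := by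
  classical
  set F := Fe p r a with hF
  set J := Jc p r with hJ
  set g := aeval F (Q0 p r) with hg
  set Y := W.map (aeval F (PJ p J)) with hY
  have hYW : Y ≤ W := by
    rintro _ ⟨w, hw, rfl⟩
    exact aeval_mem p F W hW _ w hw
  haveI : FiniteDimensional (ZMod p) Y := Submodule.finiteDimensional_of_le hYW
  have hYst : ∀ (P : (ZMod p)[X]), ∀ y ∈ Y, aeval F P y ∈ Y := by
    rintro P _ ⟨w, hw, rfl⟩
    refine ⟨aeval F P w, aeval_mem p F W hW P w hw, ?_⟩
    rw [← Module.End.mul_apply, ← Module.End.mul_apply, ← map_mul, ← map_mul, mul_comm]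
  have hYs : ∀ v : DV K, al a v = 0 → eta p r a v ≤ Mc p r → ∀ y ∈ Y, Le v (s0 p r a v) y := by
    rintro v hα hη _ ⟨w, hw, rfl⟩
    refine Jtrick p r hr a har v hα W hW (nc p r) ?_ w hw
    have h1 : nc p r < 2 ^ nc p r := Nat.lt_two_pow_self
    have h2 : (p : ℚ) ^ r * (2 * eta p r a v) ≤ nc p r := by
      unfold nc
      push_cast
      have : (0 : ℚ) ≤ (p : ℚ) ^ r := by positivity
      nlinarith
    calc (p : ℚ) ^ r * (2 * eta p r a v) ≤ nc p r := h2
      _ < 2 ^ nc p r := by exact_mod_cast h1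
  have hYdim : r * (Q0 p r).natDegree < Module.finrank (ZMod p) Y := by
    have h1 := finrank_map_aeval p r hr a har (PJ p J) (PJ_ne_zero p J (Jc_pos p r)) W
    have h2 : r * (PJ p J).natDegree ≤ 2 * r * J := by
      calc r * (PJ p J).natDegree ≤ r * (2 * J) := Nat.mul_le_mul_left _ (PJ_natDegree_le p J)
        _ = 2 * r * J := by ring
    change Module.finrank (ZMod p) W ≤ Module.finrank (ZMod p) Y + _ at h1
    omega
  -- an element not killed by `g`
  obtain ⟨y', hy'Y, hy'⟩ : ∃ y ∈ Y, g y ≠ 0 := by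
    by_contra hcon
    push Not at hcon
    have := finrank_le_of_aeval_eq_zero p r hr a har (Q0 p r) (Q0_ne_zero p r) Y hcon
    omega
  by_cases hcase : ∃ y ∈ Y, ∀ n : ℕ, (g ^ n) y ≠ 0
  · -- case (i)
    obtain ⟨y, hyY, hy⟩ := hcase
    have hgn : ∀ n : ℕ, (g ^ n) y ∈ Y := by
      intro n
      rw [hg, ← map_pow]
      exact hYst _ y hyY
    haveI : Finite Y := Module.finite_of_finite (ZMod p)
    obtain ⟨m, n, hmn, heq⟩ : ∃ m n : ℕ, m < n ∧ (g ^ m) y = (g ^ n) y := by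
      obtain ⟨m, n, hmn, heq⟩ := Finite.exists_ne_map_eq_of_infinite
        (fun n : ℕ => (⟨(g ^ n) y, hgn n⟩ : Y))
      have heq' : (g ^ m) y = (g ^ n) y := congrArg Subtype.val heq
      rcases lt_or_gt_of_ne hmn with h | h
      · exact ⟨m, n, h, heq'⟩
      · exact ⟨n, m, h, heq'.symm⟩
    set y₁ := (g ^ m) y with hy₁
    obtain ⟨e, he⟩ : ∃ e, n = m + (e + 1) := ⟨n - m - 1, by omega⟩
    have hcyc : (g ^ (e + 1)) y₁ = y₁ := by
      rw [hy₁, ← Module.End.mul_apply, ← pow_add, add_comm (e + 1) m, ← he, ← heq]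
    have hA : ∀ c : Fin (2 * r + 1) → ZMod p, c ≠ 0 → ∃ A : (ZMod p)[X],
        aeval F A (aeval F (Qc p (2 * r + 1) c) y₁) = y₁ := by
      intro c hc
      obtain ⟨R, hR⟩ := Qc_dvd_Q0 p r c hc
      refine ⟨R * Q0 p r ^ e, ?_⟩
      rw [← Module.End.mul_apply, ← map_mul]
      have h1 : R * Q0 p r ^ e * Qc p (2 * r + 1) c = Q0 p r ^ (e + 1) := by
        calc R * Q0 p r ^ e * Qc p (2 * r + 1) c = Q0 p r ^ e * (Qc p (2 * r + 1) c * R) := by ring
          _ = Q0 p r ^ e * Q0 p r := by rw [← hR]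
          _ = Q0 p r ^ (e + 1) := (pow_succ _ _).symm
      rw [h1, map_pow]
      exact hcyc
    refine ⟨y₁, hYW (hgn m), hy m, ?_, ?_⟩
    · intro c hc h0
      obtain ⟨A, hA⟩ := hA c hc
      rw [aeval_Qc, h0, map_zero] at hA
      exact hy m hA.symm
    · intro v hα hη _ c hc
      obtain ⟨A, hA⟩ := hA c hc
      rw [← aeval_Qc]
      exact nocoll_i p r a v hα y₁ (hy m) (hYs v hα hη y₁ (hgn m)) _ A hA
  · -- case (ii)
    push Not at hcase
    have hy'0 : y' ≠ 0 := by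
      rintro rfl
      exact hy' (map_zero _)
    have hc0 : ∀ c : Fin (2 * r + 1) → ZMod p, c ≠ 0 → comb p r a (2 * r + 1) y' c ≠ 0 := by
      intro c hc h0
      obtain ⟨R, hR⟩ := Qc_dvd_Q0 p r c hc
      apply hy'
      rw [hg, hR, mul_comm, map_mul, Module.End.mul_apply, hF, aeval_Qc, h0, map_zero]
    refine ⟨y', hYW hy'Y, hy'0, hc0, ?_⟩
    intro v hα hη hQ c hc
    have hsz : ∀ x ∈ Y, x ≠ 0 → -(v.o x : ℚ) = s0 p r a v := by
      intro x hx hx0
      refine le_antisymm ((hYs v hα hη x hx).of_ne hx0) ?_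
      by_contra hcon
      push Not at hcon
      obtain ⟨n, hn⟩ := hcase x hx
      rw [hg, ← map_pow] at hn
      obtain ⟨m, hm⟩ := hnil x (hYW hx) n hn
      rw [map_pow] at hm
      exact (nocoll_ii_iter p r a v hα Q' htr hQ x hx0 hcon m).1 hm
    have h1 : comb p r a (2 * r + 1) y' c ∈ Y := by
      rw [← aeval_Qc]; exact hYst _ y' hy'Y
    have h2 := hsz _ h1 (hc0 c hc)
    have h3 := hsz y' hy'Y hy'0
    have h4 : (v.o (comb p r a (2 * r + 1) y' c) : ℚ) = v.o y' := by linarith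
    exact_mod_cast h4

/-- bound for the total complexity -/
noncomputable def Hc (r : ℕ) (N E : ℚ) : ℚ :=
  4 * N + 8 * p ^ (2 * r + 1) * ((1 + (Q0 p r).natDegree) * N + E)

/-- **Primitive case** -/
theorem prim_bound (r : ℕ) (hr : 1 ≤ r) (a : ℕ → K) (har : a r ≠ 0)
    (W : Submodule (ZMod p) K) [FiniteDimensional (ZMod p) W] (hW : ∀ w ∈ W, addMap p r a w ∈ W)
    (T : Finset V) (hTa : Sup S T (a r)) (hTW : ∀ w ∈ W, w ≠ 0 → Sup S T w)
    (Q' : (ZMod p)[X]) (hQd : Q'.natDegree ≤ (Q0 p r).natDegree)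
    (hTc : Sup S T (aeval (a 0) Q'))
    (htr : aeval (a 0) Q' ≠ 0)
    (hnil : ∀ x ∈ W, ∀ n : ℕ, aeval (Fe p r a) (Q0 p r ^ n) x = 0 →
      ∃ m : ℕ, aeval (Fe p r a) (Q' ^ m) x = 0)
    (hprim : ∀ y ∈ W, y ≠ 0 → ∃ i ≤ r, S.D (a i * y ^ (p ^ i - 1)) ≠ 0)
    (hne : ∃ v ∈ T, 0 < eta p r a (S.pl v) ∨ 0 < al a (S.pl v))
    (N : ℚ) (hN : ∑ v ∈ T, al a (S.pl v) ≤ N) :
    (Module.finrank (ZMod p) W : ℚ) ≤ (2 * r * Jc p r + r * (Q0 p r).natDegree : ℕ) +
      3 * r * ((p : ℚ) ^ (2 * r) * Hc p r N (Etot S) + N) := by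
  classical
  have hα0 : 0 ≤ ∑ v ∈ T, al a (S.pl v) := Finset.sum_nonneg fun v _ => al_nonneg a (S.pl v)
  have hN0 : 0 ≤ N := hα0.trans hN
  have hHc : 0 ≤ Hc p r N (Etot S) := by
    unfold Hc
    positivity
  rcases le_or_gt (Module.finrank (ZMod p) W) (2 * r * Jc p r + r * (Q0 p r).natDegree) with h | h
  · have h1 : (Module.finrank (ZMod p) W : ℚ) ≤ (2 * r * Jc p r + r * (Q0 p r).natDegree : ℕ) := by
      exact_mod_cast h
    have h2 : 0 ≤ 3 * r * ((p : ℚ) ^ (2 * r) * Hc p r N (Etot S) + N) := by positivity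
    linarith
  · obtain ⟨y, hyW, hy0, hc0, hS⟩ := exists_good p r hr a har W hW h Q' htr hnil
    have hli := hli_of p r a y hc0
    obtain ⟨i, hi⟩ := exists_D p S r hr a y hy0 hli (hprim y hyW hy0)
    set M : ℚ := ((Mc p r : ℕ) : ℚ) with hM
    have hMpos : 0 < M := by
      rw [hM]; unfold Mc
      have := (Fact.out : p.Prime).pos
      positivity
    set S₁ : Finset V := T.filter (fun v => M < eta p r a (S.pl v)) ∪
      (T.filter (fun v => 0 < al a (S.pl v)) ∪
        T.filter (fun v => 0 < (S.pl v).o (aeval (a 0) Q'))) with hS₁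
    have hcore := core p S r hr a har W hW T hTa hTW y hyW hy0 hli S₁ (by
      intro v hv c hc
      by_cases hvT : v ∈ T
      · simp only [hS₁, Finset.mem_union, Finset.mem_filter, not_or, not_and, not_lt] at hv
        have hα : al a (S.pl v) = 0 := le_antisymm (hv.2.1 hvT) (al_nonneg a _)
        refine hS (S.pl v) hα (hv.1 hvT) ?_ c hc
        refine le_antisymm (hv.2.2 hvT) ?_
        have h3 := (aeval_a0_le p a (S.pl v) Q').of_ne htr
        rw [hα, mul_zero] at h3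
        have h4 : (0 : ℚ) ≤ (S.pl v).o (aeval (a 0) Q') := by linarith
        exact_mod_cast h4
      · have h5 : comb p r a (2 * r + 1) y c ∈ W := by
          rw [← aeval_Qc]; exact aeval_mem p (Fe p r a) W hW _ y hyW
        rw [hTW _ h5 (hc0 c hc) v hvT, hTW y hyW hy0 v hvT]) ⟨i, hi⟩
    set H := ∑ v ∈ T, eta p r a (S.pl v) with hH
    have hcard : (#S₁ : ℚ) ≤ H / M + (1 + (Q0 p r).natDegree) * N := by
      have e1 := card_eta p S r hr a har T M hMpos
      have e2 := card_al p S a T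
      have e3 := card_zeros p S a T Q' htr hTc
      have e4 : #S₁ ≤ #(T.filter (fun v => M < eta p r a (S.pl v))) +
          (#(T.filter (fun v => 0 < al a (S.pl v))) +
            #(T.filter (fun v => 0 < (S.pl v).o (aeval (a 0) Q')))) :=
        (Finset.card_union_le _ _).trans (Nat.add_le_add_left (Finset.card_union_le _ _) _)
      have e5 : (#S₁ : ℚ) ≤ #(T.filter (fun v => M < eta p r a (S.pl v))) +
          (#(T.filter (fun v => 0 < al a (S.pl v))) +
            #(T.filter (fun v => 0 < (S.pl v).o (aeval (a 0) Q')))) := by exact_mod_cast e4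
      have e6 : (Q'.natDegree : ℚ) * ∑ v ∈ T, al a (S.pl v) ≤ (Q0 p r).natDegree * N :=
        mul_le_mul (by exact_mod_cast hQd) hN hα0 (Nat.cast_nonneg _)
      have e7 : (1 + ((Q0 p r).natDegree : ℚ)) * N = N + (Q0 p r).natDegree * N := by ring
      linarith
    have hHbound : H ≤ Hc p r N (Etot S) := by
      have hP : (0 : ℚ) < (p : ℚ) ^ (2 * r + 1) := by
        have := (Fact.out : p.Prime).pos
        positivity
      have h1 : (p : ℚ) ^ (2 * r + 1) * (2 * (#S₁ + Etot S)) ≤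
          (p : ℚ) ^ (2 * r + 1) * (2 * (H / M + (1 + (Q0 p r).natDegree) * N + Etot S)) := by
        refine mul_le_mul_of_nonneg_left ?_ hP.le
        linarith
      have h2 : (p : ℚ) ^ (2 * r + 1) * (2 * (H / M + (1 + (Q0 p r).natDegree) * N + Etot S)) =
          H / 4 + 2 * p ^ (2 * r + 1) * ((1 + (Q0 p r).natDegree) * N + Etot S) := by
        rw [hM]; unfold Mc
        push_cast
        field_simp
        ring
      rw [h2] at h1
      unfold Hc
      have h3 := hcore.trans h1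
      linarith
    have h3 := final_bound p S r hr a har W hW T hTa hTW hne
    refine h3.trans ?_
    have h4 : 3 * r * ((p : ℚ) ^ (2 * r) * H + ∑ v ∈ T, al a (S.pl v)) ≤
        3 * r * ((p : ℚ) ^ (2 * r) * Hc p r N (Etot S) + N) := by
      refine mul_le_mul_of_nonneg_left ?_ (by positivity)
      have : (p : ℚ) ^ (2 * r) * H ≤ (p : ℚ) ^ (2 * r) * Hc p r N (Etot S) :=
        mul_le_mul_of_nonneg_left hHbound (by positivity)
      linarith
    have h5 : (0 : ℚ) ≤ (2 * r * Jc p r + r * (Q0 p r).natDegree : ℕ) := Nat.cast_nonneg _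
    linarith

end prim

end Pool.Agent.Helper34.Add
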