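import Pool.Agent.Helper34.AddMain

/-!
# Special characteristic: multiplier algebraic over the prime field
-/

set_option autoImplicit false
set_option linter.unusedSectionVars false
set_option linter.style.haveILetI false

namespace Pool.Agent.Helper34.Add

open Pool.Agent.Helper33 Finset Polynomial

section loc

variable (p : ℕ) [hp : Fact p.Prime] {K : Type*} [Field K] [CharP K p] [Algebra (ZMod p) K]

theorem o_algebraic (v : DV K) (α : K) (hα : α ≠ 0) (h : IsAlgebraic (ZMod p) α) : v.o α = 0 := by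
  have hint := h.isIntegral
  haveI : FiniteDimensional (ZMod p) (IntermediateField.adjoin (ZMod p) {α}) :=
    IntermediateField.adjoin.finiteDimensional hint
  haveI : Finite (IntermediateField.adjoin (ZMod p) {α}) := Module.finite_of_finite (ZMod p)
  let β : IntermediateField.adjoin (ZMod p) {α} :=
    ⟨α, IntermediateField.mem_adjoin_simple_self (ZMod p) α⟩
  have hβ : β ≠ 0 := fun h => hα (congrArg Subtype.val h)
  obtain ⟨n, hn, hn1⟩ := isOfFinOrder_iff_pow_eq_one.1 (isOfFinOrder_of_finite (Units.mk0 β hβ))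
  have h1 : β ^ n = 1 := by
    have := congrArg Units.val hn1
    simpa using this
  have h2 : α ^ n = 1 := congrArg Subtype.val h1
  have h3 := congrArg v.o h2
  rw [o_pow v α hα, o_one] at h3
  rcases mul_eq_zero.1 h3 with h4 | h4
  · exact absurd (by exact_mod_cast h4) hn.ne'
  · exact h4

theorem al_algebraic (a : ℕ → K) (v : DV K) (h : IsAlgebraic (ZMod p) (a 0)) : al a v = 0 := by
  unfold al
  split_ifs with h0
  · rfl
  · rw [o_algebraic p v _ h0 h]; simp

theorem addMap_approx' (r : ℕ) (a : ℕ → K) (v : DV K) (s : ℚ)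
    (hs : s ≤ s0 p r a v) (x : K) (hx : Le v s x) :
    Le v (s0 p r a v - p * (s0 p r a v - s)) (addMap p r a x - a 0 * x) := by
  have heq : addMap p r a x - a 0 * x = ∑ i ∈ range r, a (i + 1) * x ^ p ^ (i + 1) := by
    rw [addMap_apply, Finset.sum_range_succ', pow_zero, pow_one]
    ring
  rw [heq]
  refine Le.sum _ _ fun i hi => ?_
  by_cases hai : a (i + 1) = 0
  · left; rw [hai, zero_mul]
  rw [mem_range] at hi
  have h1 : Le v (-(v.o (a (i + 1)) : ℚ) + (p ^ (i + 1) : ℕ) * s) (a (i + 1) * x ^ p ^ (i + 1)) :=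
    (Le.self _).mul (hx.pow _)
  refine h1.mono ?_
  have h4 := s0_le p r a v (i + 1) (by omega) (by omega) hai
  have h6 : (p : ℚ) ≤ (p : ℚ) ^ (i + 1) := by
    calc (p : ℚ) = (p : ℚ) ^ 1 := (pow_one _).symm
      _ ≤ (p : ℚ) ^ (i + 1) := pow_le_pow_right₀ (one_lt_p p).le (by omega)
  have h7 : 0 ≤ ((p : ℚ) ^ (i + 1) - p) * (s0 p r a v - s) := by
    apply mul_nonneg <;> linarith
  push_cast at h4 ⊢
  linarith

theorem super_le (r : ℕ) (a : ℕ → K) (v : DV K) (s : ℚ) (hs : s ≤ s0 p r a v) :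
    s0 p r a v - p * (s0 p r a v - s) ≤ s := by
  have := two_le_p p
  nlinarith

theorem pow_approx' (r : ℕ) (a : ℕ → K) (v : DV K) (hα : al a v = 0) (s : ℚ)
    (hs : s ≤ s0 p r a v) (x : K) (hx : Le v s x) (n : ℕ) :
    Le v (s0 p r a v - p * (s0 p r a v - s)) ((Fe p r a ^ n) x - a 0 ^ n * x) := by
  induction n with
  | zero =>
    left
    simp
  | succ n ih =>
    have h1 : (Fe p r a ^ (n + 1)) x - a 0 ^ (n + 1) * x =
        addMap p r a ((Fe p r a ^ n) x - a 0 ^ n * x) +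
        (addMap p r a (a 0 ^ n * x) - a 0 * (a 0 ^ n * x)) := by
      rw [pow_succ', Module.End.mul_apply, map_sub]
      ring
    rw [h1]
    refine (addMap_le p r a v hα _ ((super_le p r a v s hs).trans hs) _ ih).add ?_
    exact addMap_approx' p r a v s hs _ (mul_const_le a v hα s x hx n)

theorem aeval_approx' (r : ℕ) (a : ℕ → K) (v : DV K) (hα : al a v = 0) (s : ℚ)
    (hs : s ≤ s0 p r a v) (x : K) (hx : Le v s x) (P : (ZMod p)[X]) :
    Le v (s0 p r a v - p * (s0 p r a v - s)) (aeval (Fe p r a) P x - aeval (a 0) P * x) := by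
  have h1 : aeval (Fe p r a) P x - aeval (a 0) P * x =
      ∑ i ∈ range (P.natDegree + 1), P.coeff i • ((Fe p r a ^ i) x - a 0 ^ i * x) := by
    rw [aeval_eq_sum_range, aeval_eq_sum_range, LinearMap.sum_apply, Finset.sum_mul,
      ← Finset.sum_sub_distrib]
    refine Finset.sum_congr rfl fun i _ => ?_
    rw [LinearMap.smul_apply, smul_sub, smul_mul_assoc]
  rw [h1, ← mem_DS p]
  refine (DS p v _).sum_mem fun i _ => (DS p v _).smul_mem _ ?_
  exact pow_approx' p r a v hα s hs x hx i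

/-- iterated superattraction -/
theorem super_iter (r : ℕ) (a : ℕ → K) (v : DV K) (hα : al a v = 0) (l : (ZMod p)[X])
    (hl : aeval (a 0) l = 0) (x : K) (hx : x ≠ 0) (hxs : -(v.o x : ℚ) ≤ s0 p r a v) (n : ℕ)
    (hn : aeval (Fe p r a) (l ^ n) x ≠ 0) :
    (p : ℚ) ^ n * (s0 p r a v + v.o x) ≤ s0 p r a v + v.o (aeval (Fe p r a) (l ^ n) x) := by
  induction n with
  | zero => simp
  | succ n ih =>
    have e1 : aeval (Fe p r a) (l ^ (n + 1)) x = aeval (Fe p r a) l (aeval (Fe p r a) (l ^ n) x) := by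
      rw [pow_succ', map_mul, Module.End.mul_apply]
    rw [e1] at hn ⊢
    have h0 : aeval (Fe p r a) (l ^ n) x ≠ 0 := by
      intro h; rw [h, map_zero] at hn; exact hn rfl
    have h1 := ih h0
    set z := aeval (Fe p r a) (l ^ n) x with hz
    have hpn : (0 : ℚ) ≤ (p : ℚ) ^ n := by positivity
    have hzs : -(v.o z : ℚ) ≤ s0 p r a v := by
      have : 0 ≤ (p : ℚ) ^ n * (s0 p r a v + v.o x) := mul_nonneg hpn (by linarith)
      linarith
    have h2 := aeval_approx' p r a v hα _ hzs z (Le.self z) l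
    rw [hl, zero_mul, sub_zero] at h2
    have h3 := h2.of_ne hn
    have h4 := two_le_p p
    have h5 : (p : ℚ) * ((p : ℚ) ^ n * (s0 p r a v + v.o x)) ≤ p * (s0 p r a v + v.o z) :=
      mul_le_mul_of_nonneg_left h1 (by linarith)
    rw [pow_succ']
    linarith

theorem s0_gap (r : ℕ) (hr : 1 ≤ r) (a : ℕ → K) (har : a r ≠ 0) (v : DV K) (x : K)
    (hx : -(v.o x : ℚ) < s0 p r a v) : 1 ≤ (p : ℚ) ^ r * (s0 p r a v + v.o x) := by
  obtain ⟨i, hi1, hir, hai, hi⟩ := exists_s0_eq p r hr a har v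
  have h6 := one_le_pow_sub p i hi1
  have h1 : 0 < (v.o (a i) : ℚ) + (p ^ i - 1) * v.o x := by
    rw [← hi]
    nlinarith
  have h2 : (1 : ℚ) ≤ (v.o (a i) : ℚ) + (p ^ i - 1) * v.o x := by
    have h3 : (0 : ℤ) < (v.o (a i)) + (p ^ i - 1) * v.o x := by exact_mod_cast h1
    have h4 : (1 : ℤ) ≤ (v.o (a i)) + (p ^ i - 1) * v.o x := h3
    exact_mod_cast h4
  rw [← hi] at h2
  have h5 : (p : ℚ) ^ i ≤ (p : ℚ) ^ r := pow_le_pow_right₀ (one_lt_p p).le hir
  nlinarith

theorem eta_lower_div (r : ℕ) (hr : 1 ≤ r) (a : ℕ → K) (har : a r ≠ 0) (v : DV K) (m : ℕ)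
    (hdiv : ∀ i ≤ r, a i ≠ 0 → ((p : ℤ) ^ m) ∣ mu p r a i v)
    (h : 0 < eta p r a v) : (p : ℚ) ^ m ≤ (p : ℚ) ^ (2 * r) * eta p r a v := by
  obtain ⟨i, hi1, hir, hai, hi⟩ := exists_s0_eq p r hr a har v
  have hg := gv_mul p r hr a v
  have h1 : ((p : ℚ) ^ r - 1) * (p ^ i - 1) * eta p r a v = -(mu p r a i v : ℚ) := by
    unfold mu
    push_cast
    rw [← hi, ← hg]
    unfold eta
    ring
  have hi2 := one_le_pow_sub p i hi1
  have hr2 := one_le_pow_sub p r hr
  have hpos : (0 : ℚ) < -(mu p r a i v : ℚ) := by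
    rw [← h1]
    have : 0 < ((p : ℚ) ^ r - 1) * (p ^ i - 1) := by nlinarith
    exact mul_pos this h
  have hint : (p : ℚ) ^ m ≤ -(mu p r a i v : ℚ) := by
    have h2 : (0 : ℤ) < -(mu p r a i v) := by exact_mod_cast hpos
    have h3 : ((p : ℤ) ^ m) ∣ -(mu p r a i v) := (hdiv i hir hai).neg_right
    have h4 := Int.le_of_dvd h2 h3
    exact_mod_cast h4
  rw [← h1] at hint
  refine hint.trans ?_
  refine mul_le_mul_of_nonneg_right ?_ h.le
  have h4 : (p : ℚ) ^ i ≤ (p : ℚ) ^ r := pow_le_pow_right₀ (one_lt_p p).le hir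
  have h5 : (p : ℚ) ^ (2 * r) = (p : ℚ) ^ r * (p : ℚ) ^ r := by rw [two_mul, pow_add]
  rw [h5]
  have h6 : (1 : ℚ) ≤ (p : ℚ) ^ r := by linarith
  nlinarith

end loc

section glob

variable (p : ℕ) [hp : Fact p.Prime] {k K V : Type*} [Field k] [Field K] [Algebra k K]
  [CharP K p] [Algebra (ZMod p) K] (S : PlaceSys p k K V)

/-- total collision bound -/
theorem total_coll (r : ℕ) (hr : 1 ≤ r) (a : ℕ → K) (har : a r ≠ 0)
    (hal : ∀ v, al a (S.pl v) = 0)
    (W : Submodule (ZMod p) K) [FiniteDimensional (ZMod p) W] (hW : ∀ w ∈ W, addMap p r a w ∈ W)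
    (T : Finset V) (hTa : Sup S T (a r)) (y : K) (hyW : y ∈ W) (hy : y ≠ 0) (hTy : Sup S T y) :
    ∑ v ∈ T, max 0 (s0 p r a (S.pl v) + (S.pl v).o y) ≤ ∑ v ∈ T, eta p r a (S.pl v) := by
  have h1 : ∀ v ∈ T, max 0 (s0 p r a (S.pl v) + (S.pl v).o y) ≤
      (gv p r a (S.pl v) + (S.pl v).o y) + eta p r a (S.pl v) := by
    intro v _
    have h2 := (W_bound p r hr a har (S.pl v) W hW y hyW).of_ne hy
    rw [hal v] at h2
    have h3 := eta_nonneg p r hr a har (S.pl v)
    have h4 : s0 p r a (S.pl v) = gv p r a (S.pl v) - eta p r a (S.pl v) := by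
      unfold eta; ring
    rw [h4]
    refine max_le ?_ ?_ <;> linarith
  refine (Finset.sum_le_sum h1).trans (le_of_eq ?_)
  have hprody := prod_formula S T y hy hTy
  have hproda := prod_formula S T (a r) har hTa
  have hg : ∑ v ∈ T, gv p r a (S.pl v) = 0 := by
    unfold gv
    rw [← Finset.sum_div, hproda, zero_div]
  rw [Finset.sum_add_distrib, Finset.sum_add_distrib, hg, hprody]
  ring

/-- number of collisions of an element with long orbit -/
theorem card_coll (r : ℕ) (hr : 1 ≤ r) (a : ℕ → K) (har : a r ≠ 0)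
    (hal : ∀ v, al a (S.pl v) = 0)
    (W : Submodule (ZMod p) K) [FiniteDimensional (ZMod p) W] (hW : ∀ w ∈ W, addMap p r a w ∈ W)
    (T : Finset V) (hTa : Sup S T (a r)) (hTW : ∀ w ∈ W, w ≠ 0 → Sup S T w)
    (l : (ZMod p)[X]) (hl : aeval (a 0) l = 0) (x : K) (hxW : x ∈ W) (n : ℕ)
    (hn : aeval (Fe p r a) (l ^ n) x ≠ 0) :
    (p : ℚ) ^ n * #(T.filter fun v => -((S.pl v).o x : ℚ) < s0 p r a (S.pl v)) ≤
      (p : ℚ) ^ r * ∑ v ∈ T, eta p r a (S.pl v) := by
  classical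
  have hx : x ≠ 0 := by
    rintro rfl
    exact hn (map_zero _)
  set z := aeval (Fe p r a) (l ^ n) x with hz
  have hzW : z ∈ W := aeval_mem p (Fe p r a) W hW _ x hxW
  have h1 := total_coll p S r hr a har hal W hW T hTa z hzW hn (hTW z hzW hn)
  have hpn : (0 : ℚ) ≤ (p : ℚ) ^ n := by positivity
  have hpr : (0 : ℚ) ≤ (p : ℚ) ^ r := by positivity
  have h2 : (p : ℚ) ^ n * #(T.filter fun v => -((S.pl v).o x : ℚ) < s0 p r a (S.pl v)) ≤
      (p : ℚ) ^ r * ∑ v ∈ T, max 0 (s0 p r a (S.pl v) + (S.pl v).o z) := by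
    calc (p : ℚ) ^ n * #(T.filter fun v => -((S.pl v).o x : ℚ) < s0 p r a (S.pl v))
        = ∑ v ∈ T.filter (fun v => -((S.pl v).o x : ℚ) < s0 p r a (S.pl v)), (p : ℚ) ^ n := by
          rw [Finset.sum_const, nsmul_eq_mul, mul_comm]
      _ ≤ ∑ v ∈ T.filter (fun v => -((S.pl v).o x : ℚ) < s0 p r a (S.pl v)),
          (p : ℚ) ^ r * max 0 (s0 p r a (S.pl v) + (S.pl v).o z) := by
          refine Finset.sum_le_sum fun v hv => ?_
          have h3 := (Finset.mem_filter.1 hv).2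
          have h4 := s0_gap p r hr a har (S.pl v) x h3
          have h5 := super_iter p r a (S.pl v) (hal v) l hl x hx h3.le n hn
          have h6 := le_max_right 0 (s0 p r a (S.pl v) + (S.pl v).o z)
          calc (p : ℚ) ^ n = p ^ n * 1 := (mul_one _).symm
            _ ≤ p ^ n * (p ^ r * (s0 p r a (S.pl v) + (S.pl v).o x)) :=
                mul_le_mul_of_nonneg_left h4 hpn
            _ = p ^ r * (p ^ n * (s0 p r a (S.pl v) + (S.pl v).o x)) := by ring
            _ ≤ p ^ r * max 0 (s0 p r a (S.pl v) + (S.pl v).o z) :=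
                mul_le_mul_of_nonneg_left (h5.trans h6) hpr
      _ ≤ ∑ v ∈ T, (p : ℚ) ^ r * max 0 (s0 p r a (S.pl v) + (S.pl v).o z) := by
          refine Finset.sum_le_sum_of_subset_of_nonneg (Finset.filter_subset _ _) ?_
          intro v _ _
          exact mul_nonneg hpr (le_max_left _ _)
      _ = (p : ℚ) ^ r * ∑ v ∈ T, max 0 (s0 p r a (S.pl v) + (S.pl v).o z) := by
          rw [Finset.mul_sum]
  exact h2.trans (mul_le_mul_of_nonneg_left h1 hpr)

/-- standing hypotheses in the special case -/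
structure Hyp (r : ℕ) (l : (ZMod p)[X]) (a : ℕ → K) (W : Submodule (ZMod p) K) : Prop where
  har : a r ≠ 0
  hal : ∀ v, al a (S.pl v) = 0
  hl : aeval (a 0) l = 0
  fin : FiniteDimensional (ZMod p) W
  stab : ∀ w ∈ W, addMap p r a w ∈ W
  nil : ∀ w ∈ W, ∃ n : ℕ, aeval (Fe p r a) (l ^ n) w = 0

variable {p S} in
theorem Hyp.untwist {r : ℕ} {l : (ZMod p)[X]} {a b : ℕ → K} {W : Submodule (ZMod p) K}
    (h : Hyp p S r l a W) {y : K} (hy : y ≠ 0)
    (hb : ∀ i ≤ r, b i ^ p = a i * y ^ (p ^ i - 1)) :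
    Hyp p S r l b (W.comap (twist p y)) := by
  have hp0 : p ≠ 0 := (Fact.out : p.Prime).ne_zero
  have hb0 : b 0 ^ p = a 0 := by
    have := hb 0 (Nat.zero_le _)
    rwa [pow_zero, Nat.sub_self, pow_zero, mul_one] at this
  haveI := h.fin
  refine ⟨?_, ?_, ?_, finiteDimensional_untwist p y hy W, ?_, ?_⟩
  · intro h0
    have := hb r le_rfl
    rw [h0, zero_pow hp0] at this
    exact mul_ne_zero h.har (pow_ne_zero _ hy) this.symm
  · intro v
    refine le_antisymm ?_ (al_nonneg b _)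
    rw [← h.hal v]
    exact al_untwist p r a b y hb (S.pl v)
  · have h1 := aeval_pow_p p (b 0) l
    rw [hb0, h.hl] at h1
    exact pow_eq_zero_iff hp0 |>.1 h1.symm
  · intro x hx
    rw [Submodule.mem_comap] at hx ⊢
    rw [← addMap_untwist p r a b y hb x]
    exact h.stab _ hx
  · intro x hx
    rw [Submodule.mem_comap] at hx
    obtain ⟨n, hn⟩ := h.nil _ hx
    refine ⟨n, ?_⟩
    apply twist_injective p y hy
    rw [← aeval_untwist p r a b y hb, hn, map_zero]

/-- `M` in the special case -/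
def M2 (r : ℕ) : ℕ := 16 * p ^ (2 * r + 1)

/-- depth in the special case -/
def n2 (r : ℕ) : ℕ := M2 p r * p ^ (3 * r + 1)

theorem n2_spec (r : ℕ) : (M2 p r : ℚ) * p ^ (3 * r + 1) ≤ (p : ℚ) ^ n2 p r := by
  have h1 : n2 p r < p ^ n2 p r := Nat.lt_pow_self (Fact.out : p.Prime).one_lt
  have h2 : ((n2 p r : ℕ) : ℚ) < ((p ^ n2 p r : ℕ) : ℚ) := by exact_mod_cast h1
  have h3 : ((n2 p r : ℕ) : ℚ) = (M2 p r : ℚ) * p ^ (3 * r + 1) := by
    unfold n2; push_cast; ring
  rw [h3] at h2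
  push_cast at h2
  exact h2.le

theorem natDegree_Qc_le (m : ℕ) (c : Fin (m + 1) → ZMod p) : (Qc p (m + 1) c).natDegree ≤ m := by
  unfold Qc
  refine natDegree_sum_le_of_forall_le _ _ fun i _ => ?_
  exact (natDegree_C_mul_X_pow_le _ _).trans (by omega)

/-- combinations keep long orbits -/
theorem comb_long (r : ℕ) (l : (ZMod p)[X]) (hirr : Irreducible l) (a : ℕ → K) (y : K) (n N : ℕ)
    (hN : aeval (Fe p r a) (l ^ N) y = 0)
    (hy : aeval (Fe p r a) (l ^ (n + 2 * r)) y ≠ 0) (c : Fin (2 * r + 1) → ZMod p) (hc : c ≠ 0) :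
    aeval (Fe p r a) (l ^ n) (comb p r a (2 * r + 1) y c) ≠ 0 := by
  intro h0
  apply hy
  have hQ := Qc_ne_zero p _ c hc
  obtain ⟨R, h1, h2⟩ :=
    (FiniteMultiplicity.of_not_isUnit hirr.not_isUnit hQ).exists_eq_pow_mul_and_not_dvd
  set j := multiplicity l (Qc p (2 * r + 1) c) with hj
  have hR0 : R ≠ 0 := by
    rintro rfl
    exact h2 (dvd_zero _)
  have hjle : j ≤ 2 * r := by
    have h3 := natDegree_Qc_le p (2 * r) c
    rw [h1, natDegree_mul (pow_ne_zero _ hirr.ne_zero) hR0, natDegree_pow] at h3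
    have h4 : 0 < l.natDegree := hirr.natDegree_pos
    nlinarith
  have hcop : IsCoprime (l ^ N) R := by
    refine IsCoprime.pow_left ?_
    rw [hirr.coprime_iff_not_dvd]
    exact h2
  obtain ⟨u, w, huw⟩ := hcop
  have h3 : l ^ (n + 2 * r) = l ^ (n + 2 * r) * u * l ^ N +
      l ^ (2 * r - j) * w * (l ^ n * (l ^ j * R)) := by
    have e1 : l ^ (n + 2 * r) = l ^ (2 * r - j) * (l ^ n * l ^ j) := by
      rw [← pow_add, ← pow_add]; congr 1; omega
    calc l ^ (n + 2 * r) = l ^ (n + 2 * r) * (u * l ^ N + w * R) := by rw [huw, mul_one]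
      _ = l ^ (n + 2 * r) * u * l ^ N + l ^ (n + 2 * r) * (w * R) := by ring
      _ = l ^ (n + 2 * r) * u * l ^ N + l ^ (2 * r - j) * (l ^ n * l ^ j) * (w * R) := by
          rw [← e1]
      _ = _ := by ring
  rw [← h1] at h3
  rw [h3, map_add, LinearMap.add_apply, map_mul _ _ (l ^ N), Module.End.mul_apply, hN, map_zero,
    zero_add, map_mul _ _ (l ^ n * Qc p (2 * r + 1) c), Module.End.mul_apply,
    map_mul _ (l ^ n), Module.End.mul_apply, aeval_Qc, h0, map_zero]

/-- **Lemma A** -/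
theorem lemmaA (r : ℕ) (hr : 1 ≤ r) (l : (ZMod p)[X]) (hirr : Irreducible l) (a : ℕ → K)
    (W : Submodule (ZMod p) K) (h : Hyp p S r l a W)
    (T : Finset V) (hTa : Sup S T (a r)) (hTW : ∀ w ∈ W, w ≠ 0 → Sup S T w)
    (y : K) (hyW : y ∈ W) (hy : aeval (Fe p r a) (l ^ (n2 p r + 2 * r)) y ≠ 0)
    (hprim : ∃ i ≤ r, S.D (a i * y ^ (p ^ i - 1)) ≠ 0)
    (SJ : Finset V) (hSJ : (#SJ : ℚ) ≤ (∑ v ∈ T, eta p r a (S.pl v)) / M2 p r)
    (hsm : ∀ v ∈ T, v ∉ SJ → ∀ c : Fin (2 * r + 1) → ZMod p,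
      Le (S.pl v) (s0 p r a (S.pl v)) (comb p r a (2 * r + 1) y c)) :
    ∑ v ∈ T, eta p r a (S.pl v) ≤ 8 * p ^ (2 * r + 1) * Etot S := by
  classical
  haveI := h.fin
  obtain ⟨N, hN⟩ := h.nil y hyW
  have hlong := fun c hc => comb_long p r l hirr a y (n2 p r) N hN hy c hc
  have hc0 : ∀ c : Fin (2 * r + 1) → ZMod p, c ≠ 0 → comb p r a (2 * r + 1) y c ≠ 0 := by
    intro c hc h0
    apply hlong c hc
    rw [h0, map_zero]
  have hcW : ∀ c : Fin (2 * r + 1) → ZMod p, comb p r a (2 * r + 1) y c ∈ W := by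
    intro c
    rw [← aeval_Qc]
    exact aeval_mem p (Fe p r a) W h.stab _ y hyW
  have hli := hli_of p r a y hc0
  have hy0 : y ≠ 0 := by
    rintro rfl
    exact hy (map_zero _)
  set H := ∑ v ∈ T, eta p r a (S.pl v) with hH
  have hH0 : 0 ≤ H := Finset.sum_nonneg fun v _ => eta_nonneg p r hr a h.har (S.pl v)
  set C : Finset (Fin (2 * r + 1) → ZMod p) := Finset.univ.filter (fun c => c ≠ 0) with hC
  set Sc : Finset V := C.biUnion (fun c => T.filter fun v =>
    -((S.pl v).o (comb p r a (2 * r + 1) y c) : ℚ) < s0 p r a (S.pl v)) with hSc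
  have hM : (0 : ℚ) < M2 p r := by
    unfold M2
    have := (Fact.out : p.Prime).pos
    positivity
  have hpp : (0 : ℚ) < p := by exact_mod_cast (Fact.out : p.Prime).pos
  have hScard : (#Sc : ℚ) ≤ H / M2 p r := by
    have h1 : #Sc ≤ ∑ c ∈ C, #(T.filter fun v =>
        -((S.pl v).o (comb p r a (2 * r + 1) y c) : ℚ) < s0 p r a (S.pl v)) := Finset.card_biUnion_le
    have h2 : ∀ c ∈ C, (p : ℚ) ^ n2 p r * #(T.filter fun v =>
        -((S.pl v).o (comb p r a (2 * r + 1) y c) : ℚ) < s0 p r a (S.pl v)) ≤ (p : ℚ) ^ r * H := by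
      intro c hc
      exact card_coll p S r hr a h.har h.hal W h.stab T hTa hTW l h.hl _ (hcW c) (n2 p r)
        (hlong c (Finset.mem_filter.1 hc).2)
    have h3 : (p : ℚ) ^ n2 p r * #Sc ≤ p ^ (2 * r + 1) * (p ^ r * H) := by
      calc (p : ℚ) ^ n2 p r * #Sc ≤ (p : ℚ) ^ n2 p r * ∑ c ∈ C, (#(T.filter fun v =>
            -((S.pl v).o (comb p r a (2 * r + 1) y c) : ℚ) < s0 p r a (S.pl v)) : ℚ) := by
            refine mul_le_mul_of_nonneg_left ?_ (by positivity)
            exact_mod_cast h1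
        _ = ∑ c ∈ C, (p : ℚ) ^ n2 p r * (#(T.filter fun v =>
            -((S.pl v).o (comb p r a (2 * r + 1) y c) : ℚ) < s0 p r a (S.pl v)) : ℚ) := by
            rw [Finset.mul_sum]
        _ ≤ ∑ c ∈ C, (p : ℚ) ^ r * H := Finset.sum_le_sum h2
        _ = #C * ((p : ℚ) ^ r * H) := by rw [Finset.sum_const, nsmul_eq_mul]
        _ ≤ p ^ (2 * r + 1) * (p ^ r * H) := by
            refine mul_le_mul_of_nonneg_right ?_ (by positivity)
            have h4 : #C ≤ p ^ (2 * r + 1) := by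
              refine (Finset.card_filter_le _ _).trans ?_
              rw [Finset.card_univ, Fintype.card_fun, ZMod.card, Fintype.card_fin]
            exact_mod_cast h4
    have h4 := n2_spec p r
    rw [le_div_iff₀ hM]
    have h5 : (M2 p r : ℚ) * p ^ (3 * r + 1) * #Sc ≤ p ^ (2 * r + 1) * (p ^ r * H) := by
      refine le_trans ?_ h3
      exact mul_le_mul_of_nonneg_right h4 (Nat.cast_nonneg _)
    have h6 : (p : ℚ) ^ (2 * r + 1) * (p ^ r * H) = p ^ (3 * r + 1) * H := by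
      rw [← mul_assoc, ← pow_add]; congr 2; ring
    rw [h6] at h5
    have h7 : (0 : ℚ) < (p : ℚ) ^ (3 * r + 1) := by positivity
    have h8 : (p : ℚ) ^ (3 * r + 1) * (#Sc * M2 p r) ≤ p ^ (3 * r + 1) * H := by linarith
    exact le_of_mul_le_mul_left h8 h7
  obtain ⟨i, hi⟩ := exists_D p S r hr a y hy0 hli hprim
  have he0 : comb p r a (2 * r + 1) y (Pi.single 0 1) = y := by
    rw [comb_single]; simp
  have hs0 : (Pi.single 0 1 : Fin (2 * r + 1) → ZMod p) ≠ 0 := by
    intro h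
    have := congrFun h 0
    simp at this
  have hcore := core p S r hr a h.har W h.stab T hTa hTW y hyW hy0 hli (SJ ∪ Sc) (by
    intro v hv c hc
    by_cases hvT : v ∈ T
    · rw [Finset.mem_union, not_or] at hv
      have hex : ∀ c : Fin (2 * r + 1) → ZMod p, c ≠ 0 →
          -((S.pl v).o (comb p r a (2 * r + 1) y c) : ℚ) = s0 p r a (S.pl v) := by
        intro c hc
        refine le_antisymm ((hsm v hvT hv.1 c).of_ne (hc0 c hc)) ?_
        by_contra hcon
        push Not at hcon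
        apply hv.2
        rw [hSc, Finset.mem_biUnion]
        exact ⟨c, Finset.mem_filter.2 ⟨Finset.mem_univ _, hc⟩, Finset.mem_filter.2 ⟨hvT, hcon⟩⟩
      have h1 := hex c hc
      have h2 := hex _ hs0
      rw [he0] at h2
      have h3 : ((S.pl v).o (comb p r a (2 * r + 1) y c) : ℚ) = (S.pl v).o y := by linarith
      exact_mod_cast h3
    · rw [hTW _ (hcW c) (hc0 c hc) v hvT, hTW y hyW hy0 v hvT]) ⟨i, hi⟩
  have hal0 : ∑ v ∈ T, al a (S.pl v) = 0 := Finset.sum_eq_zero fun v _ => h.hal v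
  rw [hal0, sub_zero] at hcore
  have hcard : (#(SJ ∪ Sc) : ℚ) ≤ 2 * (H / M2 p r) := by
    have h1 : (#(SJ ∪ Sc) : ℚ) ≤ #SJ + #Sc := by exact_mod_cast Finset.card_union_le _ _
    linarith
  have hP : (0 : ℚ) < (p : ℚ) ^ (2 * r + 1) := by positivity
  have h1 : (p : ℚ) ^ (2 * r + 1) * (2 * (#(SJ ∪ Sc) + Etot S)) ≤
      (p : ℚ) ^ (2 * r + 1) * (2 * (2 * (H / M2 p r) + Etot S)) := by
    refine mul_le_mul_of_nonneg_left ?_ hP.le
    linarith
  have h2 : (p : ℚ) ^ (2 * r + 1) * (2 * (2 * (H / M2 p r) + Etot S)) =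
      H / 4 + 2 * p ^ (2 * r + 1) * Etot S := by
    unfold M2
    push_cast
    field_simp
    ring
  rw [h2] at h1
  have h3 := hcore.trans h1
  linarith

end glob

end Pool.Agent.Helper34.Add
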