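import Pool.Agent.Helper34.AddSpec

/-!
# Special characteristic: the bound, and assembly
-/

set_option autoImplicit false
set_option linter.unusedSectionVars false
set_option linter.style.haveILetI false

namespace Pool.Agent.Helper34.Add

open Pool.Agent.Helper33 Finset Polynomial

section cases

variable (p : ℕ) [hp : Fact p.Prime] {k K V : Type*} [Field k] [Field K] [Algebra k K]
  [CharP K p] [Algebra (ZMod p) K] (S : PlaceSys p k K V)

/-- the `n` of the J-trick in the special case -/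
def nc2 (r : ℕ) : ℕ := 2 * p ^ r * M2 p r

/-- `J` in the special case -/
def J2 (r : ℕ) : ℕ := (p ^ (r * nc2 p r)).factorial

/-- the dimension bound in case A -/
noncomputable def BA (r D1 : ℕ) (E : ℚ) : ℚ :=
  (2 * r * J2 p r + r * ((n2 p r + 2 * r) * D1) : ℕ) +
    3 * r * ((p : ℚ) ^ (2 * r) * (8 * p ^ (2 * r + 1) * E))

/-- the isotriviality index -/
def NI (r : ℕ) (a : ℕ → K) (i : ℕ) (v : V) : Prop :=
  i ≤ r ∧ a i ≠ 0 ∧ mu p r a i (S.pl v) ≠ 0

theorem exists_T (r : ℕ) (hr : 1 ≤ r) (l : (ZMod p)[X]) (a : ℕ → K)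
    (W : Submodule (ZMod p) K) (h : Hyp p S r l a W) (i : ℕ) (v : V) (hNI : NI p S r a i v) :
    ∃ T : Finset V, Sup S T (a r) ∧ (∀ w ∈ W, w ≠ 0 → Sup S T w) ∧
      (∃ v ∈ T, 0 < eta p r a (S.pl v) ∨ 0 < al a (S.pl v)) := by
  classical
  haveI := h.fin
  obtain ⟨X, hX⟩ := finset_of_W p W
  obtain ⟨T, hT⟩ := exists_Sup_finset S (X ∪ (range (r + 1)).image a)
  have hTa : ∀ i ≤ r, a i ≠ 0 → Sup S T (a i) := fun i hi hai =>
    hT _ (Finset.mem_union_right _ (Finset.mem_image_of_mem a (mem_range.2 (by omega)))) hai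
  exact ⟨T, hTa r le_rfl h.har, fun w hw hw0 => hT w (by simp [hX, hw]) hw0,
    exists_bad p S r hr a h.har T hTa i hNI.1 hNI.2.1 v hNI.2.2⟩

theorem final_of_H (r : ℕ) (hr : 1 ≤ r) (l : (ZMod p)[X]) (a : ℕ → K)
    (W : Submodule (ZMod p) K) (h : Hyp p S r l a W) (T : Finset V) (hTa : Sup S T (a r))
    (hTW : ∀ w ∈ W, w ≠ 0 → Sup S T w)
    (hne : ∃ v ∈ T, 0 < eta p r a (S.pl v) ∨ 0 < al a (S.pl v)) (D1 : ℕ)
    (hH : ∑ v ∈ T, eta p r a (S.pl v) ≤ 8 * p ^ (2 * r + 1) * Etot S) :
    (Module.finrank (ZMod p) W : ℚ) ≤ BA p r D1 (Etot S) := by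
  haveI := h.fin
  have h3 := final_bound p S r hr a h.har W h.stab T hTa hTW hne
  have hal0 : ∑ v ∈ T, al a (S.pl v) = 0 := Finset.sum_eq_zero fun v _ => h.hal v
  rw [hal0, add_zero] at h3
  refine h3.trans ?_
  unfold BA
  have h4 : 3 * r * ((p : ℚ) ^ (2 * r) * ∑ v ∈ T, eta p r a (S.pl v)) ≤
      3 * r * ((p : ℚ) ^ (2 * r) * (8 * p ^ (2 * r + 1) * Etot S)) := by
    refine mul_le_mul_of_nonneg_left ?_ (by positivity)
    exact mul_le_mul_of_nonneg_left hH (by positivity)
  have h5 : (0 : ℚ) ≤ (2 * r * J2 p r + r * ((n2 p r + 2 * r) * D1) : ℕ) := Nat.cast_nonneg _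
  linarith

theorem caseA (r : ℕ) (hr : 1 ≤ r) (l : (ZMod p)[X]) (hirr : Irreducible l) (D1 : ℕ)
    (hD1 : l.natDegree ≤ D1) (a : ℕ → K)
    (W : Submodule (ZMod p) K) (h : Hyp p S r l a W) (i : ℕ) (v : V) (hNI : NI p S r a i v)
    (hprim : ∀ y ∈ W, y ≠ 0 → ∃ i ≤ r, S.D (a i * y ^ (p ^ i - 1)) ≠ 0) :
    (Module.finrank (ZMod p) W : ℚ) ≤ BA p r D1 (Etot S) := by
  classical
  haveI := h.fin
  obtain ⟨T, hTa, hTW, hne⟩ := exists_T p S r hr l a W h i v hNI
  rcases le_or_gt (Module.finrank (ZMod p) W) (2 * r * J2 p r + r * ((n2 p r + 2 * r) * D1)) with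
    hsm | hbig
  · unfold BA
    have h1 : (Module.finrank (ZMod p) W : ℚ) ≤
        (2 * r * J2 p r + r * ((n2 p r + 2 * r) * D1) : ℕ) := by exact_mod_cast hsm
    have h2 : (0 : ℚ) ≤ 3 * r * ((p : ℚ) ^ (2 * r) * (8 * p ^ (2 * r + 1) * Etot S)) := by positivity
    linarith
  · set F := Fe p r a with hF
    set J := J2 p r with hJ
    set Y := W.map (aeval F (PJ p J)) with hY
    have hYW : Y ≤ W := by
      rintro _ ⟨w, hw, rfl⟩
      exact aeval_mem p F W h.stab _ w hw
    haveI : FiniteDimensional (ZMod p) Y := Submodule.finiteDimensional_of_le hYW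
    have hYst : ∀ (P : (ZMod p)[X]), ∀ y ∈ Y, aeval F P y ∈ Y := by
      rintro P _ ⟨w, hw, rfl⟩
      refine ⟨aeval F P w, aeval_mem p F W h.stab P w hw, ?_⟩
      rw [← Module.End.mul_apply, ← Module.End.mul_apply, ← map_mul, ← map_mul, mul_comm]
    have hYs : ∀ v : V, eta p r a (S.pl v) ≤ M2 p r → ∀ y ∈ Y, Le (S.pl v) (s0 p r a (S.pl v)) y := by
      rintro v hη _ ⟨w, hw, rfl⟩
      refine Jtrick p r hr a h.har (S.pl v) (h.hal v) W h.stab (nc2 p r) ?_ w hw
      have h1 : nc2 p r < 2 ^ nc2 p r := Nat.lt_two_pow_self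
      have h2 : (p : ℚ) ^ r * (2 * eta p r a (S.pl v)) ≤ nc2 p r := by
        unfold nc2
        push_cast
        have : (0 : ℚ) ≤ (p : ℚ) ^ r := by positivity
        nlinarith
      calc (p : ℚ) ^ r * (2 * eta p r a (S.pl v)) ≤ nc2 p r := h2
        _ < 2 ^ nc2 p r := by exact_mod_cast h1
    have hYdim : r * ((n2 p r + 2 * r) * D1) < Module.finrank (ZMod p) Y := by
      have h1 := finrank_map_aeval p r hr a h.har (PJ p J) (PJ_ne_zero p J (Nat.factorial_pos _)) W
      have h2 : r * (PJ p J).natDegree ≤ 2 * r * J := by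
        calc r * (PJ p J).natDegree ≤ r * (2 * J) := Nat.mul_le_mul_left _ (PJ_natDegree_le p J)
          _ = 2 * r * J := by ring
      change Module.finrank (ZMod p) W ≤ Module.finrank (ZMod p) Y + _ at h1
      omega
    obtain ⟨y, hyY, hy⟩ : ∃ y ∈ Y, aeval F (l ^ (n2 p r + 2 * r)) y ≠ 0 := by
      by_contra hcon
      push Not at hcon
      have h1 := finrank_le_of_aeval_eq_zero p r hr a h.har (l ^ (n2 p r + 2 * r))
        (pow_ne_zero _ hirr.ne_zero) Y hcon
      rw [natDegree_pow] at h1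
      have h2 : r * ((n2 p r + 2 * r) * l.natDegree) ≤ r * ((n2 p r + 2 * r) * D1) :=
        Nat.mul_le_mul_left _ (Nat.mul_le_mul_left _ hD1)
      omega
    have hy0 : y ≠ 0 := by
      rintro rfl
      exact hy (map_zero _)
    have hM : (0 : ℚ) < M2 p r := by
      unfold M2
      have := (Fact.out : p.Prime).pos
      positivity
    have hH := lemmaA p S r hr l hirr a W h T hTa hTW y (hYW hyY) hy (hprim y (hYW hyY) hy0)
      (T.filter fun v => (M2 p r : ℚ) < eta p r a (S.pl v))
      (card_eta p S r hr a h.har T (M2 p r) hM) (by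
        intro v hvT hv c
        refine hYs v ?_ _ ?_
        · by_contra hcon
          push Not at hcon
          exact hv (Finset.mem_filter.2 ⟨hvT, hcon⟩)
        · rw [← aeval_Qc]; exact hYst _ y hyY)
    exact final_of_H p S r hr l a W h T hTa hTW hne D1 hH

/-- an imprimitive element -/
def Imp (r : ℕ) (a : ℕ → K) (y : K) : Prop := ∀ i ≤ r, S.D (a i * y ^ (p ^ i - 1)) = 0

theorem Imp.mem_range (r : ℕ) (hr : 1 ≤ r) (a : ℕ → K) (har : a r ≠ 0) (y z : K) (hy : y ≠ 0)
    (hz : z ≠ 0) (h1 : Imp p S r a y) (h2 : Imp p S r a z) : z ∈ LinearMap.range (twist p y) := by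
  have hpr : 1 ≤ p ^ r := Nat.one_le_pow _ _ (Fact.out : p.Prime).pos
  have e1 := h1 r le_rfl
  have e2 := h2 r le_rfl
  have h3 : a r * z ^ (p ^ r - 1) = (z / y) ^ (p ^ r - 1) * (a r * y ^ (p ^ r - 1)) := by
    rw [div_pow]
    field_simp
  rw [h3, S.D_mul, e1, mul_zero, zero_add] at e2
  have h4 : a r * y ^ (p ^ r - 1) ≠ 0 := mul_ne_zero har (pow_ne_zero _ hy)
  have h5 : S.D ((z / y) ^ (p ^ r - 1)) = 0 := by
    rcases mul_eq_zero.1 e2 with h | h
    · exact absurd h h4
    · exact h
  rw [D_pow] at h5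
  have h6 : ((p ^ r - 1 : ℕ) : K) ≠ 0 := by
    rw [Nat.cast_sub hpr]
    push_cast
    rw [CharP.cast_eq_zero K p, zero_pow (by omega)]
    simp
  have h7 : S.D (z / y) = 0 := by
    rcases mul_eq_zero.1 h5 with h | h
    · rcases mul_eq_zero.1 h with h | h
      · exact absurd h h6
      · exact absurd h (pow_ne_zero _ (div_ne_zero hz hy))
    · exact h
  exact mem_range_of_Ey p S y hy z h7

theorem caseB1 (r : ℕ) (hr : 1 ≤ r) (l : (ZMod p)[X]) (hirr : Irreducible l) (D1 : ℕ)
    (hD1 : l.natDegree ≤ D1) (a : ℕ → K)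
    (W : Submodule (ZMod p) K) (h : Hyp p S r l a W) (i : ℕ) (v : V) (hNI : NI p S r a i v)
    (hbad : ∀ v : V, 0 < eta p r a (S.pl v) → (M2 p r : ℚ) ≤ eta p r a (S.pl v))
    (y₀ : K) (hy₀W : y₀ ∈ W) (hy₀0 : y₀ ≠ 0) (hy₀ : ¬ Imp p S r a y₀) :
    (Module.finrank (ZMod p) W : ℚ) ≤ BA p r D1 (Etot S) := by
  classical
  haveI := h.fin
  obtain ⟨T, hTa, hTW, hne⟩ := exists_T p S r hr l a W h i v hNI
  rcases le_or_gt (Module.finrank (ZMod p) W) (2 * r * J2 p r + r * ((n2 p r + 2 * r) * D1)) with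
    hsm | hbig
  · unfold BA
    have h1 : (Module.finrank (ZMod p) W : ℚ) ≤
        (2 * r * J2 p r + r * ((n2 p r + 2 * r) * D1) : ℕ) := by exact_mod_cast hsm
    have h2 : (0 : ℚ) ≤ 3 * r * ((p : ℚ) ^ (2 * r) * (8 * p ^ (2 * r + 1) * Etot S)) := by positivity
    linarith
  · set F := Fe p r a with hF
    obtain ⟨z, hzW, hz⟩ : ∃ z ∈ W, aeval F (l ^ (n2 p r + 2 * r)) z ≠ 0 := by
      by_contra hcon
      push Not at hcon
      have h1 := finrank_le_of_aeval_eq_zero p r hr a h.har (l ^ (n2 p r + 2 * r))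
        (pow_ne_zero _ hirr.ne_zero) W hcon
      rw [natDegree_pow] at h1
      have h2 : r * ((n2 p r + 2 * r) * l.natDegree) ≤ r * ((n2 p r + 2 * r) * D1) :=
        Nat.mul_le_mul_left _ (Nat.mul_le_mul_left _ hD1)
      omega
    -- choose a primitive element with a long orbit
    obtain ⟨y, hyW, hyl, hyp⟩ : ∃ y ∈ W, aeval F (l ^ (n2 p r + 2 * r)) y ≠ 0 ∧ ¬ Imp p S r a y := by
      have hz0 : z ≠ 0 := by
        rintro rfl
        exact hz (map_zero _)
      by_cases hzi : Imp p S r a z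
      · by_cases hy₀l : aeval F (l ^ (n2 p r + 2 * r)) y₀ = 0
        · refine ⟨y₀ + z, W.add_mem hy₀W hzW, ?_, ?_⟩
          · rw [map_add, hy₀l, zero_add]; exact hz
          · intro hi
            have h0 : y₀ + z ≠ 0 := by
              intro h0
              have : aeval F (l ^ (n2 p r + 2 * r)) (y₀ + z) = 0 := by rw [h0, map_zero]
              rw [map_add, hy₀l, zero_add] at this
              exact hz this
            have h1 := Imp.mem_range p S r hr a h.har z (y₀ + z) hz0 h0 hzi hi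
            have h2 : z ∈ LinearMap.range (twist p z) := ⟨1, by rw [twist_apply]; ring⟩
            have h3 : y₀ ∈ LinearMap.range (twist p z) := by
              have := Submodule.sub_mem _ h1 h2
              rwa [add_sub_cancel_right] at this
            obtain ⟨u, hu⟩ := h3
            rw [twist_apply] at hu
            apply hy₀
            intro j hj
            have h4 : a j * y₀ ^ (p ^ j - 1) = (a j * z ^ (p ^ j - 1)) * (u ^ (p ^ j - 1)) ^ p := by
              rw [← hu]; ring
            rw [h4, S.D_mul, hzi j hj, mul_zero, add_zero]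
            have := D_pow_p S (u ^ (p ^ j - 1)) 1 le_rfl
            rw [pow_one] at this
            rw [this, mul_zero]
        · exact ⟨y₀, hy₀W, hy₀l, hy₀⟩
      · exact ⟨z, hzW, hz, hzi⟩
    have hM : (0 : ℚ) < M2 p r := by
      unfold M2
      have := (Fact.out : p.Prime).pos
      positivity
    have hprim : ∃ i ≤ r, S.D (a i * y ^ (p ^ i - 1)) ≠ 0 := by
      unfold Imp at hyp
      push Not at hyp
      exact hyp
    have hcard : (#(T.filter fun v => 0 < eta p r a (S.pl v)) : ℚ) ≤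
        (∑ v ∈ T, eta p r a (S.pl v)) / M2 p r := by
      rw [le_div_iff₀ hM]
      calc (#(T.filter fun v => 0 < eta p r a (S.pl v)) : ℚ) * M2 p r
          = ∑ v ∈ T.filter (fun v => 0 < eta p r a (S.pl v)), (M2 p r : ℚ) := by
            rw [Finset.sum_const, nsmul_eq_mul]
        _ ≤ ∑ v ∈ T.filter (fun v => 0 < eta p r a (S.pl v)), eta p r a (S.pl v) :=
            Finset.sum_le_sum fun v hv => hbad v (Finset.mem_filter.1 hv).2
        _ ≤ _ := Finset.sum_le_sum_of_subset_of_nonneg (Finset.filter_subset _ _)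
            fun v _ _ => eta_nonneg p r hr a h.har (S.pl v)
    have hH := lemmaA p S r hr l hirr a W h T hTa hTW y hyW hyl hprim
      (T.filter fun v => 0 < eta p r a (S.pl v)) hcard (by
        intro v hvT hv c
        have h1 : eta p r a (S.pl v) = 0 := by
          refine le_antisymm ?_ (eta_nonneg p r hr a h.har (S.pl v))
          by_contra hcon
          push Not at hcon
          exact hv (Finset.mem_filter.2 ⟨hvT, hcon⟩)
        have h2 : comb p r a (2 * r + 1) y c ∈ W := by
          rw [← aeval_Qc]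
          exact aeval_mem p F W h.stab _ y hyW
        have h3 := W_bound p r hr a h.har (S.pl v) W h.stab _ h2
        refine h3.mono (le_of_eq ?_)
        rw [h.hal v, h1]
        unfold eta at h1
        linarith)
    exact final_of_H p S r hr l a W h T hTa hTW hne D1 hH

/-- chains of successive untwistings -/
def Chain (r : ℕ) : ℕ → (ℕ → K) → Submodule (ZMod p) K → Prop
  | 0, _, _ => True
  | m + 1, a, W => ∃ y ∈ W, y ≠ 0 ∧ ∃ b : ℕ → K, (∀ i ≤ r, b i ^ p = a i * y ^ (p ^ i - 1)) ∧
      Chain r m b (W.comap (twist p y))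

theorem Chain.dvd (r : ℕ) (m : ℕ) (a : ℕ → K) (W : Submodule (ZMod p) K) (har : a r ≠ 0)
    (h : Chain p r m a W) (i : ℕ) (hi : i ≤ r) (hai : a i ≠ 0) (v : DV K) :
    ((p : ℤ) ^ m) ∣ mu p r a i v := by
  induction m generalizing a W with
  | zero => simp
  | succ m ih =>
    obtain ⟨y, -, hy, b, hb, hc⟩ := h
    have hp0 : p ≠ 0 := (Fact.out : p.Prime).ne_zero
    have hbne : ∀ j ≤ r, a j ≠ 0 → b j ≠ 0 := by
      intro j hj haj h0
      have := hb j hj
      rw [h0, zero_pow hp0] at this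
      exact mul_ne_zero haj (pow_ne_zero _ hy) this.symm
    rw [mu_untwist p r a b y hy hb i hi hai har v, pow_succ']
    exact mul_dvd_mul_left _ (ih b _ (hbne r le_rfl har) hc (hbne i hi hai))

theorem NI.untwist {r : ℕ} {a b : ℕ → K} {i : ℕ} {v : V} (h : NI p S r a i v) (har : a r ≠ 0)
    {y : K} (hy : y ≠ 0) (hb : ∀ i ≤ r, b i ^ p = a i * y ^ (p ^ i - 1)) :
    NI p S r b i v ∧ (mu p r b i (S.pl v)).natAbs < (mu p r a i (S.pl v)).natAbs := by
  have hp0 : p ≠ 0 := (Fact.out : p.Prime).ne_zero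
  have hmu := mu_untwist p r a b y hy hb i h.1 h.2.1 har (S.pl v)
  have hmub : mu p r b i (S.pl v) ≠ 0 := by
    intro h0
    rw [h0, mul_zero] at hmu
    exact h.2.2 hmu
  refine ⟨⟨h.1, ?_, hmub⟩, ?_⟩
  · intro h0
    have := hb i h.1
    rw [h0, zero_pow hp0] at this
    exact mul_ne_zero h.2.1 (pow_ne_zero _ hy) this.symm
  · rw [hmu, Int.natAbs_mul, Int.natAbs_natCast]
    have h1 : 0 < (mu p r b i (S.pl v)).natAbs := Int.natAbs_pos.2 hmub
    have h2 := (Fact.out : p.Prime).two_le
    nlinarith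

theorem finrank_le_untwist (r : ℕ) (hr : 1 ≤ r) (l : (ZMod p)[X]) (hirr : Irreducible l) (D1 : ℕ)
    (hD1 : l.natDegree ≤ D1) (a : ℕ → K)
    (W : Submodule (ZMod p) K) (h : Hyp p S r l a W) (y : K) (hy : y ≠ 0) (hyi : Imp p S r a y) :
    Module.finrank (ZMod p) W ≤ Module.finrank (ZMod p) (W.comap (twist p y)) + r * D1 := by
  haveI := h.fin
  haveI := finiteDimensional_untwist p y hy W
  have h1 := finrank_map_aeval p r hr a h.har l hirr.ne_zero W
  have h2 : W.map (aeval (Fe p r a) l) ≤ (W.comap (twist p y)).map (twist p y) := by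
    rintro _ ⟨w, hw, rfl⟩
    have h3 : Ey p S y (aeval (Fe p r a) l w) = 0 := by
      rw [Ey_aeval p S r a y hy hyi, h.hl, zero_mul]
    obtain ⟨u, hu⟩ := mem_range_of_Ey p S y hy _ h3
    refine ⟨u, ?_, hu⟩
    rw [SetLike.mem_coe, Submodule.mem_comap, hu]
    exact aeval_mem p (Fe p r a) W h.stab l w hw
  have h3 := Submodule.finrank_mono h2
  have h4 := (Submodule.equivMapOfInjective (twist p y) (twist_injective p y hy)
    (W.comap (twist p y))).finrank_eq
  rw [← h4] at h3
  have h5 : r * l.natDegree ≤ r * D1 := Nat.mul_le_mul_left _ hD1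
  omega

theorem caseB2 (r : ℕ) (hr : 1 ≤ r) (l : (ZMod p)[X]) (hirr : Irreducible l) (D1 : ℕ)
    (hD1 : l.natDegree ≤ D1) (i : ℕ) (v : V) (m : ℕ) (a : ℕ → K)
    (W : Submodule (ZMod p) K) (h : Hyp p S r l a W) (hNI : NI p S r a i v)
    (hc : ¬ Chain p r (m + 1) a W) :
    (Module.finrank (ZMod p) W : ℚ) ≤ BA p r D1 (Etot S) + m * (r * D1) := by
  induction m generalizing a W with
  | zero =>
    simp only [Nat.cast_zero, zero_mul, add_zero]
    refine caseA p S r hr l hirr D1 hD1 a W h i v hNI ?_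
    intro y hyW hy
    by_contra hcon
    push Not at hcon
    obtain ⟨b, hb⟩ := exists_untwist p S r a y hcon
    exact hc ⟨y, hyW, hy, b, hb, trivial⟩
  | succ m ih =>
    by_cases hprim : ∀ y ∈ W, y ≠ 0 → ∃ i ≤ r, S.D (a i * y ^ (p ^ i - 1)) ≠ 0
    · have h1 := caseA p S r hr l hirr D1 hD1 a W h i v hNI hprim
      refine h1.trans ?_
      have : (0 : ℚ) ≤ ((m + 1 : ℕ) : ℚ) * (r * D1) := by positivity
      linarith
    · push Not at hprim
      obtain ⟨y, hyW, hy, hyi⟩ := hprim
      obtain ⟨b, hb⟩ := exists_untwist p S r a y hyi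
      have h1 := ih b (W.comap (twist p y)) (h.untwist hy hb) (hNI.untwist p S h.har hy hb).1
        (fun hc' => hc ⟨y, hyW, hy, b, hb, hc'⟩)
      have h2 := finrank_le_untwist p S r hr l hirr D1 hD1 a W h y hy hyi
      have h3 : (Module.finrank (ZMod p) W : ℚ) ≤
          Module.finrank (ZMod p) (W.comap (twist p y)) + r * D1 := by exact_mod_cast h2
      push_cast
      linarith

/-- the bound in the special case, for `deg l ≤ D1` -/
theorem spec_bound (r : ℕ) (hr : 1 ≤ r) (l : (ZMod p)[X]) (hirr : Irreducible l) (D1 : ℕ)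
    (hD1 : l.natDegree ≤ D1) (i : ℕ) (v : V) (a : ℕ → K)
    (W : Submodule (ZMod p) K) (h : Hyp p S r l a W) (hNI : NI p S r a i v) :
    (Module.finrank (ZMod p) W : ℚ) ≤ BA p r D1 (Etot S) + (4 * r + 4 : ℕ) * (r * D1) := by
  have hBA : 0 ≤ BA p r D1 (Etot S) := by
    unfold BA
    positivity
  induction hn : (mu p r a i (S.pl v)).natAbs using Nat.strong_induction_on generalizing a W with
  | _ n ih =>
    by_cases hc : Chain p r (4 * r + 4 + 1) a W
    · by_cases hall : ∀ y ∈ W, y ≠ 0 → Imp p S r a y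
      · by_cases hbot : W = ⊥
        · rw [hbot, finrank_bot]
          positivity
        · obtain ⟨y, hyW, hy⟩ := Submodule.exists_mem_ne_zero_of_ne_bot hbot
          have hyi := hall y hyW hy
          obtain ⟨b, hb⟩ := exists_untwist p S r a y hyi
          have hWr : W ≤ LinearMap.range (twist p y) := by
            intro w hw
            by_cases hw0 : w = 0
            · rw [hw0]; exact Submodule.zero_mem _
            · exact Imp.mem_range p S r hr a h.har y w hy hw0 hyi (hall w hw hw0)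
          rw [← finrank_untwist p y hy W hWr]
          have hu := hNI.untwist p S h.har hy hb
          exact ih _ (by rw [← hn]; exact hu.2) b _ (h.untwist hy hb) hu.1 rfl
      · push Not at hall
        obtain ⟨y₀, hy₀W, hy₀0, hy₀⟩ := hall
        have h1 := caseB1 p S r hr l hirr D1 hD1 a W h i v hNI (by
          intro u hu
          have h2 := eta_lower_div p r hr a h.har (S.pl u) (4 * r + 4 + 1)
            (fun j hj haj => Chain.dvd p r _ a W h.har hc j hj haj (S.pl u)) hu
          have hp2 := two_le_p p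
          have h3 : (M2 p r : ℚ) * p ^ (2 * r) ≤ (p : ℚ) ^ (4 * r + 4 + 1) := by
            unfold M2
            push_cast
            have h4 : (16 : ℚ) ≤ (p : ℚ) ^ 4 := by
              calc (16 : ℚ) = 2 ^ 4 := by norm_num
                _ ≤ (p : ℚ) ^ 4 := pow_le_pow_left₀ (by norm_num) hp2 4
            have h5 : (p : ℚ) ^ (4 * r + 4 + 1) = p ^ 4 * (p ^ (2 * r + 1) * p ^ (2 * r)) := by
              rw [← pow_add, ← pow_add]; congr 1; ring
            rw [h5]
            have h6 : (0 : ℚ) ≤ p ^ (2 * r + 1) * p ^ (2 * r) := by positivity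
            nlinarith
          have h7 : (0 : ℚ) < (p : ℚ) ^ (2 * r) := by
            have := (Fact.out : p.Prime).pos
            positivity
          have h8 : (p : ℚ) ^ (2 * r) * M2 p r ≤ (p : ℚ) ^ (2 * r) * eta p r a (S.pl u) := by
            linarith
          exact le_of_mul_le_mul_left h8 h7) y₀ hy₀W hy₀0 hy₀
        refine h1.trans ?_
        have : (0 : ℚ) ≤ ((4 * r + 4 : ℕ) : ℚ) * (r * D1) := by positivity
        linarith
    · exact caseB2 p S r hr l hirr D1 hD1 i v (4 * r + 4) a W h hNI hc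

end cases

section degree

variable (p : ℕ) [hp : Fact p.Prime] {k K V : Type*} [Field k] [Field K] [Algebra k K]
  [CharP K p] [Algebra (ZMod p) K] (S : PlaceSys p k K V)

theorem natDegree_le_finrank (r : ℕ) (l : (ZMod p)[X]) (hirr : Irreducible l) (a : ℕ → K)
    (W : Submodule (ZMod p) K) [FiniteDimensional (ZMod p) W] (hW : ∀ w ∈ W, addMap p r a w ∈ W)
    (w : K) (hwW : w ∈ W) (hw : w ≠ 0) (hl : aeval (Fe p r a) l w = 0) :
    l.natDegree ≤ Module.finrank (ZMod p) W := by
  set m := l.natDegree with hm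
  have hne : ∀ c : Fin m → ZMod p, c ≠ 0 → comb p r a m w c ≠ 0 := by
    intro c hc h0
    have hQ := Qc_ne_zero p m c hc
    have hdeg : (Qc p m c).natDegree < m := by
      have hmpos : 0 < m := hirr.natDegree_pos
      unfold Qc
      refine lt_of_le_of_lt (natDegree_sum_le_of_forall_le (n := m - 1) _ _ fun i _ => ?_) (by omega)
      exact (natDegree_C_mul_X_pow_le _ _).trans (by omega)
    have hcop : IsCoprime l (Qc p m c) := by
      rw [hirr.coprime_iff_not_dvd]
      intro hd
      have := natDegree_le_of_dvd hd hQ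
      omega
    obtain ⟨u, t, hut⟩ := hcop
    have h1 : aeval (Fe p r a) (1 : (ZMod p)[X]) w = 0 := by
      rw [← hut, map_add, map_mul, map_mul, LinearMap.add_apply, Module.End.mul_apply,
        Module.End.mul_apply, hl, aeval_Qc, h0, map_zero, map_zero, add_zero]
    rw [map_one] at h1
    exact hw h1
  have hinj : Function.Injective (comb p r a m w) := by
    rw [injective_iff_map_eq_zero]
    intro c hc
    by_contra h0
    exact hne c h0 hc
  have h1 := LinearMap.finrank_range_of_inj hinj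
  rw [Module.finrank_fin_fun] at h1
  rw [← h1]
  refine Submodule.finrank_mono ?_
  rintro _ ⟨c, rfl⟩
  rw [← aeval_Qc]
  exact aeval_mem p (Fe p r a) W hW _ w hwW

/-- the degree of the minimal polynomial of the multiplier is bounded -/
theorem degree_bound (r : ℕ) (hr : 1 ≤ r) : ∃ D1 : ℕ, ∀ (l : (ZMod p)[X]), Irreducible l →
    ∀ (i : ℕ) (v : V) (a : ℕ → K) (W : Submodule (ZMod p) K), Hyp p S r l a W →
      NI p S r a i v → W ≠ ⊥ → (∀ w ∈ W, aeval (Fe p r a) l w = 0) → l.natDegree ≤ D1 := by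
  classical
  set bound : ℚ := (2 * r * Jc p r + r * (Q0 p r).natDegree : ℕ) +
      3 * r * ((p : ℚ) ^ (2 * r) * Hc p r 0 (Etot S) + 0) with hbound
  refine ⟨max (Q0 p r).natDegree ⌊bound⌋₊, ?_⟩
  intro l hirr i v a W h hNI hbot hkill
  by_contra hcon
  push Not at hcon
  have hlQ : (Q0 p r).natDegree < l.natDegree := lt_of_le_of_lt (le_max_left _ _) hcon
  have hlb : ⌊bound⌋₊ < l.natDegree := lt_of_le_of_lt (le_max_right _ _) hcon
  have hcop : IsCoprime l (Q0 p r) := by
    rw [hirr.coprime_iff_not_dvd]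
    intro hd
    have := natDegree_le_of_dvd hd (Q0_ne_zero p r)
    omega
  have hp0 : p ≠ 0 := (Fact.out : p.Prime).ne_zero
  induction hn : (mu p r a i (S.pl v)).natAbs using Nat.strong_induction_on generalizing a W with
  | _ n ih =>
    haveI := h.fin
    obtain ⟨w, hwW, hw⟩ := Submodule.exists_mem_ne_zero_of_ne_bot hbot
    by_cases hprim : ∀ y ∈ W, y ≠ 0 → ∃ i ≤ r, S.D (a i * y ^ (p ^ i - 1)) ≠ 0
    · have hQ0 : aeval (a 0) (Q0 p r) ≠ 0 := by
        intro h0
        obtain ⟨u, t, hut⟩ := hcop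
        have := congrArg (aeval (a 0)) hut
        rw [map_add, map_mul, map_mul, h.hl, h0, mul_zero, mul_zero, add_zero, map_one] at this
        exact zero_ne_one this
      obtain ⟨X, hX⟩ := finset_of_W p W
      obtain ⟨T, hT⟩ := exists_Sup_finset S (X ∪ ((range (r + 1)).image a ∪ {aeval (a 0) (Q0 p r)}))
      have hTW : ∀ w ∈ W, w ≠ 0 → Sup S T w := fun w hw hw0 =>
        hT w (by simp [hX, hw]) hw0
      have hTa : ∀ i ≤ r, a i ≠ 0 → Sup S T (a i) := fun i hi hai =>
        hT _ (Finset.mem_union_right _ (Finset.mem_union_left _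
          (Finset.mem_image_of_mem a (mem_range.2 (by omega))))) hai
      have hTc : Sup S T (aeval (a 0) (Q0 p r)) := hT _ (by simp) hQ0
      have h1 := prim_bound p S r hr a h.har W h.stab T (hTa r le_rfl h.har) hTW (Q0 p r)
        le_rfl hTc hQ0 (fun x _ n hn => ⟨n, hn⟩) hprim
        (exists_bad p S r hr a h.har T hTa i hNI.1 hNI.2.1 v hNI.2.2) 0
        (le_of_eq (Finset.sum_eq_zero fun v _ => h.hal v))
      have h2 := Nat.le_floor h1
      have h3 := natDegree_le_finrank p r l hirr a W h.stab w hwW hw (hkill w hwW)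
      have h4 : Module.finrank (ZMod p) W ≤ ⌊bound⌋₊ := h2
      omega
    · push Not at hprim
      obtain ⟨y, hyW, hy, hyi⟩ := hprim
      obtain ⟨b, hb⟩ := exists_untwist p S r a y hyi
      have hu := hNI.untwist p S h.har hy hb
      refine ih _ (by rw [← hn]; exact hu.2) b _ (h.untwist hy hb) hu.1 ?_ ?_ rfl
      · intro h0
        have h1 : (1 : K) ∈ W.comap (twist p y) := by
          rw [Submodule.mem_comap, twist_apply, one_pow, mul_one]
          exact hyW
        rw [h0, Submodule.mem_bot] at h1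
        exact one_ne_zero h1
      · intro x hx
        rw [Submodule.mem_comap] at hx
        apply twist_injective p y hy
        rw [← aeval_untwist p r a b y hb, hkill _ hx, map_zero]

end degree

section assembly

variable (p : ℕ) [hp : Fact p.Prime] {k K V : Type*} [Field k] [Field K] [Algebra k K]
  [CharP K p] [Algebra (ZMod p) K] (S : PlaceSys p k K V)

theorem exists_killer (r : ℕ) (a : ℕ → K)
    (W : Submodule (ZMod p) K) [FiniteDimensional (ZMod p) W] (hW : ∀ w ∈ W, addMap p r a w ∈ W)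
    (w : K) (hw : w ∈ W) : ∃ P : (ZMod p)[X], P ≠ 0 ∧ aeval (Fe p r a) P w = 0 := by
  have hpow : ∀ n : ℕ, (Fe p r a ^ n) w ∈ W := by
    intro n
    have := aeval_mem p (Fe p r a) W hW (X ^ n) w hw
    simpa using this
  haveI : Finite W := Module.finite_of_finite (ZMod p)
  obtain ⟨m, n, hmn, heq⟩ : ∃ m n : ℕ, m < n ∧ (Fe p r a ^ m) w = (Fe p r a ^ n) w := by
    obtain ⟨m, n, hmn, heq⟩ := Finite.exists_ne_map_eq_of_infinite
      (fun n : ℕ => (⟨(Fe p r a ^ n) w, hpow n⟩ : W))
    have heq' : (Fe p r a ^ m) w = (Fe p r a ^ n) w := congrArg Subtype.val heq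
    rcases lt_or_gt_of_ne hmn with h | h
    · exact ⟨m, n, h, heq'⟩
    · exact ⟨n, m, h, heq'.symm⟩
  refine ⟨X ^ m - X ^ n, ?_, ?_⟩
  · intro h
    have := congrArg (fun Q => coeff Q m) h
    simp only [coeff_sub, coeff_X_pow, if_true, coeff_zero] at this
    rw [if_neg (by omega)] at this
    simp at this
  · simp [heq]

/-- **Main theorem over a place system.** -/
theorem main2 (r : ℕ) (hr : 1 ≤ r) (N : ℚ) :
    ∃ B : ℕ, ∀ (a : ℕ → K), a r ≠ 0 →
      (∃ i ≤ r, a i ≠ 0 ∧ ∃ v : V, mu p r a i (S.pl v) ≠ 0) →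
      (∀ T : Finset V, ∑ v ∈ T, al a (S.pl v) ≤ N) →
      ∀ (W : Submodule (ZMod p) K), FiniteDimensional (ZMod p) W →
        (∀ w ∈ W, addMap p r a w ∈ W) →
        Module.finrank (ZMod p) W ≤ B := by
  classical
  obtain ⟨B1, hB1⟩ := main1 p S r hr N
  obtain ⟨D1, hD1⟩ := degree_bound p S r hr
  set B3 : ℕ := ⌊BA p r D1 (Etot S) + (4 * r + 4 : ℕ) * (r * D1)⌋₊ with hB3
  refine ⟨B1 + B3, ?_⟩
  intro a har hNI hN W hfin hW
  by_cases halg : IsAlgebraic (ZMod p) (a 0)
  · -- special characteristic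
    set l := minpoly (ZMod p) (a 0) with hl
    have hirr : Irreducible l := minpoly.irreducible halg.isIntegral
    have hla : aeval (a 0) l = 0 := minpoly.aeval _ _
    set F := Fe p r a with hF
    -- factor killers
    have hkill : ∀ w ∈ W, ∃ (e : ℕ) (R : (ZMod p)[X]), aeval F (l ^ e * R) w = 0 ∧ ¬ l ∣ R := by
      intro w hw
      obtain ⟨P, hP0, hP⟩ := exists_killer p r a W hW w hw
      obtain ⟨R, h1, h2⟩ :=
        (FiniteMultiplicity.of_not_isUnit hirr.not_isUnit hP0).exists_eq_pow_mul_and_not_dvd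
      exact ⟨_, R, by rw [← h1]; exact hP, h2⟩
    choose! e R hR hRl using hkill
    obtain ⟨Xs, hX⟩ := finset_of_W p W
    set n := Xs.sup e with hn
    have hen : ∀ w ∈ W, e w ≤ n := fun w hw => Finset.le_sup ((hX w).2 hw)
    have hRn : ∀ w ∈ W, aeval F (l ^ n * R w) w = 0 := by
      intro w hw
      have h1 : l ^ n * R w = l ^ (n - e w) * (l ^ e w * R w) := by
        rw [← mul_assoc, ← pow_add]; congr 2
        have := hen w hw
        omega
      rw [h1, map_mul, Module.End.mul_apply, hR w hw, map_zero]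
    -- the two parts
    set W' := W.map (aeval F (l ^ n)) with hW'
    set Wl := W ⊓ LinearMap.ker (aeval F (l ^ n)) with hWl
    have hW'W : W' ≤ W := by
      rintro _ ⟨w, hw, rfl⟩
      exact aeval_mem p F W hW _ w hw
    have hWlW : Wl ≤ W := inf_le_left
    haveI : FiniteDimensional (ZMod p) W' := Submodule.finiteDimensional_of_le hW'W
    haveI : FiniteDimensional (ZMod p) Wl := Submodule.finiteDimensional_of_le hWlW
    have hcomm : ∀ (P Q : (ZMod p)[X]) (x : K), aeval F P (aeval F Q x) = aeval F Q (aeval F P x) := by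
      intro P Q x
      rw [← Module.End.mul_apply, ← Module.End.mul_apply, ← map_mul, ← map_mul, mul_comm]
    have hFX : ∀ x, addMap p r a x = aeval F (X : (ZMod p)[X]) x := by
      intro x; rw [aeval_X]
    have hW'st : ∀ w ∈ W', addMap p r a w ∈ W' := by
      rintro _ ⟨w, hw, rfl⟩
      refine ⟨addMap p r a w, hW w hw, ?_⟩
      rw [hFX, hFX, hcomm]
    have hWlst : ∀ w ∈ Wl, addMap p r a w ∈ Wl := by
      rintro w ⟨hw1, hw2⟩
      refine ⟨hW w hw1, ?_⟩
      have hw3 : aeval F (l ^ n) w = 0 := hw2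
      change aeval F (l ^ n) (addMap p r a w) = 0
      rw [hFX, hcomm, hw3, map_zero]
    have hdim : Module.finrank (ZMod p) W ≤
        Module.finrank (ZMod p) W' + Module.finrank (ZMod p) Wl := by
      let q : W →ₗ[ZMod p] K := (aeval F (l ^ n)).domRestrict W
      have h1 := LinearMap.finrank_range_add_finrank_ker q
      have hrange : Module.finrank (ZMod p) (LinearMap.range q) ≤ Module.finrank (ZMod p) W' := by
        refine Submodule.finrank_mono ?_
        rintro _ ⟨y, rfl⟩
        exact ⟨y, y.2, rfl⟩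
      have hker : Module.finrank (ZMod p) (LinearMap.ker q) ≤ Module.finrank (ZMod p) Wl := by
        rw [(Submodule.equivMapOfInjective W.subtype W.injective_subtype
          (LinearMap.ker q)).finrank_eq]
        refine Submodule.finrank_mono ?_
        rintro _ ⟨y, hy, rfl⟩
        exact ⟨y.2, hy⟩
      omega
    have hb1 : Module.finrank (ZMod p) W' ≤ B1 := by
      refine hB1 a har hNI hN W' inferInstance hW'st ?_
      rintro _ ⟨w, hw, rfl⟩
      refine ⟨R w, ?_, ?_⟩
      · rw [← Module.End.mul_apply, ← map_mul, mul_comm]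
        exact hRn w hw
      · intro h0
        exact hRl w hw (minpoly.dvd _ _ h0)
    have hHyp : Hyp p S r l a Wl := by
      refine ⟨har, fun v => al_algebraic p a _ halg, hla, this, hWlst, ?_⟩
      rintro w ⟨-, hw2⟩
      exact ⟨n, hw2⟩
    obtain ⟨i, hi, hai, v, hv⟩ := hNI
    have hNI' : NI p S r a i v := ⟨hi, hai, hv⟩
    have hb3 : Module.finrank (ZMod p) Wl ≤ B3 := by
      by_cases hbot : Wl = ⊥
      · rw [hbot, finrank_bot]; exact Nat.zero_le _
      · -- the `l`-torsion is nonzero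
        set U := Wl ⊓ LinearMap.ker (aeval F l) with hU
        haveI : FiniteDimensional (ZMod p) U := Submodule.finiteDimensional_of_le inf_le_left
        have hUst : ∀ w ∈ U, addMap p r a w ∈ U := by
          rintro w ⟨hw1, hw2⟩
          refine ⟨hWlst w hw1, ?_⟩
          have hw3 : aeval F l w = 0 := hw2
          change aeval F l (addMap p r a w) = 0
          rw [hFX, hcomm, hw3, map_zero]
        have hUne : U ≠ ⊥ := by
          obtain ⟨w, hwW, hw⟩ := Submodule.exists_mem_ne_zero_of_ne_bot hbot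
          have hex : ∃ j, aeval F (l ^ j) w = 0 := ⟨n, hwW.2⟩
          have hj := Nat.find_spec hex
          have hj0 : Nat.find hex ≠ 0 := by
            intro h0
            rw [h0, pow_zero, map_one] at hj
            exact hw hj
          obtain ⟨j, hjj⟩ := Nat.exists_eq_succ_of_ne_zero hj0
          have hmin := Nat.find_min hex (m := j) (by omega)
          intro h0
          apply hmin
          have hmem : aeval F (l ^ j) w ∈ U := by
            refine ⟨aeval_mem p F Wl hWlst _ w hwW, ?_⟩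
            change aeval F l (aeval F (l ^ j) w) = 0
            rw [← Module.End.mul_apply, ← map_mul, ← pow_succ']
            rw [hjj] at hj
            exact hj
          rw [h0, Submodule.mem_bot] at hmem
          exact hmem
        have hdeg := hD1 l hirr i v a U
          ⟨har, fun v => al_algebraic p a _ halg, hla, this, hUst, fun w hw => ⟨1, by
            rw [pow_one]; exact hw.2⟩⟩ hNI' hUne (fun w hw => hw.2)
        exact Nat.le_floor (spec_bound p S r hr l hirr D1 hdeg i v a Wl hHyp hNI')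
    omega
  · -- generic characteristic
    have h1 := hB1 a har hNI hN W hfin hW (by
      intro w hw
      obtain ⟨P, hP0, hP⟩ := exists_killer p r a W hW w hw
      exact ⟨P, hP, fun h0 => halg ⟨P, hP0, h0⟩⟩)
    omega

end assembly

end Pool.Agent.Helper34.Add
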