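import Pool.Agent.Helper34.AddDefs
import Pool.Agent.Helper34.AddPre
import Pool.Agent.Helper34.AddBase
import Pool.Agent.Helper34.AddFF

/-!
# The theorem over function fields
-/

set_option autoImplicit false
set_option linter.unusedSectionVars false
set_option linter.style.haveILetI false

namespace Pool.Agent.Helper34.Add

open Pool.Agent.Helper33 Finset Polynomial

section iso

variable (p : ℕ) [hp : Fact p.Prime]

theorem affPoly_eval {K : Type} [Field K] [CharP K p] [Algebra (ZMod p) K] (r : ℕ) (a : ℕ → K)
    (b x : K) : (affPoly p r a b).eval x = affMap p r a b x := by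
  simp [affPoly, affMap, addMap_apply, eval_finsetSum]

theorem comp_formula {L : Type} [Field L] [CharP L p] (r : ℕ) (A : ℕ → L) (B u v : L) (hu : u ≠ 0)
    (hv : B + ∑ i ∈ range (r + 1), A i * v ^ p ^ i = v) :
    C u⁻¹ * ((C B + ∑ i ∈ range (r + 1), C (A i) * X ^ p ^ i : L[X]).comp (C u * X + C v) - C v) =
      ∑ i ∈ range (r + 1), C (A i * u ^ (p ^ i - 1)) * X ^ p ^ i := by
  have h1 : (C B + ∑ i ∈ range (r + 1), C (A i) * X ^ p ^ i : L[X]).comp (C u * X + C v) =
      C v + ∑ i ∈ range (r + 1), C (A i * u ^ p ^ i) * X ^ p ^ i := by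
    rw [add_comp, C_comp, Polynomial.sum_comp]
    have h2 : ∀ i ∈ range (r + 1), (C (A i) * X ^ p ^ i : L[X]).comp (C u * X + C v) =
        C (A i * u ^ p ^ i) * X ^ p ^ i + C (A i * v ^ p ^ i) := by
      intro i _
      rw [mul_comp, C_comp, pow_comp, X_comp, add_pow_char_pow, mul_pow, ← C_pow, ← C_pow]
      rw [C_mul, C_mul]
      ring
    rw [Finset.sum_congr rfl h2, Finset.sum_add_distrib]
    have h3 : (C v : L[X]) = C B + ∑ i ∈ range (r + 1), C (A i * v ^ p ^ i) := by
      rw [← map_sum, ← C_add, hv]
    rw [h3]
    ring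
  rw [h1, add_sub_cancel_left, Finset.mul_sum]
  refine Finset.sum_congr rfl fun i _ => ?_
  have hpos : 0 < p ^ i := pow_pos (Fact.out : p.Prime).pos i
  have h4 : A i * u ^ (p ^ i - 1) = u⁻¹ * (A i * u ^ p ^ i) := by
    have : u ^ p ^ i = u * u ^ (p ^ i - 1) := by rw [← pow_succ']; congr 1; omega
    rw [this]
    field_simp
  rw [h4]
  simp only [C_mul]
  ring

/-- constant invariants give isotriviality -/
theorem isotrivial_of_const (k K : Type) [Field k] [Field K] [Algebra k K] [CharP K p]
    (r : ℕ) (hr : 1 ≤ r) (a : ℕ → K) (b : K) (har : a r ≠ 0)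
    (h : ∀ i ≤ r, a i ≠ 0 → IsAlgebraic k (algebraMap K (AlgebraicClosure K)
      (a i ^ (p ^ r - 1) / a r ^ (p ^ i - 1)))) :
    IsotrivialPoly k (affPoly p r a b) := by
  classical
  set L := AlgebraicClosure K with hAC
  haveI : CharP L p := charP_of_injective_algebraMap (algebraMap K L).injective p
  set A : ℕ → L := fun i => algebraMap K L (a i) with hA
  set B : L := algebraMap K L b with hB
  have hp1 : 1 < p := (Fact.out : p.Prime).one_lt
  have hpr : 1 < p ^ r := Nat.one_lt_pow (by omega) hp1
  have hAr : A r ≠ 0 := by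
    simp only [hA]
    rw [Ne, map_eq_zero_iff _ (algebraMap K L).injective]
    exact har
  -- choose u
  obtain ⟨u, hu⟩ := IsAlgClosed.exists_pow_nat_eq (A r)⁻¹ (n := p ^ r - 1) (by omega)
  have hu0 : u ≠ 0 := by
    rintro rfl
    rw [zero_pow (by omega)] at hu
    exact inv_ne_zero hAr hu.symm
  -- choose v
  set P : L[X] := (C B + ∑ i ∈ range (r + 1), C (A i) * X ^ p ^ i) with hP
  have hPd : P.natDegree = p ^ r := by
    have h1 : P = C (A r) * X ^ p ^ r + (C B + ∑ i ∈ range r, C (A i) * X ^ p ^ i) := by
      rw [hP, Finset.sum_range_succ]; ring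
    have h2 : (C (A r) * X ^ p ^ r : L[X]).natDegree = p ^ r := natDegree_C_mul_X_pow _ _ hAr
    have h3 : (C B + ∑ i ∈ range r, C (A i) * X ^ p ^ i : L[X]).natDegree < p ^ r := by
      refine lt_of_le_of_lt (natDegree_add_le _ _) (max_lt ?_ ?_)
      · rw [natDegree_C]; omega
      · refine lt_of_le_of_lt (natDegree_sum_le_of_forall_le (n := p ^ (r - 1)) _ _ ?_) ?_
        · intro i hi
          rw [mem_range] at hi
          refine (natDegree_C_mul_X_pow_le _ _).trans ?_
          exact Nat.pow_le_pow_right (by omega) (by omega)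
        · exact Nat.pow_lt_pow_right hp1 (by omega)
    rw [h1, natDegree_add_eq_left_of_natDegree_lt (by rw [h2]; exact h3), h2]
  obtain ⟨v, hv⟩ := IsAlgClosed.exists_root (P - X) (by
    have h1 : (P - X).natDegree = p ^ r := by
      rw [natDegree_sub_eq_left_of_natDegree_lt (by rw [natDegree_X, hPd]; exact hpr), hPd]
    intro h0
    have := natDegree_eq_zero_iff_degree_le_zero.2 (le_of_eq h0)
    omega)
  have hv' : B + ∑ i ∈ range (r + 1), A i * v ^ p ^ i = v := by
    rw [IsRoot.def, eval_sub, eval_X, hP] at hv
    simp only [eval_add, eval_C, eval_finsetSum, eval_mul, eval_pow, eval_X] at hv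
    exact sub_eq_zero.1 hv
  refine ⟨u, v, hu0, fun n => ?_⟩
  have hmap : (affPoly p r a b).map (algebraMap K L) = P := by
    rw [hP]
    simp [affPoly, Polynomial.map_sum, hA, hB]
  rw [hmap, hP, comp_formula p r A B u v hu0 hv', finsetSum_coeff, ← mem_algebraicClosure_iff]
  refine sum_mem fun i hi => ?_
  rw [mem_range] at hi
  rw [coeff_C_mul_X_pow]
  split_ifs with hn
  · rw [mem_algebraicClosure_iff]
    by_cases hai : a i = 0
    · have : A i = 0 := by simp only [hA]; rw [hai, map_zero]
      rw [this, zero_mul]
      exact isAlgebraic_zero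
    · refine IsAlgebraic.of_pow (n := p ^ r - 1) (by omega) ?_
      have h1 := h i (by omega) hai
      have h2 : (A i * u ^ (p ^ i - 1)) ^ (p ^ r - 1) =
          algebraMap K L (a i ^ (p ^ r - 1) / a r ^ (p ^ i - 1)) := by
        rw [mul_pow, ← pow_mul, mul_comm (p ^ i - 1), pow_mul, hu, map_div₀, map_pow, map_pow,
          inv_pow, div_eq_mul_inv]
      rw [h2]
      exact h1
  · exact zero_mem _

end iso

section thm

/-- **Uniform boundedness for affine-additive polynomials with multiplier of bounded height.** -/
theorem additive_ubp (p : ℕ) [Fact p.Prime] (k K : Type) [Field k] [CharP k p] [Field K]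
    [Algebra k K] (hfg : (⊤ : IntermediateField k K).FG)
    (htr : ∃ x : K, Transcendental k x ∧ Algebra.IsAlgebraic (IntermediateField.adjoin k {x}) K)
    (r N : ℕ) (hr : 1 ≤ r) :
    ∃ B : ℕ, ∀ (a : ℕ → K) (b : K), a r ≠ 0 →
      (IsAlgebraic k (a 0) ∨ Module.finrank (IntermediateField.adjoin k {a 0}) K ≤ N) →
      ¬ IsotrivialPoly k (affPoly p r a b) →
      (PrePer (affPoly p r a b)).encard ≤ B := by
  classical
  haveI : CharP K p := charP_of_injective_algebraMap (algebraMap k K).injective p
  let L := AlgebraicClosure K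
  let k' : IntermediateField k L := algebraicClosure k L
  haveI : IsAlgClosed k' := (algebraicClosure.isAlgClosure (F := k) (E := L)).isAlgClosed
  let K' : IntermediateField k' L := IntermediateField.adjoin k' (Set.range (algebraMap K L))
  let ι : K →+* K' := (algebraMap K L).codRestrict K'.toSubfield.toSubring
    (fun x => IntermediateField.subset_adjoin _ _ ⟨x, rfl⟩)
  letI : Algebra K K' := ι.toAlgebra
  have hι : ∀ x : K, ((algebraMap K K' x : K') : L) = algebraMap K L x := fun x => rfl
  haveI : IsScalarTower k K K' := IsScalarTower.of_algebraMap_eq fun x => by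
    apply Subtype.ext
    rw [hι, ← IsScalarTower.algebraMap_apply k K L]
    rfl
  have hgen : IntermediateField.adjoin k' (Set.range (algebraMap K K')) = ⊤ := by
    apply IntermediateField.lift_injective K'
    rw [IntermediateField.lift_adjoin, IntermediateField.lift_top]
    change _ = IntermediateField.adjoin k' (Set.range (algebraMap K L))
    congr 1
    ext z
    constructor
    · rintro ⟨_, ⟨x, rfl⟩, rfl⟩; exact ⟨x, rfl⟩
    · rintro ⟨x, rfl⟩; exact ⟨_, ⟨x, rfl⟩, rfl⟩
  haveI : CharP k' p := charP_of_injective_algebraMap (algebraMap k k').injective p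
  haveI : CharP K' p := charP_of_injective_algebraMap (algebraMap k' K').injective p
  letI : Algebra (ZMod p) K' := ZMod.algebra K' p
  letI : Algebra (ZMod p) K := ZMod.algebra K p
  have htrans : ∀ x : K, Transcendental k x → Transcendental k' (algebraMap K K' x) := by
    intro x hx
    have h1 : Transcendental k (algebraMap K L x) := by
      rw [transcendental_algebraMap_iff (algebraMap K L).injective]
      exact hx
    have h2 : Transcendental k' (algebraMap K L x) := h1.algebraicClosure
    have h3 : algebraMap K L x = algebraMap K' L (algebraMap K K' x) := rfl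
    rw [h3, transcendental_algebraMap_iff (algebraMap K' L).injective] at h2
    exact h2
  have hfg' : (⊤ : IntermediateField k' K').FG := base_fg (k := k) (K := K) hfg hgen
  obtain ⟨x₀, hx₀, hx₀alg⟩ := htr
  obtain ⟨V, S, hdeg, halg⟩ := exists_placeSys_deg p k' K' hfg'
    ⟨algebraMap K K' x₀, htrans x₀ hx₀, base_alg x₀ hx₀alg hgen⟩
  have hN := Pool.Agent.Helper45.FF.isFunctionField_of hfg ⟨x₀, hx₀, hx₀alg⟩
  obtain ⟨B, hB⟩ := preper_bound p S r hr N
  refine ⟨B, ?_⟩
  intro a b har hmult hniso
  have hinj : Function.Injective (algebraMap K K') := (algebraMap K K').injective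
  set a' : ℕ → K' := fun i => algebraMap K K' (a i) with ha'
  set b' : K' := algebraMap K K' b with hb'
  have har' : a' r ≠ 0 := by
    simp only [ha']
    rw [Ne, map_eq_zero_iff _ hinj]
    exact har
  have hset := hB a' b' har' ?_ ?_
  · -- transfer
    have hstep : ∀ (n : ℕ) (x : K), algebraMap K K' ((fun z => (affPoly p r a b).eval z)^[n] x) =
        (affMap p r a' b')^[n] (algebraMap K K' x) := by
      intro n x
      induction n with
      | zero => rfl
      | succ n ih =>
        rw [Function.iterate_succ_apply', Function.iterate_succ_apply', ← ih]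
        set z := (fun z => (affPoly p r a b).eval z)^[n] x
        simp only [affMap, addMap_apply, affPoly, ha', hb', eval_add, eval_C, eval_finsetSum,
          eval_mul, eval_pow, eval_X, map_add, map_sum, map_mul, map_pow]
    refine le_trans ?_ hset
    rw [← hinj.encard_image]
    refine Set.encard_le_encard ?_
    rintro _ ⟨x, ⟨m, n, hmn, h⟩, rfl⟩
    refine ⟨m, n, hmn, ?_⟩
    rw [← hstep, ← hstep, h]
  · -- non-isotriviality
    by_contra hcon
    push Not at hcon
    apply hniso
    refine isotrivial_of_const p k K r hr a b har ?_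
    intro i hi hai
    have hai' : a' i ≠ 0 := by
      simp only [ha']
      rw [Ne, map_eq_zero_iff _ hinj]
      exact hai
    obtain ⟨c, hc⟩ := const_of_mu p S r a' i har' hai' (hcon i hi hai')
    have h1 : algebraMap K L (a i ^ (p ^ r - 1) / a r ^ (p ^ i - 1)) = (c : L) := by
      have h2 := congrArg (algebraMap K' L) hc
      have h3 : algebraMap K' L (algebraMap k' K' c) = (c : L) := rfl
      rw [h3] at h2
      rw [h2]
      simp only [ha', map_div₀, map_pow]
      rfl
    change IsAlgebraic k (algebraMap K L (a i ^ (p ^ r - 1) / a r ^ (p ^ i - 1)))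
    rw [h1]
    exact mem_algebraicClosure_iff.1 c.2
  · -- poles of the multiplier
    intro T
    by_cases h0 : a 0 = 0
    · have : ∀ v ∈ T, al a' (S.pl v) = 0 := by
        intro v _
        unfold al
        rw [if_pos]
        simp only [ha']; rw [h0, map_zero]
      rw [Finset.sum_eq_zero this]
      exact Nat.cast_nonneg _
    have h0' : a' 0 ≠ 0 := by
      simp only [ha']
      rw [Ne, map_eq_zero_iff _ hinj]
      exact h0
    by_cases hal : IsAlgebraic k (a 0)
    · have h1 : IsAlgebraic k' (a' 0) := by
        have h2 : IsAlgebraic k (a' 0) := hal.algebraMap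
        exact h2.tower_top k'
      have : ∀ v ∈ T, al a' (S.pl v) = 0 := by
        intro v _
        unfold al
        rw [if_neg h0', halg _ h1 v h0']
        simp
      rw [Finset.sum_eq_zero this]
      exact Nat.cast_nonneg _
    · have h1 : Module.finrank (IntermediateField.adjoin k {a 0}) K ≤ N := by
        rcases hmult with h | h
        · exact absurd h hal
        · exact h
      haveI : FiniteDimensional (IntermediateField.adjoin k {a 0}) K :=
        hN.finiteDimensional (a 0) hal
      have h2 := base_finrank (k := k) (k' := k') (K' := K') (a 0) hgen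
      have h3 := hdeg (a' 0) (htrans (a 0) hal) T
      have h4 : ∀ v ∈ T, al a' (S.pl v) = max 0 (-((S.pl v).o (a' 0) : ℚ)) := by
        intro v _
        unfold al
        rw [if_neg h0']
      rw [Finset.sum_congr rfl h4]
      refine h3.trans ?_
      exact_mod_cast h2.trans h1

end thm

end Pool.Agent.Helper34.Add
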