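import Mathlib

set_option autoImplicit false

namespace Pool.Agent.Helper34.Pattern

open Filter Topology

lemma tendsto_poly_geom (k : ℕ) (C r : ℝ) (hr : |r| < 1) :
    Tendsto (fun n : ℕ => C * ((n : ℝ) ^ k * r ^ n)) atTop (𝓝 0) := by
  simpa using (tendsto_pow_const_mul_const_pow_of_abs_lt_one k hr).const_mul C

lemma asym (P Q : ℕ) (a s : ℕ → ℕ) (hs : ∀ m, s (m + 1) = 2 ^ m * s m) (hs0 : ∀ m, 0 < s m)
    (ha : ∀ m, 99 ≤ m → a (m + 1) ≤ (m + 1) * (3 * ((m * 3 + 1) ^ P * a m)) +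
      (m + 1) * (3 * (3 ^ m * ((m * m + 1) ^ Q * s m))))
    (n0 : ℕ) (hlow : ∀ m, n0 ≤ m → 3 ^ m * (3 ^ m * s m) ≤ a (m + 2)) : False := by
  set γ : ℕ → ℝ := fun m => (a m : ℝ) / ((s m : ℝ) * (9 / 4) ^ m) with hγ
  have hspos : ∀ m, (0 : ℝ) < s m := fun m => by exact_mod_cast hs0 m
  have hsR : ∀ m, (s (m + 1) : ℝ) = 2 ^ m * s m := fun m => by rw [hs]; push_cast; ring
  -- lower bound
  have hlow' : ∀ m, n0 ≤ m → (8 / 81 : ℝ) ≤ γ (m + 2) := by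
    intro m hm
    have h1 : (3 : ℝ) ^ m * (3 ^ m * s m) ≤ a (m + 2) := by exact_mod_cast hlow m hm
    have h2 : (s (m + 2) : ℝ) = 2 ^ (m + 1) * (2 ^ m * s m) := by rw [hsR, hsR]
    simp only [hγ]
    rw [le_div_iff₀ (mul_pos (hspos _) (by positivity)), h2]
    refine le_trans (le_of_eq ?_) h1
    have : (9 / 4 : ℝ) ^ (m + 2) = 3 ^ m * 3 ^ m / (2 ^ m * 2 ^ m) * (81 / 16) := by
      rw [pow_add, ← mul_pow, ← mul_pow, ← div_pow]; norm_num
    rw [this, pow_succ]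
    have h3 : (2 : ℝ) ^ m ≠ 0 := by positivity
    field_simp
    ring
  -- recurrence
  set x : ℕ → ℝ := fun m => ((m : ℝ) + 1) * (3 * (m * 3 + 1) ^ P) / 2 ^ m * (4 / 9) with hx
  set y : ℕ → ℝ := fun m => ((m : ℝ) + 1) * (3 * (m * m + 1) ^ Q) * (2 / 3) ^ m * (4 / 9) with hy
  have hrec : ∀ m, 99 ≤ m → γ (m + 1) ≤ x m * γ m + y m := by
    intro m hm
    have h1 : (a (m + 1) : ℝ) ≤ (m + 1) * (3 * ((m * 3 + 1) ^ P * a m)) +
      (m + 1) * (3 * (3 ^ m * ((m * m + 1) ^ Q * s m))) := by exact_mod_cast ha m hm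
    simp only [hγ]
    rw [hsR, div_le_iff₀ (by have := hspos m; positivity)]
    refine le_trans h1 (le_of_eq ?_)
    have hsm := (hspos m).ne'
    have e1 : (9 / 4 : ℝ) ^ (m + 1) = 3 ^ m * 3 ^ m / (2 ^ m * 2 ^ m) * (9 / 4) := by
      rw [pow_add, ← mul_pow, ← mul_pow, ← div_pow]; norm_num
    have e2 : (9 / 4 : ℝ) ^ m = 3 ^ m * 3 ^ m / (2 ^ m * 2 ^ m) := by
      rw [← mul_pow, ← mul_pow, ← div_pow]; norm_num
    have e3 : (2 / 3 : ℝ) ^ m = 2 ^ m / 3 ^ m := by rw [div_pow]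
    simp only [hx, hy]
    rw [e1, e2, e3]
    have h3 : (2 : ℝ) ^ m ≠ 0 := by positivity
    have h4 : (3 : ℝ) ^ m ≠ 0 := by positivity
    field_simp
  have hx0 : Tendsto x atTop (𝓝 0) := by
    have hb := tendsto_poly_geom (P + 1) ((2 * 3 * 4 ^ P * (4 / 9) : ℝ)) (1 / 2) (by norm_num [abs_of_pos])
    refine squeeze_zero' (Eventually.of_forall fun m => by simp only [hx]; positivity) ?_ hb
    filter_upwards [eventually_ge_atTop 1] with m hm
    have hm' : (1 : ℝ) ≤ m := by exact_mod_cast hm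
    simp only [hx]
    have h1 : ((m : ℝ) + 1) ≤ 2 * m := by linarith
    have h2 : ((m : ℝ) * 3 + 1) ^ P ≤ (4 * m) ^ P := pow_le_pow_left₀ (by positivity) (by linarith) P
    calc ((m : ℝ) + 1) * (3 * (m * 3 + 1) ^ P) / 2 ^ m * (4 / 9)
        ≤ (2 * m) * (3 * (4 * m) ^ P) / 2 ^ m * (4 / 9) := by gcongr
      _ = 2 * 3 * 4 ^ P * (4 / 9) * ((m : ℝ) ^ (P + 1) * (1 / 2) ^ m) := by
          rw [mul_pow (4 : ℝ) (m : ℝ) P, div_pow, one_pow]; ring
  have hy0 : Tendsto y atTop (𝓝 0) := by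
    have hb := tendsto_poly_geom (Q + Q + 1) ((2 * 3 * 2 ^ Q * (4 / 9) : ℝ)) (2 / 3) (by norm_num [abs_of_pos])
    refine squeeze_zero' (Eventually.of_forall fun m => by simp only [hy]; positivity) ?_ hb
    filter_upwards [eventually_ge_atTop 1] with m hm
    have hm' : (1 : ℝ) ≤ m := by exact_mod_cast hm
    simp only [hy]
    have h1 : ((m : ℝ) + 1) ≤ 2 * m := by linarith
    have h2 : ((m : ℝ) * m + 1) ^ Q ≤ (2 * (m * m)) ^ Q :=
      pow_le_pow_left₀ (by positivity) (by nlinarith) Q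
    calc ((m : ℝ) + 1) * (3 * (m * m + 1) ^ Q) * (2 / 3) ^ m * (4 / 9)
        ≤ (2 * m) * (3 * (2 * (m * m)) ^ Q) * (2 / 3) ^ m * (4 / 9) := by gcongr
      _ = 2 * 3 * 2 ^ Q * (4 / 9) * ((m : ℝ) ^ (Q + Q + 1) * (2 / 3) ^ m) := by
          rw [mul_pow (2 : ℝ) ((m : ℝ) * m) Q, mul_pow (m : ℝ) (m : ℝ) Q, ← pow_add]; ring
  have hx1 : ∀ᶠ m in atTop, x m ≤ 1 / 4 := hx0.eventually_le_const (by norm_num)
  have hy1 : ∀ᶠ m in atTop, y m ≤ (1 / 4) * (8 / 81) := hy0.eventually_le_const (by norm_num)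
  have hlow2 : ∀ᶠ m in atTop, (8 / 81 : ℝ) ≤ γ m := by
    filter_upwards [eventually_ge_atTop (n0 + 2)] with m hm
    obtain ⟨m', rfl⟩ : ∃ m', m = m' + 2 := ⟨m - 2, by omega⟩
    exact hlow' m' (by omega)
  obtain ⟨M, hM⟩ := eventually_atTop.1 (hx1.and (hy1.and (hlow2.and (eventually_ge_atTop 99))))
  have hstep : ∀ j, γ (M + j) ≤ γ M * (1 / 2) ^ j := by
    intro j
    induction j with
    | zero => simp
    | succ j ih =>
      obtain ⟨h1, h2, h3, h4⟩ := hM (M + j) (by omega)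
      have h5 := hrec (M + j) h4
      have h6 : x (M + j) * γ (M + j) ≤ 1 / 4 * γ (M + j) :=
        mul_le_mul_of_nonneg_right h1 (by linarith)
      have h7 : γ (M + (j + 1)) ≤ γ (M + j) * (1 / 2) := by
        rw [← add_assoc]; linarith
      calc γ (M + (j + 1)) ≤ γ (M + j) * (1 / 2) := h7
        _ ≤ γ M * (1 / 2) ^ j * (1 / 2) := by gcongr
        _ = γ M * (1 / 2) ^ (j + 1) := by ring
  have hlim : Tendsto (fun j : ℕ => γ M * (1 / 2 : ℝ) ^ j) atTop (𝓝 0) := by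
    simpa using (tendsto_pow_atTop_nhds_zero_of_lt_one (by norm_num) (by norm_num : (1 / 2 : ℝ) < 1)).const_mul (γ M)
  obtain ⟨j, hj⟩ := (hlim.eventually_lt_const (show (0 : ℝ) < 8 / 81 by norm_num)).exists
  have h1 := hstep j
  have h2 := (hM (M + j) (by omega)).2.2.1
  linarith

end Pool.Agent.Helper34.Pattern
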