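import Mathlib

set_option autoImplicit false

namespace Pool.Agent.Helper34.Pattern

open Finset

variable {n : ℕ}

open Classical in
/-- Degree of `x` in the relation `R`. -/
noncomputable def dg (R : Fin n → Fin n → Prop) (x : Fin n) : ℕ :=
  (Finset.univ.filter (fun y => R x y)).card

lemma exists_new (R : Fin n → Fin n → Prop) (x : Fin n) (l : List (Fin n))
    (h : l.length < dg R x) : ∃ y, R x y ∧ y ∉ l := by
  classical
  have h1 : l.toFinset.card < (Finset.univ.filter (fun y => R x y)).card := by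
    refine lt_of_le_of_lt l.toFinset_card_le ?_
    have : dg R x = (Finset.univ.filter (fun y => R x y)).card := by
      unfold dg; congr
    rw [← this]; exact h
  obtain ⟨y, hy, hy'⟩ := Finset.exists_mem_notMem_of_card_lt_card h1
  exact ⟨y, by simpa using hy, by simpa using hy'⟩

lemma embed (A B D : Fin n → Fin n → Prop) {u1 u2 w1 w2 m1 m2 m3 m4 : Fin n}
    (hnd : [u1, u2, w1, w2, m1, m2, m3, m4].Nodup)
    (hA : A u1 u2) (hD : D w1 w2) (hM : D m1 m2) (hM' : D m3 m4)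
    (a1 : 16 ≤ dg A u1) (a2 : 16 ≤ dg A u2) (b1 : 16 ≤ dg B w1) (b2 : 16 ≤ dg B w2) :
    ∃ φ : Fin 16 → Fin n, Function.Injective φ ∧
      A (φ 8) (φ 9) ∧ A (φ 8) (φ 7) ∧ A (φ 8) (φ 6) ∧ A (φ 9) (φ 5) ∧ A (φ 9) (φ 4) ∧
      B (φ 10) (φ 3) ∧ B (φ 10) (φ 2) ∧ B (φ 11) (φ 1) ∧ B (φ 11) (φ 0) ∧
      D (φ 10) (φ 11) ∧ D (φ 12) (φ 13) ∧ D (φ 14) (φ 15) := by
  obtain ⟨p1, hp1, h1⟩ := exists_new A u1 [u1, u2, w1, w2, m1, m2, m3, m4]
    (lt_of_lt_of_le (by simp) a1)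
  obtain ⟨p2, hp2, h2⟩ := exists_new A u1 [p1, u1, u2, w1, w2, m1, m2, m3, m4]
    (lt_of_lt_of_le (by simp) a1)
  obtain ⟨p3, hp3, h3⟩ := exists_new A u2 [p2, p1, u1, u2, w1, w2, m1, m2, m3, m4]
    (lt_of_lt_of_le (by simp) a2)
  obtain ⟨p4, hp4, h4⟩ := exists_new A u2 [p3, p2, p1, u1, u2, w1, w2, m1, m2, m3, m4]
    (lt_of_lt_of_le (by simp) a2)
  obtain ⟨q1, hq1, k1⟩ := exists_new B w1 [p4, p3, p2, p1, u1, u2, w1, w2, m1, m2, m3, m4]
    (lt_of_lt_of_le (by simp) b1)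
  obtain ⟨q2, hq2, k2⟩ := exists_new B w1 [q1, p4, p3, p2, p1, u1, u2, w1, w2, m1, m2, m3, m4]
    (lt_of_lt_of_le (by simp) b1)
  obtain ⟨q3, hq3, k3⟩ := exists_new B w2
    [q2, q1, p4, p3, p2, p1, u1, u2, w1, w2, m1, m2, m3, m4]
    (lt_of_lt_of_le (by simp) b2)
  obtain ⟨q4, hq4, k4⟩ := exists_new B w2
    [q3, q2, q1, p4, p3, p2, p1, u1, u2, w1, w2, m1, m2, m3, m4]
    (lt_of_lt_of_le (by simp) b2)
  have hN : [q4, q3, q2, q1, p4, p3, p2, p1, u1, u2, w1, w2, m1, m2, m3, m4].Nodup :=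
    List.nodup_cons.2 ⟨k4, List.nodup_cons.2 ⟨k3, List.nodup_cons.2 ⟨k2, List.nodup_cons.2 ⟨k1,
      List.nodup_cons.2 ⟨h4, List.nodup_cons.2 ⟨h3, List.nodup_cons.2 ⟨h2,
      List.nodup_cons.2 ⟨h1, hnd⟩⟩⟩⟩⟩⟩⟩⟩
  refine ⟨![q4, q3, q2, q1, p4, p3, p2, p1, u1, u2, w1, w2, m1, m2, m3, m4], ?_, ?_⟩
  · rw [← List.nodup_ofFn]
    simpa using hN
  · exact ⟨hA, hp1, hp2, hp3, hp4, hq1, hq2, hq3, hq4, hD, hM, hM'⟩

/-- `A`-edges with both ends of `B`-degree at least 16 cannot be covered by 6 vertices. -/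
def Rich (A B : Fin n → Fin n → Prop) : Prop :=
  ∀ X : Finset (Fin n), X.card ≤ 6 → ∃ x y, x ∉ X ∧ y ∉ X ∧ x ≠ y ∧ A x y ∧
    16 ≤ dg B x ∧ 16 ≤ dg B y

/-- The copy condition for three relations. -/
def Copy (A B D : Fin n → Fin n → Prop) : Prop :=
  ∃ φ : Fin 16 → Fin n, Function.Injective φ ∧
      A (φ 8) (φ 9) ∧ A (φ 8) (φ 7) ∧ A (φ 8) (φ 6) ∧ A (φ 9) (φ 5) ∧ A (φ 9) (φ 4) ∧
      B (φ 10) (φ 3) ∧ B (φ 10) (φ 2) ∧ B (φ 11) (φ 1) ∧ B (φ 11) (φ 0) ∧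
      D (φ 10) (φ 11) ∧ D (φ 12) (φ 13) ∧ D (φ 14) (φ 15)

/-- Given the centre edge of the second gadget, complete to a copy from richness. -/
lemma copy_of_w (A B D : Fin n → Fin n → Prop) (hA : Rich A A) {D' : Fin n → Fin n → Prop}
    (hD : Rich D D') {w1 w2 : Fin n} (hw : w1 ≠ w2) (hDw : D w1 w2)
    (b1 : 16 ≤ dg B w1) (b2 : 16 ≤ dg B w2) : Copy A B D := by
  classical
  obtain ⟨m1, m2, hm1, hm2, hm, hDm, -, -⟩ := hD {w1, w2} (le_trans Finset.card_le_two (by norm_num))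
  obtain ⟨m3, m4, hm3, hm4, hm', hDm', -, -⟩ := hD {w1, w2, m1, m2}
    (le_trans Finset.card_le_four (by norm_num))
  obtain ⟨u1, u2, hu1, hu2, hu, hAu, a1, a2⟩ := hA {w1, w2, m1, m2, m3, m4}
    (Finset.card_le_six)
  refine embed A B D (u1 := u1) (u2 := u2) (w1 := w1) (w2 := w2) (m1 := m1) (m2 := m2)
    (m3 := m3) (m4 := m4) ?_ hAu hDw hDm hDm' a1 a2 b1 b2
  simp only [Finset.mem_insert, Finset.mem_singleton, not_or] at *
  simp only [List.nodup_cons, List.mem_cons, List.not_mem_nil, not_or, or_false,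
    not_false_eq_true, List.nodup_nil, and_true]
  obtain ⟨h1, h2⟩ := hm1
  obtain ⟨h3, h4⟩ := hm2
  obtain ⟨h5, h6, h7, h8⟩ := hm3
  obtain ⟨h9, h10, h11, h12⟩ := hm4
  obtain ⟨g1, g2, g3, g4, g5, g6⟩ := hu1
  obtain ⟨f1, f2, f3, f4, f5, f6⟩ := hu2
  refine ⟨⟨hu, g1, g2, g3, g4, g5, g6⟩, ⟨f1, f2, f3, f4, f5, f6⟩,
    ⟨hw, Ne.symm h1, Ne.symm h3, Ne.symm h5, Ne.symm h9⟩,
    ⟨Ne.symm h2, Ne.symm h4, Ne.symm h6, Ne.symm h10⟩, ⟨hm, Ne.symm h7, Ne.symm h11⟩,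
    ⟨Ne.symm h8, Ne.symm h12⟩, hm'⟩

lemma copy_of_rich (A B D : Fin n → Fin n → Prop) (hA : Rich A A) (hD : Rich D B) :
    Copy A B D := by
  obtain ⟨w1, w2, -, -, hw, hDw, b1, b2⟩ := hD ∅ (by simp)
  exact copy_of_w A B D hA hD hw hDw b1 b2

/-- Given the centre edge of the first gadget and of the second, complete to a copy. -/
lemma copy_of_u (A B D : Fin n → Fin n → Prop) {D' : Fin n → Fin n → Prop}
    (hD : Rich D D') {u1 u2 w1 w2 : Fin n} (hnd : [u1, u2, w1, w2].Nodup) (hAu : A u1 u2)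
    (a1 : 16 ≤ dg A u1) (a2 : 16 ≤ dg A u2) (hDw : D w1 w2)
    (b1 : 16 ≤ dg B w1) (b2 : 16 ≤ dg B w2) : Copy A B D := by
  classical
  obtain ⟨m1, m2, hm1, hm2, hm, hDm, -, -⟩ := hD {u1, u2, w1, w2}
    (le_trans Finset.card_le_four (by norm_num))
  obtain ⟨m3, m4, hm3, hm4, hm', hDm', -, -⟩ := hD {u1, u2, w1, w2, m1, m2}
    (Finset.card_le_six)
  refine embed A B D (u1 := u1) (u2 := u2) (w1 := w1) (w2 := w2) (m1 := m1) (m2 := m2)
    (m3 := m3) (m4 := m4) ?_ hAu hDw hDm hDm' a1 a2 b1 b2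
  simp only [List.nodup_cons, List.mem_cons, List.not_mem_nil, not_or, or_false,
    not_false_eq_true, List.nodup_nil, and_true] at hnd ⊢
  simp only [Finset.mem_insert, Finset.mem_singleton, not_or] at *
  obtain ⟨⟨n1, n2, n3⟩, ⟨n4, n5⟩, n6⟩ := hnd
  obtain ⟨h1, h2, h3, h4⟩ := hm1
  obtain ⟨h5, h6, h7, h8⟩ := hm2
  obtain ⟨g1, g2, g3, g4, g5, g6⟩ := hm3
  obtain ⟨f1, f2, f3, f4, f5, f6⟩ := hm4
  refine ⟨⟨n1, n2, n3, Ne.symm h1, Ne.symm h5, Ne.symm g1, Ne.symm f1⟩,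
    ⟨n4, n5, Ne.symm h2, Ne.symm h6, Ne.symm g2, Ne.symm f2⟩,
    ⟨n6, Ne.symm h3, Ne.symm h7, Ne.symm g3, Ne.symm f3⟩,
    ⟨Ne.symm h4, Ne.symm h8, Ne.symm g4, Ne.symm f4⟩,
    ⟨hm, Ne.symm g5, Ne.symm f5⟩, ⟨Ne.symm g6, Ne.symm f6⟩, hm'⟩

/-- If `A` is not rich (with itself), it has few ordered edges. -/
lemma sum_dg_le_of_not_rich (A : Fin n → Fin n → Prop) (hs : ∀ x y, A x y → A y x)
    (hirr : ∀ x, ¬ A x x) (h : ¬ Rich A A) : ∑ x, dg A x ≤ 44 * n := by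
  classical
  unfold Rich at h
  push Not at h
  obtain ⟨X, hX, h⟩ := h
  set S : Finset (Fin n) := X ∪ Finset.univ.filter (fun x => dg A x < 16) with hS
  -- every edge has an endpoint in S
  have hcov : ∀ x y, A x y → x ∈ S ∨ y ∈ S := by
    intro x y hxy
    by_contra hcon
    push Not at hcon
    obtain ⟨h1, h2⟩ := hcon
    simp only [hS, Finset.mem_union, Finset.mem_filter, Finset.mem_univ, true_and, not_or,
      not_lt] at h1 h2
    have hne : x ≠ y := fun e => hirr x (by rw [← e] at hxy; exact hxy)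
    have := h x y h1.1 h2.1 hne hxy h1.2
    omega
  have hdeg : ∀ x, dg A x ≤ n := by
    intro x
    unfold dg
    refine le_trans (Finset.card_le_univ _) (by simp)
  -- sum of degrees in S
  have hSsum : ∑ x ∈ S, dg A x ≤ 22 * n := by
    calc ∑ x ∈ S, dg A x ≤ ∑ x ∈ X, dg A x + ∑ x ∈ Finset.univ.filter (fun x => dg A x < 16), dg A x := by
          rw [hS, ← Finset.sum_union_inter]; exact Nat.le_add_right _ _
      _ ≤ ∑ x ∈ X, n + ∑ x ∈ (Finset.univ : Finset (Fin n)).filter (fun x => dg A x < 16), 16 := by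
          refine Nat.add_le_add (Finset.sum_le_sum (fun x _ => hdeg x))
            (Finset.sum_le_sum (fun x hx => ?_))
          simp only [Finset.mem_filter, Finset.mem_univ, true_and] at hx
          omega
      _ ≤ 6 * n + 16 * n := by
          simp only [Finset.sum_const, smul_eq_mul]
          refine Nat.add_le_add (Nat.mul_le_mul_right _ hX) ?_
          rw [mul_comm]
          refine Nat.mul_le_mul_left _ ?_
          refine le_trans (Finset.card_le_univ _) (by simp)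
      _ = 22 * n := by ring
  have e1 : ∑ x, dg A x = (Finset.univ.filter (fun q : Fin n × Fin n => A q.1 q.2)).card := by
    rw [Finset.card_filter, Fintype.sum_prod_type]
    refine Finset.sum_congr rfl (fun x _ => ?_)
    unfold dg
    rw [Finset.card_filter]
  have e2 : (Finset.univ.filter (fun q : Fin n × Fin n => A q.1 q.2)).card ≤
      (Finset.univ.filter (fun q : Fin n × Fin n => q.1 ∈ S ∧ A q.1 q.2)).card +
      (Finset.univ.filter (fun q : Fin n × Fin n => q.2 ∈ S ∧ A q.2 q.1)).card := by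
    refine le_trans (Finset.card_le_card ?_) (Finset.card_union_le _ _)
    intro q hq
    simp only [Finset.mem_filter, Finset.mem_univ, true_and, Finset.mem_union] at hq ⊢
    rcases hcov _ _ hq with h1 | h1
    · exact Or.inl ⟨h1, hq⟩
    · exact Or.inr ⟨h1, hs _ _ hq⟩
  have e3 : (Finset.univ.filter (fun q : Fin n × Fin n => q.1 ∈ S ∧ A q.1 q.2)).card =
      ∑ x ∈ S, dg A x := by
    rw [Finset.card_filter, Fintype.sum_prod_type, ← Finset.sum_filter_add_sum_filter_not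
      Finset.univ (fun x => x ∈ S)]
    have z : ∑ x ∈ Finset.univ.filter (fun x => x ∉ S), ∑ y, (if x ∈ S ∧ A x y then 1 else 0) = 0 := by
      refine Finset.sum_eq_zero (fun x hx => Finset.sum_eq_zero (fun y _ => ?_))
      simp only [Finset.mem_filter, Finset.mem_univ, true_and] at hx
      simp [hx]
    have w : ∑ x ∈ Finset.univ.filter (fun x => x ∈ S), ∑ y, (if x ∈ S ∧ A x y then 1 else 0) =
        ∑ x ∈ S, dg A x := by
      have : Finset.univ.filter (fun x => x ∈ S) = S := by ext; simp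
      rw [this]
      refine Finset.sum_congr rfl (fun x hx => ?_)
      unfold dg
      rw [Finset.card_filter]
      refine Finset.sum_congr rfl (fun y _ => ?_)
      simp [hx]
    simp only at z w ⊢
    rw [z, w]; simp
  have e4 : (Finset.univ.filter (fun q : Fin n × Fin n => q.2 ∈ S ∧ A q.2 q.1)).card =
      (Finset.univ.filter (fun q : Fin n × Fin n => q.1 ∈ S ∧ A q.1 q.2)).card := by
    refine Finset.card_bij (fun q _ => (q.2, q.1)) ?_ ?_ ?_
    · intro q hq; simpa using hq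
    · intro q _ q' _ h; simp only [Prod.mk.injEq] at h; exact Prod.ext h.2 h.1
    · intro q hq; exact ⟨(q.2, q.1), by simpa using hq, rfl⟩
  rw [e1]
  omega

end Pool.Agent.Helper34.Pattern
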