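import Mathlib
import Pool.Agent.Helper34.PatternEmbed

set_option autoImplicit false

namespace Pool.Agent.Helper34.Pattern

open Finset

variable {n : ℕ}

/-- The edges of colour `a`. -/
def E (c : Fin n → Fin n → Fin 3) (a : Fin 3) (x y : Fin n) : Prop := x ≠ y ∧ c x y = a

/-- The colouring `c` contains the patterned forest. -/
def PCopy (c : Fin n → Fin n → Fin 3) : Prop :=
  ∃ a b d : Fin 3, a ≠ b ∧ a ≠ d ∧ b ≠ d ∧ Copy (E c a) (E c b) (E c d)

open Classical in
/-- The vertex `v` is nearly monochromatic. -/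
def NM (c : Fin n → Fin n → Fin 3) (v : Fin n) : Prop :=
  ∃ a, (Finset.univ.filter (fun y => y ≠ v ∧ c v y ≠ a)).card ≤ 88

lemma third (a b : Fin 3) (h : a ≠ b) : ∃ e : Fin 3, e ≠ a ∧ e ≠ b ∧ ∀ f, f = a ∨ f = b ∨ f = e := by
  revert a b; decide

open Classical in
lemma card_le_dg_add (c : Fin n → Fin n → Fin 3) (x : Fin n) (a b e : Fin 3)
    (h : ∀ f, f = a ∨ f = b ∨ f = e) :
    (Finset.univ.filter (fun y => y ≠ x ∧ c x y ≠ e)).card ≤ dg (E c a) x + dg (E c b) x := by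
  unfold dg
  refine le_trans (Finset.card_le_card ?_) (Finset.card_union_le _ _)
  intro y hy
  rw [Finset.mem_filter] at hy
  rw [Finset.mem_union, Finset.mem_filter, Finset.mem_filter]
  obtain ⟨-, hy1, hy2⟩ := hy
  rcases h (c x y) with h1 | h1 | h1
  · exact Or.inl ⟨Finset.mem_univ _, Ne.symm hy1, h1⟩
  · exact Or.inr ⟨Finset.mem_univ _, Ne.symm hy1, h1⟩
  · exact absurd h1 hy2

lemma big_or (c : Fin n → Fin n → Fin 3) (x : Fin n) (hNM : ¬ NM c x) (a b : Fin 3) (hab : a ≠ b) :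
    16 ≤ dg (E c a) x ∨ 16 ≤ dg (E c b) x := by
  obtain ⟨e, he1, he2, he⟩ := third a b hab
  by_contra hcon
  push Not at hcon
  refine hNM ⟨e, ?_⟩
  have := card_le_dg_add c x a b e he
  omega

lemma rich_or (c : Fin n → Fin n → Fin 3) (hs : ∀ x y, c x y = c y x) (hNM : ∀ v, ¬ NM c v)
    (hn : 0 < n) (a b : Fin 3) (hab : a ≠ b) : Rich (E c a) (E c a) ∨ Rich (E c b) (E c b) := by
  by_contra hcon
  push Not at hcon
  obtain ⟨h1, h2⟩ := hcon
  have sy : ∀ a x y, E c a x y → E c a y x := fun a x y h => ⟨Ne.symm h.1, by rw [hs]; exact h.2⟩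
  have ir : ∀ a x, ¬ E c a x x := fun a x h => h.1 rfl
  have s1 := sum_dg_le_of_not_rich (E c a) (sy a) (ir a) h1
  have s2 := sum_dg_le_of_not_rich (E c b) (sy b) (ir b) h2
  obtain ⟨e, he1, he2, he⟩ := third a b hab
  have : ∀ x, 89 ≤ dg (E c a) x + dg (E c b) x := by
    intro x
    by_contra hx
    push Not at hx
    refine hNM x ⟨e, ?_⟩
    have := card_le_dg_add c x a b e he
    omega
  have s3 : ∑ x : Fin n, 89 ≤ ∑ x, (dg (E c a) x + dg (E c b) x) := Finset.sum_le_sum (fun x _ => this x)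
  rw [Finset.sum_add_distrib] at s3
  simp only [Finset.sum_const, Finset.card_univ, Fintype.card_fin, smul_eq_mul] at s3
  omega

open Classical in
theorem structure_thm (c : Fin n → Fin n → Fin 3) (hs : ∀ x y, c x y = c y x)
    (hP : ¬ PCopy c) (hNM : ∀ v, ¬ NM c v) (hn : 100 ≤ n) :
    ∃ (d : Fin 3) (v0 : Fin n), (Finset.univ.filter
      (fun q : Fin n × Fin n => q.1 ≠ v0 ∧ q.2 ≠ v0 ∧ E c d q.1 q.2)).card ≤ 832 := by
  have sy : ∀ a x y, E c a x y → E c a y x := fun a x y h => ⟨Ne.symm h.1, by rw [hs]; exact h.2⟩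
  -- two rich colours
  obtain ⟨a1, a2, d, h12, h1d, h2d, hall, r1, r2⟩ : ∃ a1 a2 d : Fin 3, a1 ≠ a2 ∧ a1 ≠ d ∧ a2 ≠ d ∧
      (∀ f, f = a1 ∨ f = a2 ∨ f = d) ∧ Rich (E c a1) (E c a1) ∧ Rich (E c a2) (E c a2) := by
    have k01 := rich_or c hs hNM (by omega) 0 1 (by decide)
    have k02 := rich_or c hs hNM (by omega) 0 2 (by decide)
    have k12 := rich_or c hs hNM (by omega) 1 2 (by decide)
    by_cases k0 : Rich (E c 0) (E c 0)
    · rcases k12 with k1 | k2
      · exact ⟨0, 1, 2, by decide, by decide, by decide, by decide, k0, k1⟩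
      · exact ⟨0, 2, 1, by decide, by decide, by decide, by decide, k0, k2⟩
    · have k1 := k01.resolve_left k0
      have k2 := k02.resolve_left k0
      exact ⟨1, 2, 0, by decide, by decide, by decide, by decide, k1, k2⟩
  have nX1 : ¬ Rich (E c d) (E c a2) := fun h =>
    hP ⟨a1, a2, d, h12, h1d, h2d, copy_of_rich _ _ _ r1 h⟩
  have nX2 : ¬ Rich (E c d) (E c a1) := fun h =>
    hP ⟨a2, a1, d, h12.symm, h2d, h1d, copy_of_rich _ _ _ r2 h⟩
  have nX3 : ¬ Rich (E c a2) (E c d) := fun h =>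
    hP ⟨a1, d, a2, h1d, h12, h2d.symm, copy_of_rich _ _ _ r1 h⟩
  have nX4 : ¬ Rich (E c a1) (E c d) := fun h =>
    hP ⟨a2, d, a1, h2d, h12.symm, h1d.symm, copy_of_rich _ _ _ r2 h⟩
  unfold Rich at nX1 nX2 nX3 nX4
  push Not at nX1 nX2 nX3 nX4
  obtain ⟨X1, c1, nX1⟩ := nX1
  obtain ⟨X2, c2, nX2⟩ := nX2
  obtain ⟨X3, c3, nX3⟩ := nX3
  obtain ⟨X4, c4, nX4⟩ := nX4
  set X : Finset (Fin n) := X1 ∪ X2 ∪ X3 ∪ X4 with hXdef
  have cX : X.card ≤ 24 := by
    have e1 := Finset.card_union_le (X1 ∪ X2 ∪ X3) X4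
    have e2 := Finset.card_union_le (X1 ∪ X2) X3
    have e3 := Finset.card_union_le X1 X2
    rw [hXdef]
    omega
  have hX : ∀ x, x ∉ X → x ∉ X1 ∧ x ∉ X2 ∧ x ∉ X3 ∧ x ∉ X4 := by
    intro x hx
    simp only [hXdef, Finset.mem_union, not_or] at hx
    tauto
  -- d-big vertices outside X
  set Z : Finset (Fin n) := Finset.univ.filter (fun x => x ∉ X ∧ 16 ≤ dg (E c d) x) with hZdef
  have cZ : Z.card ≤ 2 := by
    set Z1 : Finset (Fin n) := Z.filter (fun x => 16 ≤ dg (E c a1) x) with hZ1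
    set Z2 : Finset (Fin n) := Z.filter (fun x => 16 ≤ dg (E c a2) x) with hZ2
    have hsub : Z ⊆ Z1 ∪ Z2 := by
      intro x hx
      rcases big_or c x (hNM x) a1 a2 h12 with h | h
      · exact Finset.mem_union_left _ (Finset.mem_filter.2 ⟨hx, h⟩)
      · exact Finset.mem_union_right _ (Finset.mem_filter.2 ⟨hx, h⟩)
    have cZ1 : Z1.card ≤ 1 := by
      rw [Finset.card_le_one]
      intro x hx y hy
      by_contra hne
      simp only [hZ1, hZdef, Finset.mem_filter, Finset.mem_univ, true_and] at hx hy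
      obtain ⟨⟨hxX, hxd⟩, hx1⟩ := hx
      obtain ⟨⟨hyX, hyd⟩, hy1⟩ := hy
      have ax := hX x hxX
      have ay := hX y hyX
      rcases hall (c x y) with h | h | h
      · have := nX4 x y ax.2.2.2 ay.2.2.2 hne ⟨hne, h⟩ hxd
        omega
      · have := nX3 x y ax.2.2.1 ay.2.2.1 hne ⟨hne, h⟩ hxd
        omega
      · have := nX2 x y ax.2.1 ay.2.1 hne ⟨hne, h⟩ hx1
        omega
    have cZ2 : Z2.card ≤ 1 := by
      rw [Finset.card_le_one]
      intro x hx y hy
      by_contra hne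
      simp only [hZ2, hZdef, Finset.mem_filter, Finset.mem_univ, true_and] at hx hy
      obtain ⟨⟨hxX, hxd⟩, hx1⟩ := hx
      obtain ⟨⟨hyX, hyd⟩, hy1⟩ := hy
      have ax := hX x hxX
      have ay := hX y hyX
      rcases hall (c x y) with h | h | h
      · have := nX4 x y ax.2.2.2 ay.2.2.2 hne ⟨hne, h⟩ hxd
        omega
      · have := nX3 x y ax.2.2.1 ay.2.2.1 hne ⟨hne, h⟩ hxd
        omega
      · have := nX1 x y ax.1 ay.1 hne ⟨hne, h⟩ hx1
        omega
    have := Finset.card_le_card hsub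
    have := Finset.card_union_le Z1 Z2
    omega
  set X' : Finset (Fin n) := X ∪ Z with hX'def
  have cX' : X'.card ≤ 26 := by
    have := Finset.card_union_le X Z
    rw [hX'def]
    omega
  have hX' : ∀ x, x ∉ X' → x ∉ X ∧ 16 ≤ dg (E c a1) x ∧ 16 ≤ dg (E c a2) x := by
    intro x hx
    simp only [hX'def, Finset.mem_union, not_or] at hx
    have hnd : ¬ 16 ≤ dg (E c d) x := fun h => hx.2 (by simp [hZdef, hx.1, h])
    refine ⟨hx.1, ?_, ?_⟩
    · exact (big_or c x (hNM x) a1 d h1d).resolve_right hnd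
    · exact (big_or c x (hNM x) a2 d h2d).resolve_right hnd
  have hdE : ∀ x y, E c d x y → x ∈ X' ∨ y ∈ X' := by
    intro x y hxy
    by_contra hcon
    push Not at hcon
    obtain ⟨bx, by'⟩ := hcon
    obtain ⟨x1, x2, x3⟩ := hX' x bx
    obtain ⟨y1, y2, y3⟩ := hX' y by'
    have := nX1 x y (hX x x1).1 (hX y y1).1 hxy.1 hxy x3
    omega
  -- at most one d-big vertex
  have hone : ∀ v1 v2, v1 ≠ v2 → 16 ≤ dg (E c d) v1 → 16 ≤ dg (E c d) v2 → False := by
    intro v1 v2 hv b1 b2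
    rcases hall (c v1 v2) with h | h | h
    · exact hP ⟨a2, d, a1, h2d, h12.symm, h1d.symm, copy_of_w _ _ _ r2 r1 hv ⟨hv, h⟩ b1 b2⟩
    · exact hP ⟨a1, d, a2, h1d, h12, h2d.symm, copy_of_w _ _ _ r1 r2 hv ⟨hv, h⟩ b1 b2⟩
    · -- choose x, y outside
      obtain ⟨x, hx⟩ : ∃ x, x ∉ X' ∪ {v1, v2} := by
        by_contra hcon
        push Not at hcon
        have h1 : (Finset.univ : Finset (Fin n)).card ≤ (X' ∪ {v1, v2}).card :=
          Finset.card_le_card (fun x _ => hcon x)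
        have h2 := Finset.card_union_le X' {v1, v2}
        have h3 : ({v1, v2} : Finset (Fin n)).card ≤ 2 := Finset.card_le_two
        simp only [Finset.card_univ, Fintype.card_fin] at h1
        omega
      obtain ⟨y, hy⟩ : ∃ y, y ∉ X' ∪ {v1, v2, x} := by
        by_contra hcon
        push Not at hcon
        have h1 : (Finset.univ : Finset (Fin n)).card ≤ (X' ∪ {v1, v2, x}).card :=
          Finset.card_le_card (fun x _ => hcon x)
        have h2 := Finset.card_union_le X' {v1, v2, x}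
        have h3 : ({v1, v2, x} : Finset (Fin n)).card ≤ 3 := Finset.card_le_three
        simp only [Finset.card_univ, Fintype.card_fin] at h1
        omega
      simp only [Finset.mem_union, Finset.mem_insert, Finset.mem_singleton, not_or] at hx hy
      obtain ⟨hxX, hx1, hx2⟩ := hx
      obtain ⟨hyX, hy1, hy2, hyx⟩ := hy
      obtain ⟨x1, x2, x3⟩ := hX' x hxX
      obtain ⟨y1, y2, y3⟩ := hX' y hyX
      have hxy : x ≠ y := Ne.symm hyx
      have hnd : [v1, v2, x, y].Nodup := by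
        simp only [List.nodup_cons, List.mem_cons, List.not_mem_nil, not_or, or_false,
          not_false_eq_true, List.nodup_nil, and_true]
        exact ⟨⟨hv, Ne.symm hx1, Ne.symm hy1⟩, ⟨Ne.symm hx2, Ne.symm hy2⟩, hxy⟩
      rcases hall (c x y) with g | g | g
      · exact hP ⟨d, a2, a1, h2d.symm, h1d.symm, h12.symm,
          copy_of_u _ _ _ r1 hnd ⟨hv, h⟩ b1 b2 ⟨hxy, g⟩ x3 y3⟩
      · exact hP ⟨d, a1, a2, h1d.symm, h2d.symm, h12,
          copy_of_u _ _ _ r2 hnd ⟨hv, h⟩ b1 b2 ⟨hxy, g⟩ x2 y2⟩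
      · rcases hdE x y ⟨hxy, g⟩ with h' | h'
        · exact hxX h'
        · exact hyX h'
  obtain ⟨v0, hv0⟩ : ∃ v0, ∀ x, x ≠ v0 → dg (E c d) x < 16 := by
    by_cases hex : ∃ v0, 16 ≤ dg (E c d) v0
    · obtain ⟨v0, h0⟩ := hex
      refine ⟨v0, fun x hx => ?_⟩
      by_contra hcon
      push Not at hcon
      exact hone x v0 hx hcon h0
    · push Not at hex
      exact ⟨⟨0, by omega⟩, fun x _ => hex x⟩
  refine ⟨d, v0, ?_⟩
  set S : Finset (Fin n) := X'.filter (fun x => x ≠ v0) with hSdef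
  have cS : S.card ≤ 26 := le_trans (Finset.card_filter_le _ _) cX'
  have e0 : (Finset.univ.filter (fun q : Fin n × Fin n => q.1 ∈ S ∧ E c d q.1 q.2)).card ≤ 416 := by
    have e1 : (Finset.univ.filter (fun q : Fin n × Fin n => q.1 ∈ S ∧ E c d q.1 q.2)).card ≤
        ∑ x ∈ S, dg (E c d) x := by
      have hsub : Finset.univ.filter (fun q : Fin n × Fin n => q.1 ∈ S ∧ E c d q.1 q.2) ⊆
          S.biUnion (fun x => (Finset.univ.filter (fun y => E c d x y)).image (fun y => (x, y))) := by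
        intro q hq
        simp only [Finset.mem_filter, Finset.mem_univ, true_and] at hq
        simp only [Finset.mem_biUnion, Finset.mem_image, Finset.mem_filter, Finset.mem_univ,
          true_and]
        exact ⟨q.1, hq.1, q.2, hq.2, rfl⟩
      refine le_trans (Finset.card_le_card hsub) (le_trans Finset.card_biUnion_le ?_)
      refine Finset.sum_le_sum (fun x _ => ?_)
      unfold dg
      exact Finset.card_image_le
    refine le_trans e1 ?_
    calc ∑ x ∈ S, dg (E c d) x ≤ ∑ x ∈ S, 16 := by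
          refine Finset.sum_le_sum (fun x hx => ?_)
          simp only [hSdef, Finset.mem_filter] at hx
          exact le_of_lt (hv0 x hx.2)
      _ = S.card * 16 := by simp
      _ ≤ 416 := by omega
  have e4 : (Finset.univ.filter (fun q : Fin n × Fin n => q.2 ∈ S ∧ E c d q.2 q.1)).card =
      (Finset.univ.filter (fun q : Fin n × Fin n => q.1 ∈ S ∧ E c d q.1 q.2)).card := by
    refine Finset.card_bij (fun q _ => (q.2, q.1)) ?_ ?_ ?_
    · intro q hq; simpa using hq
    · intro q _ q' _ h; simp only [Prod.mk.injEq] at h; exact Prod.ext h.2 h.1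
    · intro q hq; exact ⟨(q.2, q.1), by simpa using hq, rfl⟩
  have e5 : (Finset.univ.filter
      (fun q : Fin n × Fin n => q.1 ≠ v0 ∧ q.2 ≠ v0 ∧ E c d q.1 q.2)).card ≤
      (Finset.univ.filter (fun q : Fin n × Fin n => q.1 ∈ S ∧ E c d q.1 q.2)).card +
      (Finset.univ.filter (fun q : Fin n × Fin n => q.2 ∈ S ∧ E c d q.2 q.1)).card := by
    refine le_trans (Finset.card_le_card ?_) (Finset.card_union_le _ _)
    intro q hq
    simp only [Finset.mem_filter, Finset.mem_univ, true_and, Finset.mem_union] at hq ⊢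
    obtain ⟨g1, g2, g3⟩ := hq
    rcases hdE _ _ g3 with h1 | h1
    · exact Or.inl ⟨by simp [hSdef, h1, g1], g3⟩
    · exact Or.inr ⟨by simp [hSdef, h1, g2], sy _ _ _ g3⟩
  omega

end Pool.Agent.Helper34.Pattern
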