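import Mathlib
import Pool.Agent.Helper34.PatternStruct

set_option autoImplicit false

namespace Pool.Agent.Helper34.Pattern

open Finset

/-- Assemble a symmetric matrix on `Fin (m+1)` from the star at `v` and the rest. -/
def build {m : ℕ} {α : Type} (z : α) (v : Fin (m + 1)) (s : Fin m → α) (r : Fin m → Fin m → α) :
    Fin (m + 1) → Fin (m + 1) → α :=
  Fin.insertNth (α := fun _ => Fin (m + 1) → α) v (Fin.insertNth (α := fun _ => α) v z s)
    (fun x => Fin.insertNth (α := fun _ => α) v (s x) (r x))

section build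
variable {m : ℕ} {α : Type} (z : α) (v : Fin (m + 1)) (s : Fin m → α) (r : Fin m → Fin m → α)

@[simp] lemma build_vv : build z v s r v v = z := by simp [build]
@[simp] lemma build_vs (x : Fin m) : build z v s r v (v.succAbove x) = s x := by simp [build]
@[simp] lemma build_sv (x : Fin m) : build z v s r (v.succAbove x) v = s x := by simp [build]
@[simp] lemma build_ss (x y : Fin m) :
    build z v s r (v.succAbove x) (v.succAbove y) = r x y := by simp [build]

lemma build_symm (hr : ∀ x y, r x y = r y x) (x y : Fin (m + 1)) :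
    build z v s r x y = build z v s r y x := by
  rcases Fin.eq_self_or_eq_succAbove v x with h | ⟨x, rfl⟩ <;>
  rcases Fin.eq_self_or_eq_succAbove v y with h' | ⟨y, rfl⟩
  · rw [h, h']
  · rw [h, build_vs, build_sv]
  · rw [h', build_vs, build_sv]
  · rw [build_ss, build_ss, hr]

lemma build_diag (hr : ∀ x, r x x = z) (x : Fin (m + 1)) :
    build z v s r x x = z := by
  rcases Fin.eq_self_or_eq_succAbove v x with h | ⟨x, rfl⟩
  · rw [h, build_vv]
  · rw [build_ss, hr]

lemma build_eq (c : Fin (m + 1) → Fin (m + 1) → α) (hs : ∀ x y, c x y = c y x)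
    (hd : ∀ x, c x x = z) (s : Fin m → α) (hs' : ∀ w, s w = c v (v.succAbove w))
    (r : Fin m → Fin m → α) (hr' : ∀ x y, r x y = c (v.succAbove x) (v.succAbove y)) :
    build z v s r = c := by
  funext x y
  rcases Fin.eq_self_or_eq_succAbove v x with h | ⟨x, rfl⟩ <;>
  rcases Fin.eq_self_or_eq_succAbove v y with h' | ⟨y, rfl⟩
  · subst h; subst h'; rw [build_vv, hd]
  · subst h; rw [build_vs, hs']
  · subst h'; rw [build_sv, hs', hs]
  · rw [build_ss, hr']
end build

/-- Two-colourings of the complete graph (symmetric matrices with zero diagonal). -/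
abbrev Col2 (m : ℕ) : Type :=
  {c : Fin m → Fin m → Fin 2 // (∀ x y, c x y = c y x) ∧ ∀ x, c x x = 0}

/-- Three-colourings of the complete graph without the patterned forest. -/
abbrev Good (m : ℕ) : Type :=
  {c : Fin m → Fin m → Fin 3 // ((∀ x y, c x y = c y x) ∧ ∀ x, c x x = 0) ∧ ¬ PCopy c}

/-- The equivalence used for counting two-colourings. -/
def col2Equiv (m : ℕ) : Col2 (m + 1) ≃ (Fin m → Fin 2) × Col2 m where
  toFun b := (fun w => b.1 0 ((0 : Fin (m + 1)).succAbove w),
    ⟨fun x y => b.1 ((0 : Fin (m + 1)).succAbove x) ((0 : Fin (m + 1)).succAbove y),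
      fun x y => b.2.1 _ _, fun x => b.2.2 _⟩)
  invFun p := ⟨build 0 0 p.1 p.2.1, build_symm _ _ _ _ p.2.2.1, build_diag _ _ _ _ p.2.2.2⟩
  left_inv b := Subtype.ext (build_eq _ _ b.1 b.2.1 b.2.2 _ (fun _ => rfl) _ (fun _ _ => rfl))
  right_inv p := by
    refine Prod.ext ?_ (Subtype.ext ?_)
    · funext w; simp only [build_vs]
    · funext x y; simp only [build_ss]

lemma card_col2_succ (m : ℕ) : Nat.card (Col2 (m + 1)) = 2 ^ m * Nat.card (Col2 m) := by
  rw [Nat.card_congr (col2Equiv m), Nat.card_prod, Nat.card_fun]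
  simp

lemma exists_enum {β : Type} (N : ℕ) (S : Finset β) (h : S.card ≤ N) :
    ∃ g : Fin N → Option β, ∀ b, (∃ j, g j = some b) ↔ b ∈ S := by
  refine ⟨fun j => S.toList[(j : ℕ)]?, fun b => ?_⟩
  rw [← Finset.mem_toList, List.mem_iff_getElem?]
  constructor
  · rintro ⟨j, hj⟩; exact ⟨j, hj⟩
  · rintro ⟨j, hj⟩
    have : j < N := by
      have h1 := (List.getElem?_eq_some_iff.1 hj).1
      rw [Finset.length_toList] at h1
      omega
    exact ⟨⟨j, this⟩, hj⟩

lemma pcopy_restrict {m n : ℕ} (ι : Fin m → Fin n) (hι : Function.Injective ι)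
    (c : Fin n → Fin n → Fin 3) (h : PCopy (fun x y => c (ι x) (ι y))) : PCopy c := by
  obtain ⟨a, b, d, hab, had, hbd, φ, hφ, h1, h2, h3, h4, h5, h6, h7, h8, h9, h10, h11, h12⟩ := h
  have key : ∀ a x y, E (fun x y => c (ι x) (ι y)) a x y → E c a (ι x) (ι y) :=
    fun a x y h => ⟨fun e => h.1 (hι e), h.2⟩
  exact ⟨a, b, d, hab, had, hbd, ι ∘ φ, hι.comp hφ, key _ _ _ h1, key _ _ _ h2, key _ _ _ h3,
    key _ _ _ h4, key _ _ _ h5, key _ _ _ h6, key _ _ _ h7, key _ _ _ h8, key _ _ _ h9,
    key _ _ _ h10, key _ _ _ h11, key _ _ _ h12⟩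

open Classical in
/-- Star of a nearly monochromatic vertex, decoded from its majority colour and exceptions. -/
noncomputable def starA {m : ℕ} (a : Fin 3) (g : Fin 88 → Option (Fin m × Fin 3)) (w : Fin m) :
    Fin 3 :=
  if h : ∃ k, ∃ j, g j = some (w, k) then h.choose else a

open Classical in
/-- Rest colouring decoded from an exceptional set and a two-colouring. -/
noncomputable def restB {m : ℕ} (d : Fin 3) (g : Fin 832 → Option (Fin m × Fin m))
    (b : Fin m → Fin m → Fin 2) (x y : Fin m) : Fin 3 :=
  if x = y then 0 else if ∃ j, g j = some (x, y) then d else if b x y = 0 then d + 1 else d + 2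

/-- The code space. -/
abbrev Code (m : ℕ) : Type :=
  (Fin (m + 1) × Fin 3 × (Fin 88 → Option (Fin m × Fin 3)) × Good m) ⊕
  (Fin (m + 1) × Fin 3 × (Fin m → Fin 3) × (Fin 832 → Option (Fin m × Fin m)) × Col2 m)

/-- The decoding map. -/
noncomputable def decode {m : ℕ} : Code m → (Fin (m + 1) → Fin (m + 1) → Fin 3)
  | Sum.inl (v, a, g, r) => build 0 v (starA a g) r.1
  | Sum.inr (v, d, s, g, b) => build 0 v s (restB d g b.1)

lemma exists_code {m : ℕ} (hm : 99 ≤ m) (c : Good (m + 1)) : ∃ x : Code m, decode x = c.1 := by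
  classical
  obtain ⟨c, ⟨hs, hd⟩, hP⟩ := c
  by_cases hNM : ∃ v, NM c v
  · obtain ⟨v, a, ha⟩ := hNM
    set S : Finset (Fin m × Fin 3) :=
      ((Finset.univ : Finset (Fin m)).filter (fun w => c v (v.succAbove w) ≠ a)).image
        (fun w => (w, c v (v.succAbove w))) with hS
    have hcard : S.card ≤ 88 := by
      refine le_trans Finset.card_image_le (le_trans ?_ ha)
      refine Finset.card_le_card_of_injOn (fun w => v.succAbove w) ?_ ?_
      · intro w hw
        simp only [Finset.coe_filter, Finset.mem_univ, true_and, Set.mem_ofPred_eq] at hw ⊢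
        exact ⟨Fin.succAbove_ne v w, hw⟩
      · intro w _ w' _ h
        exact Fin.succAbove_right_injective h
    obtain ⟨g, hg⟩ := exists_enum 88 S hcard
    have hr : ¬ PCopy (fun x y => c (v.succAbove x) (v.succAbove y)) :=
      fun h => hP (pcopy_restrict _ (Fin.succAbove_right_injective) c h)
    refine ⟨Sum.inl (v, a, g, ⟨fun x y => c (v.succAbove x) (v.succAbove y),
      ⟨fun x y => hs _ _, fun x => hd _⟩, hr⟩), ?_⟩
    refine build_eq _ _ c hs hd _ ?_ _ (fun _ _ => rfl)
    intro w
    unfold starA
    by_cases hw : c v (v.succAbove w) = a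
    · have : ¬ ∃ k, ∃ j, g j = some (w, k) := by
        rintro ⟨k, hk⟩
        rw [hg] at hk
        simp only [hS, Finset.mem_image, Finset.mem_filter, Finset.mem_univ, true_and,
          Prod.mk.injEq] at hk
        obtain ⟨w', h1, h2, h3⟩ := hk
        rw [h2] at h1
        exact h1 hw
      rw [dif_neg this, hw]
    · have hex : ∃ k, ∃ j, g j = some (w, k) := by
        refine ⟨c v (v.succAbove w), ?_⟩
        rw [hg]
        simp only [hS, Finset.mem_image, Finset.mem_filter, Finset.mem_univ, true_and,
          Prod.mk.injEq]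
        exact ⟨w, hw, rfl, rfl⟩
      rw [dif_pos hex]
      have h1 := hex.choose_spec
      rw [hg] at h1
      simp only [hS, Finset.mem_image, Finset.mem_filter, Finset.mem_univ, true_and,
        Prod.mk.injEq] at h1
      obtain ⟨w', _, h2, h3⟩ := h1
      rw [← h3, h2]
  · push Not at hNM
    obtain ⟨d, v, hdv⟩ := structure_thm c hs hP hNM (by omega)
    set r : Fin m → Fin m → Fin 3 := fun x y => c (v.succAbove x) (v.succAbove y) with hr
    set S : Finset (Fin m × Fin m) := Finset.univ.filter (fun q => E r d q.1 q.2) with hS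
    have hcard : S.card ≤ 832 := by
      refine le_trans ?_ hdv
      refine Finset.card_le_card_of_injOn (fun q => (v.succAbove q.1, v.succAbove q.2)) ?_ ?_
      · intro q hq
        simp only [hS, Finset.coe_filter, Finset.mem_univ, true_and, Set.mem_ofPred_eq] at hq ⊢
        exact ⟨Fin.succAbove_ne v _, Fin.succAbove_ne v _,
          fun e => hq.1 (Fin.succAbove_right_injective e), hq.2⟩
      · intro q _ q' _ h
        simp only [Prod.mk.injEq] at h
        exact Prod.ext (Fin.succAbove_right_injective h.1) (Fin.succAbove_right_injective h.2)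
    obtain ⟨g, hg⟩ := exists_enum 832 S hcard
    have rs : ∀ x y, r x y = r y x := fun x y => hs _ _
    refine ⟨Sum.inr (v, d, fun w => c v (v.succAbove w), g,
      ⟨fun x y => if x = y then 0 else if r x y = d + 1 then 0 else 1, ?_, ?_⟩), ?_⟩
    · intro x y
      change (if x = y then 0 else if r x y = d + 1 then 0 else 1) =
        (if y = x then (0 : Fin 2) else if r y x = d + 1 then 0 else 1)
      rw [rs x y]
      by_cases hxy : x = y
      · simp [hxy]
      · simp [hxy, Ne.symm hxy]
    · intro x; simp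
    · refine build_eq _ _ c hs hd _ (fun _ => rfl) _ ?_
      intro x y
      unfold restB
      by_cases hxy : x = y
      · subst hxy; simp [hd]
      · rw [if_neg hxy]
        have hm : (∃ j, g j = some (x, y)) ↔ r x y = d := by
          rw [hg, hS, Finset.mem_filter]
          exact ⟨fun h => h.2.2, fun h => ⟨Finset.mem_univ _, hxy, h⟩⟩
        change _ = r x y
        have h3 : ∀ u d : Fin 3, (if u = d then d else if (if u = d + 1 then (0 : Fin 2) else 1) = 0
          then d + 1 else d + 2) = u := by decide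
        by_cases hex : ∃ j, g j = some (x, y)
        · rw [if_pos hex, hm.1 hex]
        · have hnd : r x y ≠ d := fun h => hex (hm.2 h)
          rw [if_neg hex]
          have h4 := h3 (r x y) d
          rw [if_neg hnd] at h4
          rw [← h4]
          simp only [hxy, if_false]

theorem card_good_succ {m : ℕ} (hm : 99 ≤ m) :
    Nat.card (Good (m + 1)) ≤ (m + 1) * (3 * ((m * 3 + 1) ^ 88 * Nat.card (Good m))) +
      (m + 1) * (3 * (3 ^ m * ((m * m + 1) ^ 832 * Nat.card (Col2 m)))) := by
  have h := Nat.card_le_card_of_injective (fun c : Good (m + 1) => (exists_code hm c).choose)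
    (by
      intro c c' h
      have h1 := (exists_code hm c).choose_spec
      have h2 := (exists_code hm c').choose_spec
      simp only at h
      rw [h] at h1
      exact Subtype.ext (h1.symm.trans h2))
  refine le_trans h (le_of_eq ?_)
  rw [Nat.card_sum, Nat.card_prod, Nat.card_prod, Nat.card_prod, Nat.card_prod, Nat.card_prod,
    Nat.card_prod, Nat.card_prod, Nat.card_fun, Nat.card_fun, Nat.card_fun, Finite.card_option,
    Finite.card_option, Nat.card_prod, Nat.card_prod]
  simp

end Pool.Agent.Helper34.Pattern
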