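import Mathlib
import Pool.Agent.Helper34.PatternCount
import Pool.Agent.Helper34.PatternAsym

set_option autoImplicit false

namespace Pool.Agent.Helper34.Pattern

open Finset

/-- The forest. -/
def F0 : Finset (Finset (Fin 16)) :=
  {{8, 9}, {8, 7}, {8, 6}, {9, 5}, {9, 4}, {10, 3}, {10, 2}, {11, 1}, {11, 0}, {10, 11},
    {12, 13}, {14, 15}}

/-- Its pattern. -/
def p0 (e : Finset (Fin 16)) : Fin 3 :=
  if e ∈ ({{8, 9}, {8, 7}, {8, 6}, {9, 5}, {9, 4}} : Finset (Finset (Fin 16))) then 0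
  else if e ∈ ({{10, 3}, {10, 2}, {11, 1}, {11, 0}} : Finset (Finset (Fin 16))) then 1 else 2

lemma p0_surj : ∀ i : Fin 3, ∃ e ∈ F0, p0 e = i := by decide +kernel

lemma img {n : ℕ} (φ : Fin 16 → Fin n) (i j : Fin 16) :
    ({i, j} : Finset (Fin 16)).image φ = {φ i, φ j} := by
  rw [Finset.image_insert, Finset.image_singleton]

/-- To check something for all edges of `F0`, it is enough to check it for the 12 edges. -/
lemma forall_F0 (Q : Finset (Fin 16) → Prop) (h1 : Q {8, 9}) (h2 : Q {8, 7}) (h3 : Q {8, 6})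
    (h4 : Q {9, 5}) (h5 : Q {9, 4}) (h6 : Q {10, 3}) (h7 : Q {10, 2}) (h8 : Q {11, 1})
    (h9 : Q {11, 0}) (h10 : Q {10, 11}) (h11 : Q {12, 13}) (h12 : Q {14, 15}) :
    ∀ e ∈ F0, Q e := by
  intro e he
  simp only [F0, Finset.mem_insert, Finset.mem_singleton] at he
  rcases he with h | h | h | h | h | h | h | h | h | h | h | h <;> rw [h] <;> assumption

lemma F0_card : ∀ e ∈ F0, e.card = 2 := by
  apply forall_F0 <;> rfl

lemma F0_linear : ∀ e ∈ F0, ∀ e' ∈ F0, e ≠ e' → (e ∩ e').card ≤ 1 := by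
  apply forall_F0 <;> apply forall_F0 <;> decide

/-- Sparseness of graphs without the forest. -/
lemma ex_small (ε : ℝ) (hε : 0 < ε) : ∃ N : ℕ, ∀ n : ℕ, N ≤ n → ∀ H : Finset (Finset (Fin n)),
    (∀ e ∈ H, e.card = 2) →
    (¬ ∃ φ : Fin 16 → Fin n, Function.Injective φ ∧ ∀ e ∈ F0, e.image φ ∈ H) →
    (H.card : ℝ) ≤ ε * (n : ℝ) ^ 2 := by
  classical
  obtain ⟨N, hN⟩ := exists_nat_gt (44 / ε)
  refine ⟨N, fun n hn H hH hfree => ?_⟩
  set R : Fin n → Fin n → Prop := fun x y => x ≠ y ∧ ({x, y} : Finset (Fin n)) ∈ H with hR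
  have hs : ∀ x y, R x y → R y x := fun x y h => ⟨Ne.symm h.1, by rw [Finset.pair_comm]; exact h.2⟩
  have hir : ∀ x, ¬ R x x := fun x h => h.1 rfl
  have hnr : ¬ Rich R R := by
    intro h
    obtain ⟨φ, hφ, h1, h2, h3, h4, h5, h6, h7, h8, h9, h10, h11, h12⟩ := copy_of_rich R R R h h
    refine hfree ⟨φ, hφ, ?_⟩
    apply forall_F0 <;> rw [img]
    exacts [h1.2, h2.2, h3.2, h4.2, h5.2, h6.2, h7.2, h8.2, h9.2, h10.2, h11.2, h12.2]
  have hsum := sum_dg_le_of_not_rich R hs hir hnr
  have hcard : H.card ≤ ∑ x, dg R x := by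
    have hsub : H ⊆ Finset.univ.biUnion
        (fun x => (Finset.univ.filter (fun y => R x y)).image (fun y => ({x, y} : Finset (Fin n)))) := by
      intro e he
      obtain ⟨x, y, hxy, rfl⟩ := Finset.card_eq_two.1 (hH e he)
      simp only [Finset.mem_biUnion, Finset.mem_image, Finset.mem_filter, Finset.mem_univ,
        true_and]
      exact ⟨x, y, ⟨hxy, he⟩, rfl⟩
    refine le_trans (Finset.card_le_card hsub) (le_trans Finset.card_biUnion_le ?_)
    refine Finset.sum_le_sum (fun x _ => ?_)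
    unfold dg
    refine le_trans Finset.card_image_le (le_of_eq ?_)
    congr
  have h1 : (H.card : ℝ) ≤ 44 * n := by exact_mod_cast hcard.trans hsum
  have hn' : (N : ℝ) ≤ n := by exact_mod_cast hn
  have h2 : 44 ≤ ε * n := by
    have : 44 / ε ≤ n := le_trans hN.le hn'
    rw [div_le_iff₀ hε] at this
    linarith
  have h3 : (0 : ℝ) ≤ n := Nat.cast_nonneg n
  nlinarith

/-- Number of pattern-free colourings, in the format of the frozen statement. -/
noncomputable def CC (n : ℕ) (H : Finset (Finset (Fin n))) : ℕ :=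
  Nat.card {c : Finset (Fin n) → Option (Fin 3) //
            (∀ e : Finset (Fin n), c e = none ↔ e ∉ H) ∧
            ¬ ∃ φ : Fin 16 → Fin n, Function.Injective φ ∧
                (∀ e ∈ F0, e.image φ ∈ H) ∧
                (∀ e ∈ F0, ∀ e' ∈ F0,
                  (c (e.image φ) = c (e'.image φ) ↔ p0 e = p0 e'))}

/-- The symmetric matrix of a colouring of the complete graph. -/
def toMat {n : ℕ} (c : Finset (Fin n) → Option (Fin 3)) (x y : Fin n) : Fin 3 :=
  if x = y then 0 else (c {x, y}).getD 0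

lemma upper (n : ℕ) : CC n (Finset.powersetCard 2 (Finset.univ : Finset (Fin n))) ≤
    Nat.card (Good n) := by
  classical
  unfold CC
  have hmem : ∀ x y : Fin n, x ≠ y →
      ({x, y} : Finset (Fin n)) ∈ Finset.powersetCard 2 (Finset.univ : Finset (Fin n)) := by
    intro x y hxy
    rw [Finset.mem_powersetCard]
    exact ⟨Finset.subset_univ _, Finset.card_pair hxy⟩
  refine Nat.card_le_card_of_injective (fun c => (⟨toMat c.1, ⟨?_, ?_⟩, ?_⟩ : Good n)) ?_
  · intro x y
    unfold toMat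
    by_cases hxy : x = y
    · simp [hxy]
    · rw [if_neg hxy, if_neg (Ne.symm hxy), Finset.pair_comm]
  · intro x; simp [toMat]
  · rintro ⟨a, b, d, hab, had, hbd, φ, hφ, h1, h2, h3, h4, h5, h6, h7, h8, h9, h10, h11, h12⟩
    obtain ⟨c, hc, hfree⟩ := c
    have key : ∀ (k : Fin 3) (i j : Fin 16), E (toMat c) k (φ i) (φ j) →
        c (({i, j} : Finset (Fin 16)).image φ) = some k := by
      intro k i j h
      obtain ⟨hne, h⟩ := h
      rw [img]
      unfold toMat at h
      rw [if_neg hne] at h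
      have hsome : c {φ i, φ j} ≠ none := by
        rw [Ne, hc]; simpa using hmem _ _ hne
      obtain ⟨k', hk'⟩ := Option.ne_none_iff_exists'.1 hsome
      rw [hk'] at h ⊢
      simpa using h
    have hcol : ∀ e ∈ F0, c (e.image φ) = some ((![a, b, d] : Fin 3 → Fin 3) (p0 e)) := by
      apply forall_F0
      · exact key _ _ _ h1
      · exact key _ _ _ h2
      · exact key _ _ _ h3
      · exact key _ _ _ h4
      · exact key _ _ _ h5
      · exact key _ _ _ h6
      · exact key _ _ _ h7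
      · exact key _ _ _ h8
      · exact key _ _ _ h9
      · exact key _ _ _ h10
      · exact key _ _ _ h11
      · exact key _ _ _ h12
    have hinj : Function.Injective (![a, b, d] : Fin 3 → Fin 3) := by
      intro i j hij
      fin_cases i <;> fin_cases j <;> simp_all
    refine hfree ⟨φ, hφ, ?_, ?_⟩
    · intro e he
      have : c (e.image φ) ≠ none := by rw [hcol e he]; simp
      rw [Ne, hc, not_not] at this
      exact this
    · intro e he e' he'
      rw [hcol e he, hcol e' he']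
      constructor
      · intro h
        exact hinj (Option.some.inj h)
      · intro h; rw [h]
  · rintro ⟨c, hc, hc1⟩ ⟨c', hc', hc1'⟩ h
    have h' : toMat c = toMat c' := congrArg (fun g : Good n => g.1) h
    refine Subtype.ext ?_
    change c = c'
    funext e
    by_cases he : e ∈ Finset.powersetCard 2 (Finset.univ : Finset (Fin n))
    · obtain ⟨x, y, hxy, rfl⟩ := Finset.card_eq_two.1 (Finset.mem_powersetCard.1 he).2
      have h1 := congrFun (congrFun h' x) y
      unfold toMat at h1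
      rw [if_neg hxy, if_neg hxy] at h1
      have s1 : c {x, y} ≠ none := by rw [Ne, hc]; simpa using he
      have s2 : c' {x, y} ≠ none := by rw [Ne, hc']; simpa using he
      obtain ⟨k, hk⟩ := Option.ne_none_iff_exists'.1 s1
      obtain ⟨k', hk'⟩ := Option.ne_none_iff_exists'.1 s2
      rw [hk, hk'] at h1 ⊢
      simpa using h1
    · rw [(hc e).2 he, (hc' e).2 he]

/-- The graph: complete minus the edge `{0,1}`. -/
def Hm (m : ℕ) : Finset (Finset (Fin (m + 2))) :=
  (Finset.powersetCard 2 (Finset.univ : Finset (Fin (m + 2)))).erase {0, 1}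

/-- The symmetric matrix behind the many colourings. -/
def fm {m : ℕ} (q : (Fin m → Fin 3) × (Fin m → Fin 3) × Col2 m) :
    Fin (m + 2) → Fin (m + 2) → Fin 3 :=
  build 0 0 (Fin.cons 0 q.1) (build 0 0 q.2.1 (fun x y => (q.2.2.1 x y).castSucc))

lemma fm_symm {m : ℕ} (q : (Fin m → Fin 3) × (Fin m → Fin 3) × Col2 m) (x y : Fin (m + 2)) :
    fm q x y = fm q y x := by
  unfold fm
  apply build_symm
  intro x y
  apply build_symm
  intro x y
  rw [q.2.2.2.1 x y]

lemma fm_zero {m : ℕ} (q : (Fin m → Fin 3) × (Fin m → Fin 3) × Col2 m) (w : Fin m) :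
    fm q 0 w.succ.succ = q.1 w := by
  unfold fm
  have h := build_vs (0 : Fin 3) (0 : Fin (m + 2)) (Fin.cons 0 q.1 : Fin (m + 1) → Fin 3)
    (build 0 0 q.2.1 (fun x y => (q.2.2.1 x y).castSucc)) w.succ
  rw [Fin.zero_succAbove] at h
  rw [h]; simp

lemma fm_one {m : ℕ} (q : (Fin m → Fin 3) × (Fin m → Fin 3) × Col2 m) (w : Fin m) :
    fm q (Fin.succ 0) w.succ.succ = q.2.1 w := by
  unfold fm
  have h := build_ss (0 : Fin 3) (0 : Fin (m + 2)) (Fin.cons 0 q.1 : Fin (m + 1) → Fin 3)
    (build 0 0 q.2.1 (fun x y => (q.2.2.1 x y).castSucc)) 0 w.succ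
  rw [Fin.zero_succAbove, Fin.zero_succAbove] at h
  rw [h]
  have h' := build_vs (0 : Fin 3) (0 : Fin (m + 1)) q.2.1
    (fun x y => (q.2.2.1 x y).castSucc) w
  rw [Fin.zero_succAbove] at h'
  exact h'

lemma fm_rest {m : ℕ} (q : (Fin m → Fin 3) × (Fin m → Fin 3) × Col2 m) (x y : Fin m) :
    fm q x.succ.succ y.succ.succ = (q.2.2.1 x y).castSucc := by
  unfold fm
  have h := build_ss (0 : Fin 3) (0 : Fin (m + 2)) (Fin.cons 0 q.1 : Fin (m + 1) → Fin 3)
    (build 0 0 q.2.1 (fun x y => (q.2.2.1 x y).castSucc)) x.succ y.succ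
  rw [Fin.zero_succAbove, Fin.zero_succAbove] at h
  rw [h]
  have h' := build_ss (0 : Fin 3) (0 : Fin (m + 1)) q.2.1
    (fun x y => (q.2.2.1 x y).castSucc) x y
  rw [Fin.zero_succAbove, Fin.zero_succAbove] at h'
  exact h'

lemma touch {m : ℕ} (q : (Fin m → Fin 3) × (Fin m → Fin 3) × Col2 m) (x y : Fin (m + 2))
    (h : fm q x y = 2) : (x : ℕ) < 2 ∨ (y : ℕ) < 2 := by
  by_contra hcon
  push Not at hcon
  obtain ⟨hx, hy⟩ := hcon
  obtain ⟨x', rfl⟩ : ∃ x' : Fin m, x = x'.succ.succ :=
    ⟨⟨x - 2, by omega⟩, by ext; simp; omega⟩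
  obtain ⟨y', rfl⟩ : ∃ y' : Fin m, y = y'.succ.succ :=
    ⟨⟨y - 2, by omega⟩, by ext; simp; omega⟩
  rw [fm_rest] at h
  have : ∀ k : Fin 2, (k.castSucc : Fin 3) ≠ 2 := by decide
  exact this _ h

open Classical in
/-- The colouring of `Hm` with data `q`. -/
noncomputable def col {m : ℕ} (q : (Fin m → Fin 3) × (Fin m → Fin 3) × Col2 m)
    (e : Finset (Fin (m + 2))) : Option (Fin 3) :=
  if h : e ∈ Hm m ∧ ∃ p : Fin (m + 2) × Fin (m + 2), e = {p.1, p.2} then
    some (fm q h.2.choose.1 h.2.choose.2) else none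

lemma mem_Hm {m : ℕ} {x y : Fin (m + 2)} (h : ({x, y} : Finset (Fin (m + 2))) ∈ Hm m) :
    x ≠ y := by
  intro hxy
  unfold Hm at h
  have := (Finset.mem_powersetCard.1 (Finset.mem_of_mem_erase h)).2
  rw [hxy] at this
  simp at this

lemma col_pair {m : ℕ} (q : (Fin m → Fin 3) × (Fin m → Fin 3) × Col2 m)
    {x y : Fin (m + 2)} (h : ({x, y} : Finset (Fin (m + 2))) ∈ Hm m) :
    col q {x, y} = some (fm q x y) := by
  classical
  have hh : ({x, y} : Finset (Fin (m + 2))) ∈ Hm m ∧
      ∃ p : Fin (m + 2) × Fin (m + 2), ({x, y} : Finset (Fin (m + 2))) = {p.1, p.2} :=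
    ⟨h, (x, y), rfl⟩
  unfold col
  rw [dif_pos hh]
  have hs := hh.2.choose_spec
  set p := hh.2.choose with hp
  have hxy := mem_Hm h
  congr 1
  have h1 : p.1 ∈ ({x, y} : Finset (Fin (m + 2))) := by rw [hs]; simp
  have h2 : p.2 ∈ ({x, y} : Finset (Fin (m + 2))) := by rw [hs]; simp
  have h3 : p.1 ≠ p.2 := by
    have : ({p.1, p.2} : Finset (Fin (m + 2))) ∈ Hm m := by rw [← hs]; exact h
    exact mem_Hm this
  simp only [Finset.mem_insert, Finset.mem_singleton] at h1 h2
  rcases h1 with h1 | h1 <;> rcases h2 with h2 | h2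
  · exact absurd (h1.trans h2.symm) h3
  · rw [h1, h2]
  · rw [h1, h2]; exact fm_symm _ _ _
  · exact absurd (h1.trans h2.symm) h3

lemma Hm_card2 {m : ℕ} {e : Finset (Fin (m + 2))} (h : e ∈ Hm m) : e.card = 2 := by
  unfold Hm at h
  exact (Finset.mem_powersetCard.1 (Finset.mem_of_mem_erase h)).2

lemma pair_mem_Hm {m : ℕ} {x y : Fin (m + 2)} (hxy : x ≠ y) (h : 2 ≤ (x : ℕ) ∨ 2 ≤ (y : ℕ)) :
    ({x, y} : Finset (Fin (m + 2))) ∈ Hm m := by
  unfold Hm
  rw [Finset.mem_erase, Finset.mem_powersetCard]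
  refine ⟨?_, Finset.subset_univ _, Finset.card_pair hxy⟩
  intro he
  have h1 : x ∈ ({0, 1} : Finset (Fin (m + 2))) := by rw [← he]; simp
  have h2 : y ∈ ({0, 1} : Finset (Fin (m + 2))) := by rw [← he]; simp
  simp only [Finset.mem_insert, Finset.mem_singleton] at h1 h2
  have a0 : ((0 : Fin (m + 2)) : ℕ) = 0 := rfl
  have a1 : ((1 : Fin (m + 2)) : ℕ) = 1 := by simp
  rcases h with h | h
  · rcases h1 with h1 | h1 <;> rw [h1] at h <;> omega
  · rcases h2 with h2 | h2 <;> rw [h2] at h <;> omega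

lemma col_none {m : ℕ} (q : (Fin m → Fin 3) × (Fin m → Fin 3) × Col2 m)
    (e : Finset (Fin (m + 2))) : col q e = none ↔ e ∉ Hm m := by
  classical
  constructor
  · intro h he
    obtain ⟨x, y, hxy, rfl⟩ := Finset.card_eq_two.1 (Hm_card2 he)
    rw [col_pair q he] at h
    simp at h
  · intro he
    unfold col
    rw [dif_neg (fun h => he h.1)]

set_option maxHeartbeats 4000000 in
lemma col_free {m : ℕ} (q : (Fin m → Fin 3) × (Fin m → Fin 3) × Col2 m) :
    ¬ ∃ φ : Fin 16 → Fin (m + 2), Function.Injective φ ∧ (∀ e ∈ F0, e.image φ ∈ Hm m) ∧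
      (∀ e ∈ F0, ∀ e' ∈ F0, (col q (e.image φ) = col q (e'.image φ) ↔ p0 e = p0 e')) := by
  rintro ⟨φ, hφ, hH, hpat⟩
  have hcol : ∀ i j : Fin 16, ({i, j} : Finset (Fin 16)) ∈ F0 →
      col q (({i, j} : Finset (Fin 16)).image φ) = some (fm q (φ i) (φ j)) := by
    intro i j hij
    have := hH _ hij
    rw [img] at this ⊢
    exact col_pair q this
  have hval : ∀ i j : Fin 16, i ≠ j → ((φ i : Fin (m + 2)) : ℕ) ≠ ((φ j : Fin (m + 2)) : ℕ) := by
    intro i j hij h
    exact hij (hφ (Fin.ext h))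
  -- an edge of `F0` is not mapped to {0,1}
  have hnot : ∀ i j : Fin 16, ({i, j} : Finset (Fin 16)) ∈ F0 →
      ((φ i : Fin (m + 2)) : ℕ) < 2 → ((φ j : Fin (m + 2)) : ℕ) < 2 → i ≠ j → False := by
    intro i j hij h1 h2 hne
    have h3 := hH _ hij
    rw [img] at h3
    have h4 := hval i j hne
    unfold Hm at h3
    refine (Finset.mem_erase.1 h3).1 ?_
    have a1 : ((1 : Fin (m + 2)) : ℕ) = 1 := by simp
    have a0 : ((0 : Fin (m + 2)) : ℕ) = 0 := rfl
    rcases (by omega : (((φ i : Fin (m + 2)) : ℕ) = 0 ∧ ((φ j : Fin (m + 2)) : ℕ) = 1) ∨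
      (((φ i : Fin (m + 2)) : ℕ) = 1 ∧ ((φ j : Fin (m + 2)) : ℕ) = 0)) with ⟨g1, g2⟩ | ⟨g1, g2⟩
    · have e1 : φ i = 0 := Fin.ext (by rw [g1, a0])
      have e2 : φ j = 1 := Fin.ext (by rw [g2, a1])
      rw [e1, e2]
    · have e1 : φ i = 1 := Fin.ext (by rw [g1, a1])
      have e2 : φ j = 0 := Fin.ext (by rw [g2, a0])
      rw [e1, e2, Finset.pair_comm]
  have same : ∀ i j i' j' : Fin 16, ({i, j} : Finset (Fin 16)) ∈ F0 →
      ({i', j'} : Finset (Fin 16)) ∈ F0 →
      (fm q (φ i) (φ j) = fm q (φ i') (φ j') ↔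
        p0 ({i, j} : Finset (Fin 16)) = p0 ({i', j'} : Finset (Fin 16))) := by
    intro i j i' j' h h'
    rw [← hpat _ h _ h', hcol _ _ h, hcol _ _ h', Option.some_inj]
  have d01 : fm q (φ 8) (φ 9) ≠ fm q (φ 10) (φ 3) := by
    rw [Ne, same _ _ _ _ (by decide) (by decide)]; decide
  have d02 : fm q (φ 8) (φ 9) ≠ fm q (φ 10) (φ 11) := by
    rw [Ne, same _ _ _ _ (by decide) (by decide)]; decide
  have d12 : fm q (φ 10) (φ 3) ≠ fm q (φ 10) (φ 11) := by
    rw [Ne, same _ _ _ _ (by decide) (by decide)]; decide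
  have h3 : ∀ a b c : Fin 3, a ≠ b → a ≠ c → b ≠ c → a = 2 ∨ b = 2 ∨ c = 2 := by decide
  rcases h3 _ _ _ d01 d02 d12 with h | h | h
  · have e1 : fm q (φ 8) (φ 7) = 2 := by
      rw [← h, same _ _ _ _ (by decide) (by decide)]; decide
    have e2 : fm q (φ 8) (φ 6) = 2 := by
      rw [← h, same _ _ _ _ (by decide) (by decide)]; decide
    have e3 : fm q (φ 9) (φ 5) = 2 := by
      rw [← h, same _ _ _ _ (by decide) (by decide)]; decide
    have e4 : fm q (φ 9) (φ 4) = 2 := by
      rw [← h, same _ _ _ _ (by decide) (by decide)]; decide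
    have t1 := touch q _ _ e1
    have t2 := touch q _ _ e2
    have t3 := touch q _ _ e3
    have t4 := touch q _ _ e4
    have n1 := hval 8 7 (by decide)
    have n2 := hval 8 6 (by decide)
    have n3 := hval 8 5 (by decide)
    have n4 := hval 8 4 (by decide)
    have n5 := hval 9 7 (by decide)
    have n6 := hval 9 6 (by decide)
    have n7 := hval 9 5 (by decide)
    have n8 := hval 9 4 (by decide)
    have n9 := hval 7 6 (by decide)
    have n10 := hval 7 5 (by decide)
    have n11 := hval 7 4 (by decide)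
    have n12 := hval 6 5 (by decide)
    have n13 := hval 6 4 (by decide)
    have n14 := hval 5 4 (by decide)
    have n15 := hval 8 9 (by decide)
    have g8 : ((φ 8 : Fin (m + 2)) : ℕ) < 2 := by omega
    have g9 : ((φ 9 : Fin (m + 2)) : ℕ) < 2 := by omega
    exact hnot 8 9 (by decide) g8 g9 (by decide)
  · have e2 : fm q (φ 10) (φ 2) = 2 := by
      rw [← h, same _ _ _ _ (by decide) (by decide)]; decide
    have e3 : fm q (φ 11) (φ 1) = 2 := by
      rw [← h, same _ _ _ _ (by decide) (by decide)]; decide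
    have e4 : fm q (φ 11) (φ 0) = 2 := by
      rw [← h, same _ _ _ _ (by decide) (by decide)]; decide
    have t1 := touch q _ _ h
    have t2 := touch q _ _ e2
    have t3 := touch q _ _ e3
    have t4 := touch q _ _ e4
    have n1 := hval 10 3 (by decide)
    have n2 := hval 10 2 (by decide)
    have n3 := hval 10 1 (by decide)
    have n4 := hval 10 0 (by decide)
    have n5 := hval 11 3 (by decide)
    have n6 := hval 11 2 (by decide)
    have n7 := hval 11 1 (by decide)
    have n8 := hval 11 0 (by decide)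
    have n9 := hval 3 2 (by decide)
    have n10 := hval 3 1 (by decide)
    have n11 := hval 3 0 (by decide)
    have n12 := hval 2 1 (by decide)
    have n13 := hval 2 0 (by decide)
    have n14 := hval 1 0 (by decide)
    have n15 := hval 10 11 (by decide)
    have g8 : ((φ 10 : Fin (m + 2)) : ℕ) < 2 := by omega
    have g9 : ((φ 11 : Fin (m + 2)) : ℕ) < 2 := by omega
    exact hnot 10 11 (by decide) g8 g9 (by decide)
  · have e2 : fm q (φ 12) (φ 13) = 2 := by
      rw [← h, same _ _ _ _ (by decide) (by decide)]; decide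
    have e3 : fm q (φ 14) (φ 15) = 2 := by
      rw [← h, same _ _ _ _ (by decide) (by decide)]; decide
    have t1 := touch q _ _ h
    have t2 := touch q _ _ e2
    have t3 := touch q _ _ e3
    have n1 := hval 10 12 (by decide)
    have n2 := hval 10 13 (by decide)
    have n3 := hval 10 14 (by decide)
    have n4 := hval 10 15 (by decide)
    have n5 := hval 11 12 (by decide)
    have n6 := hval 11 13 (by decide)
    have n7 := hval 11 14 (by decide)
    have n8 := hval 11 15 (by decide)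
    have n9 := hval 12 14 (by decide)
    have n10 := hval 12 15 (by decide)
    have n11 := hval 13 14 (by decide)
    have n12 := hval 13 15 (by decide)
    omega

lemma lower (m : ℕ) : 3 ^ m * (3 ^ m * Nat.card (Col2 m)) ≤ CC (m + 2) (Hm m) := by
  classical
  unfold CC
  have h := Nat.card_le_card_of_injective
    (fun q : (Fin m → Fin 3) × (Fin m → Fin 3) × Col2 m =>
      (⟨col q, col_none q, col_free q⟩ : {c : Finset (Fin (m + 2)) → Option (Fin 3) //
            (∀ e : Finset (Fin (m + 2)), c e = none ↔ e ∉ Hm m) ∧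
            ¬ ∃ φ : Fin 16 → Fin (m + 2), Function.Injective φ ∧
                (∀ e ∈ F0, e.image φ ∈ Hm m) ∧
                (∀ e ∈ F0, ∀ e' ∈ F0,
                  (c (e.image φ) = c (e'.image φ) ↔ p0 e = p0 e'))}))
    (by
      intro q q' h
      have h1 : col q = col q' := congrArg Subtype.val h
      have h2 : ∀ x y : Fin (m + 2), x ≠ y → (2 ≤ (x : ℕ) ∨ 2 ≤ (y : ℕ)) →
          fm q x y = fm q' x y := by
        intro x y hxy hh
        have h3 := congrFun h1 {x, y}
        rw [col_pair q (pair_mem_Hm hxy hh), col_pair q' (pair_mem_Hm hxy hh)] at h3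
        exact Option.some.inj h3
      refine Prod.ext ?_ (Prod.ext ?_ (Subtype.ext ?_))
      · funext w
        rw [← fm_zero q w, ← fm_zero q' w]
        refine h2 _ _ (Ne.symm (Fin.succ_ne_zero _)) (Or.inr ?_)
        simp
      · funext w
        rw [← fm_one q w, ← fm_one q' w]
        refine h2 _ _ ?_ (Or.inr ?_)
        · intro e
          exact (Fin.succ_ne_zero w) (Fin.succ_injective _ e).symm
        · simp
      · funext x y
        by_cases hxy : x = y
        · subst hxy; rw [q.2.2.2.2, q'.2.2.2.2]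
        · have h4 := h2 x.succ.succ y.succ.succ (fun e => hxy (by
            exact Fin.succ_injective _ (Fin.succ_injective _ e))) (Or.inl (by simp))
          rw [fm_rest, fm_rest] at h4
          exact Fin.castSucc_injective _ h4)
  refine le_trans (le_of_eq ?_) h
  rw [Nat.card_prod, Nat.card_prod, Nat.card_fun]
  simp

theorem main (n0 : ℕ)
    (h : ∀ n, n0 ≤ n → ∀ H : Finset (Finset (Fin n)), (∀ e ∈ H, e.card = 2) →
      CC n H ≤ CC n (Finset.powersetCard 2 (Finset.univ : Finset (Fin n)))) : False := by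
  have hpos : ∀ m, 0 < Nat.card (Col2 m) := by
    intro m
    have : Nonempty (Col2 m) := ⟨⟨fun _ _ => 0, fun _ _ => rfl, fun _ => rfl⟩⟩
    exact Nat.card_pos
  refine asym 88 832 (fun m => Nat.card (Good m)) (fun m => Nat.card (Col2 m))
    card_col2_succ hpos (fun m hm => card_good_succ hm) n0 ?_
  intro m hm
  exact (lower m).trans ((h (m + 2) (by omega) (Hm m) (fun e he => Hm_card2 he)).trans
    (upper (m + 2)))

end Pool.Agent.Helper34.Pattern
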